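import Pool.Agent.Zk69.Hx.Theta

set_option autoImplicit false

/-! # The converse of the criterion for zeta at the abscissa `θ` -/

namespace Pool.Agent.Zk5.HR

open Complex Filter Topology MeasureTheory Set
open Pool.Agent.H24R2.JP (XX)
open Pool.Agent.Zk4 (norm_zeta_left low_zero cont_zeta XX_re_lt)
open Pool.Agent.Zk69.Hx
open scoped ComplexConjugate

theorem free_of_decF {θ : ℝ} (hθ : 1 / 2 ≤ θ) (h : volume {t : ℝ | 8 ≤ t ∧ ¬ DecF θ t} = 0) : Free θ := by
  intro s hs hz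
  have hs2 : s.re < 1 := by
    by_contra hcon
    exact riemannZeta_ne_zero_of_one_le_re (not_lt.1 hcon) hz
  have hX : XX (s - 1 / 2) = 0 := (Pool.Agent.Y23.isZ_iff s).1 ⟨hz, by linarith, hs2⟩
  have hre : (s - 1 / 2).re = s.re - 1 / 2 := by simp
  have h8 := low_zero hX (by rw [hre]; linarith)
  -- the zero with positive imaginary part
  obtain ⟨w, hw, hw1, hw2⟩ : ∃ w : ℂ, XX w = 0 ∧ θ - 1 / 2 < w.re ∧ 8 < w.im := by
    rcases le_total 0 (s - 1 / 2).im with h1 | h1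
    · refine ⟨s - 1 / 2, hX, by rw [hre]; linarith, ?_⟩
      rwa [abs_of_nonneg h1] at h8
    · refine ⟨conj (s - 1 / 2), ?_, ?_, ?_⟩
      · rw [Pool.Agent.H24R2.JP.B1h.XX_conj, hX, map_zero]
      · rw [Complex.conj_re, hre]; linarith
      · rw [Complex.conj_im]
        rwa [abs_of_nonpos h1] at h8
  obtain ⟨x1, hx1, hx2, hx3⟩ := exists_ne' w.im hw1
  have hx0 : 0 ≤ x1 := by linarith
  have hwre := XX_re_lt hw
  have hwre2 := abs_lt.1 hwre
  have hγ : 0 < w.im := by linarith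
  obtain ⟨U, hU⟩ : ∃ U : Set ℝ, U = {t : ℝ | 8 < t ∧ ‖riemannZeta (((1 / 2 - w.re : ℝ) : ℂ) + t * I)‖ <
    ‖riemannZeta (((1 / 2 - x1 : ℝ) : ℂ) + t * I)‖} := ⟨_, rfl⟩
  have hUo : IsOpen U := by
    rw [hU]
    exact (isOpen_lt continuous_const continuous_id).inter
      (isOpen_lt (cont_zeta (by linarith)) (cont_zeta (by linarith)))
  have hUne : w.im ∈ U := by
    rw [hU]
    refine ⟨hw2, ?_⟩
    rw [norm_zeta_left hγ (by linarith), norm_zeta_left hγ hx0]
    have e : I * (w.im : ℂ) + (w.re : ℂ) = w := by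
      apply Complex.ext <;> simp
    rw [e, hw, norm_zero, zero_mul, zero_mul]
    have := norm_pos_iff.2 hx3
    positivity
  have hsub : U ⊆ {t : ℝ | 8 ≤ t ∧ ¬ DecF θ t} := by
    intro t ht
    rw [hU] at ht
    refine ⟨ht.1.le, fun hdec => ?_⟩
    have h1 := hdec (show (1 / 2 - w.re : ℝ) ∈ Iic (1 - θ) by simp only [mem_Iic]; linarith)
      (show (1 / 2 - x1 : ℝ) ∈ Iic (1 - θ) by simp only [mem_Iic]; linarith) (by linarith)
    exact absurd ht.2 (not_lt.2 h1.le)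
  have h4 := measure_mono_null hsub h
  have h5 := hUo.measure_pos volume ⟨_, hUne⟩
  rw [h4] at h5
  exact lt_irrefl _ h5

end Pool.Agent.Zk5.HR
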