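import Pool.Agent.Zk5.HR.Qb

set_option autoImplicit false

/-! # The sum of the distances up to a height, in terms of the measure of the bad heights -/

namespace Pool.Agent.Zk5.HR

open Complex Filter Topology MeasureTheory Set
open Pool.Agent.Zk4
open H370 (Zf mult good_zeta)

/-- dyadic summation up to a bound -/
theorem dyadic3 {f : ℝ → ℝ} {κ T0 T C : ℝ} (hκ : 0 ≤ κ) (hT0 : 0 < T0)
    (h1 : ∀ X, T0 ≤ X → X ≤ 2 * T0 → X ≤ T → f X ≤ C)
    (h2 : ∀ X, 2 * T0 ≤ X → X ≤ T → f X ≤ f (X / 2) + κ * (X / 2)) :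
    ∀ X, T0 ≤ X → X ≤ T → f X ≤ C + κ * X := by
  have key : ∀ n : ℕ, ∀ X, T0 ≤ X → X ≤ 2 ^ (n + 1) * T0 → X ≤ T → f X ≤ C + κ * X := by
    intro n
    induction n with
    | zero =>
      intro X hX hX2 hXT
      have := h1 X hX (by simpa using hX2) hXT
      have h3 : 0 ≤ κ * X := mul_nonneg hκ (by linarith)
      linarith
    | succ n ih =>
      intro X hX hX2 hXT
      rcases le_or_gt X (2 * T0) with h | h
      · have := h1 X hX h hXT
        have h3 : 0 ≤ κ * X := mul_nonneg hκ (by linarith)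
        linarith
      · have h3 := h2 X h.le hXT
        have h4 := ih (X / 2) (by linarith) (by rw [pow_succ] at hX2; linarith) (by linarith)
        linarith
  intro X hX hXT
  obtain ⟨n, hn⟩ := pow_unbounded_of_one_lt (X / T0) (one_lt_two (α := ℝ))
  refine key n X hX ?_ hXT
  rw [div_lt_iff₀ hT0] at hn
  have : (2:ℝ) ^ n ≤ 2 ^ (n + 1) := pow_le_pow_right₀ (by norm_num) (by omega)
  nlinarith

/-- the measure of the bad heights up to `X` -/
noncomputable def vol (B : Set ℝ) (X : ℝ) : ℝ := (volume (B ∩ Icc 0 X)).toReal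

theorem vol_fin (B : Set ℝ) (X : ℝ) : volume (B ∩ Icc 0 X) ≠ ⊤ :=
  ((measure_mono inter_subset_right).trans_lt (by rw [Real.volume_Icc]; exact ENNReal.ofReal_lt_top)).ne

theorem vol_nonneg (B : Set ℝ) (X : ℝ) : 0 ≤ vol B X := ENNReal.toReal_nonneg

theorem vol_mono (B : Set ℝ) {X Y : ℝ} (h : X ≤ Y) : vol B X ≤ vol B Y :=
  ENNReal.toReal_mono (vol_fin B Y) (measure_mono (inter_subset_inter_right _ (Icc_subset_Icc_right h)))

theorem vol_le (B : Set ℝ) {X : ℝ} (h : 0 ≤ X) : vol B X ≤ X := by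
  have h1 : volume (B ∩ Icc 0 X) ≤ ENNReal.ofReal X := by
    refine (measure_mono inter_subset_right).trans ?_
    rw [Real.volume_Icc, sub_zero]
  have h2 := ENNReal.toReal_mono ENNReal.ofReal_ne_top h1
  rwa [ENNReal.toReal_ofReal h] at h2

theorem vol_sub (B : Set ℝ) {X Y : ℝ} (hX : 0 ≤ X) (h : X ≤ Y) :
    volume (B ∩ Icc X Y) ≤ ENNReal.ofReal (vol B Y - vol B X) := by
  have h1 := measure_inter_add_diff (μ := volume) (B ∩ Icc 0 Y) (measurableSet_Icc (a := (0 : ℝ)) (b := X))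
  have h2 : (B ∩ Icc 0 Y) ∩ Icc 0 X = B ∩ Icc 0 X := by
    rw [inter_assoc, inter_eq_self_of_subset_right (Icc_subset_Icc_right h)]
  rw [h2] at h1
  have h3 : volume (B ∩ Icc X Y) ≤ volume ((B ∩ Icc 0 Y) \ Icc 0 X) := by
    have h4 : B ∩ Icc X Y ⊆ ((B ∩ Icc 0 Y) \ Icc 0 X) ∪ {X} := by
      rintro t ⟨ht1, ht2, ht3⟩
      rcases eq_or_lt_of_le ht2 with h5 | h5
      · exact Or.inr h5.symm
      · exact Or.inl ⟨⟨ht1, by linarith, ht3⟩, fun h6 => absurd h6.2 (not_le.2 h5)⟩
    refine (measure_mono h4).trans ((measure_union_le _ _).trans ?_)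
    rw [Real.volume_singleton, add_zero]
  refine h3.trans ?_
  have h5 : volume ((B ∩ Icc 0 Y) \ Icc 0 X) ≠ ⊤ := by
    refine ((measure_mono diff_subset).trans_lt (lt_top_iff_ne_top.2 (vol_fin B Y))).ne
  rw [← ENNReal.ofReal_toReal h5]
  apply ENNReal.ofReal_le_ofReal
  have h6 := congrArg ENNReal.toReal h1
  rw [ENNReal.toReal_add (vol_fin B X) h5] at h6
  unfold vol
  linarith

theorem sumq {B : Set ℝ} (hB : Det B) : ∃ (c C T0 : ℝ) (n0 : ℕ), 0 < c ∧ c ≤ 1 ∧ 1 ≤ C ∧ 2 ≤ T0 ∧ 1 ≤ n0 ∧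
    ∀ (T : ℝ) (n : ℕ), T0 ≤ T → n0 ≤ n → (n : ℝ) ≤ Real.log T / 800 →
    DD 1 T ≤ C * T * Real.exp (-(c * n)) + C * Real.exp (C * n) * vol B (2 * T) := by
  obtain ⟨c, C, T0, n0, hc, hc1, hC, hT0, hn0, h⟩ := blockq hB
  obtain ⟨C1, T1, hC1, hT1, hcr⟩ := crude
  -- the base
  have hlim : ∀ᶠ T : ℝ in atTop, C1 * (2 * Real.sqrt T) * Real.log (2 * Real.sqrt T) ≤ T ^ (3 / 4 : ℝ) := by
    have h1 := (isLittleO_log_rpow_atTop (show (0 : ℝ) < 1 / 4 by norm_num)).def (show (0 : ℝ) < 1 / (4 * C1) by positivity)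
    filter_upwards [h1, eventually_ge_atTop (16 : ℝ)] with T hT hT16
    have hT0' : 0 < T := by linarith
    have hs : 0 < Real.sqrt T := Real.sqrt_pos.2 hT0'
    have hlog : 0 < Real.log T := Real.log_pos (by linarith)
    rw [Real.norm_eq_abs, abs_of_pos hlog, Real.norm_eq_abs, abs_of_pos (by positivity)] at hT
    have h5 : Real.log (2 * Real.sqrt T) ≤ Real.log T := by
      apply Real.log_le_log (by positivity)
      have h7 : 4 ≤ Real.sqrt T := by
        apply Real.le_sqrt_of_sq_le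
        linarith
      nlinarith [Real.mul_self_sqrt (show (0 : ℝ) ≤ T by linarith)]
    calc C1 * (2 * Real.sqrt T) * Real.log (2 * Real.sqrt T) ≤ C1 * (2 * Real.sqrt T) * (1 / (4 * C1) * T ^ (1 / 4 : ℝ)) := by
          gcongr
          exact h5.trans hT
      _ = 1 / 2 * (Real.sqrt T * T ^ (1 / 4 : ℝ)) := by field_simp; ring
      _ = 1 / 2 * T ^ (3 / 4 : ℝ) := by
          rw [Real.sqrt_eq_rpow, ← Real.rpow_add hT0']
          norm_num
      _ ≤ T ^ (3 / 4 : ℝ) := by
          have : 0 ≤ T ^ (3 / 4 : ℝ) := by positivity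
          linarith
  obtain ⟨T2, hT2⟩ := eventually_atTop.1 (hlim.and (eventually_ge_atTop (16 : ℝ)))
  refine ⟨c, 3 * C + 1, max T2 (max (T0 ^ 2) (T1 ^ 2)), n0, hc, hc1, by linarith, ?_, hn0, ?_⟩
  · have : 2 ≤ T0 ^ 2 := by nlinarith
    exact this.trans ((le_max_left _ _).trans (le_max_right _ _))
  intro T n hT hn hnL
  have b2 : T2 ≤ T := (le_max_left _ _).trans hT
  have b0 : T0 ^ 2 ≤ T := ((le_max_left _ _).trans (le_max_right _ _)).trans hT
  have b1 : T1 ^ 2 ≤ T := ((le_max_right _ _).trans (le_max_right _ _)).trans hT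
  obtain ⟨c1, c2⟩ := hT2 T b2
  have hTp : 0 < T := by linarith
  obtain ⟨R, hR⟩ : ∃ R : ℝ, R = Real.sqrt T := ⟨_, rfl⟩
  have hRT : R * R = T := by rw [hR]; exact Real.mul_self_sqrt (by linarith)
  have hR0 : T0 ≤ R := by rw [hR]; exact Real.le_sqrt_of_sq_le b0
  have hR1 : T1 ≤ R := by rw [hR]; exact Real.le_sqrt_of_sq_le b1
  have hR4 : 4 ≤ R := by rw [hR]; apply Real.le_sqrt_of_sq_le; linarith
  have hlogR : Real.log T = 2 * Real.log R := by
    rw [← hRT, Real.log_mul (by linarith) (by linarith)]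
    ring
  have hn0' : (0 : ℝ) ≤ n := Nat.cast_nonneg _
  rw [← hR] at c1
  obtain ⟨K, hK⟩ : ∃ K : ℝ, K = C * Real.exp (C * n) := ⟨_, rfl⟩
  have hK0 : 0 ≤ K := by rw [hK]; positivity
  obtain ⟨w, hw⟩ : ∃ w : ℝ → ℝ, w = fun X => vol B (3 * X / 2) + vol B (3 * X / 4) + vol B (3 * X / 8) := ⟨_, rfl⟩
  have hwn : ∀ X, 0 ≤ w X := by
    intro X
    rw [hw]
    have h1 := vol_nonneg B (3 * X / 2)
    have h2 := vol_nonneg B (3 * X / 4)
    have h3 := vol_nonneg B (3 * X / 8)
    simp only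
    linarith
  have hbase : DD 1 (2 * R) ≤ T * Real.exp (-(c * n)) := by
    have h3 : DD 1 (2 * R) ≤ C1 * (2 * R) * Real.log (2 * R) := by
      refine le_trans ?_ (hcr (2 * R) (by linarith))
      unfold DD
      refine Finset.sum_le_sum fun s hs => ?_
      rw [H370.mem_Zf good_zeta le_rfl] at hs
      have h4 : max (s.re - 1 / 2) 0 ≤ 1 := max_le (by linarith [hs.2.1]) (by norm_num)
      have h5 : (0 : ℝ) ≤ mult riemannZeta s := Nat.cast_nonneg _
      nlinarith
    refine (h3.trans c1).trans ?_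
    have h6 : T ^ (3 / 4 : ℝ) = T * T ^ (-(1 / 4) : ℝ) := by
      rw [← Real.rpow_one_add' hTp.le (by norm_num)]
      norm_num
    rw [h6, Real.rpow_def_of_pos hTp]
    apply mul_le_mul_of_nonneg_left _ hTp.le
    apply Real.exp_le_exp.2
    have h7 : c * n ≤ 1 * n := mul_le_mul_of_nonneg_right hc1 hn0'
    have h8 : 0 < Real.log T := Real.log_pos (by linarith)
    linarith
  have h3 := dyadic3 (f := fun X => DD 1 X - K * w X) (κ := C * Real.exp (-(c * n))) (T0 := R) (T := T)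
    (C := T * Real.exp (-(c * n))) (by positivity) (by linarith)
    (fun X h1 h2 _ => by
      have h4 := DD_add (show (1 : ℝ) ≤ 1 from le_rfl) (show 1 ≤ X by linarith) h2
      have h5 := DD_nonneg X (2 * R)
      have h6 : 0 ≤ K * w X := mul_nonneg hK0 (hwn X)
      linarith)
    (fun X h1 h2 => by
      have hX0 : 0 < X := by linarith
      have h4 := DD_add (show (1 : ℝ) ≤ 1 from le_rfl) (show 1 ≤ X / 2 by linarith) (show X / 2 ≤ X by linarith)
      have hlog : (n : ℝ) ≤ Real.log (X / 2) / 400 := by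
        have : Real.log R ≤ Real.log (X / 2) := Real.log_le_log (by linarith) (by linarith)
        linarith
      have h5 := vol_sub B (X := X / 2 / 2) (Y := 3 * (X / 2)) (by positivity) (by linarith)
      have hV0 : 0 ≤ vol B (3 * (X / 2)) - vol B (X / 2 / 2) := by
        have := vol_mono B (show X / 2 / 2 ≤ 3 * (X / 2) by linarith)
        linarith
      have h6 := h (X / 2) _ n (by linarith) hV0 hn hlog h5
      have e : 2 * (X / 2) = X := by ring
      rw [e, ← hK] at h6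
      have h7 : vol B (3 * (X / 2)) - vol B (X / 2 / 2) ≤ w X - w (X / 2) := by
        rw [hw]
        simp only
        have e1 : 3 * (X / 2) / 2 = 3 * X / 4 := by ring
        have e2 : 3 * (X / 2) / 4 = 3 * X / 8 := by ring
        have e3 : 3 * (X / 2) = 3 * X / 2 := by ring
        rw [e1, e2, e3]
        have h8 := vol_mono B (show 3 * (X / 2) / 8 ≤ X / 2 / 2 by linarith)
        rw [e3] at h8
        linarith
      have h8 := mul_le_mul_of_nonneg_left h7 hK0
      linarith) T (by nlinarith) le_rfl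
  have h4 : w T ≤ 3 * vol B (2 * T) := by
    rw [hw]
    have h5 := vol_mono B (show 3 * T / 2 ≤ 2 * T by linarith)
    have h6 := vol_mono B (show 3 * T / 4 ≤ 2 * T by linarith)
    have h7 := vol_mono B (show 3 * T / 8 ≤ 2 * T by linarith)
    simp only
    linarith
  have h5 := mul_le_mul_of_nonneg_left h4 hK0
  have h6 : DD 1 T ≤ T * Real.exp (-(c * n)) + C * Real.exp (-(c * n)) * T + K * (3 * vol B (2 * T)) := by
    linarith
  refine h6.trans ?_
  have hv := vol_nonneg B (2 * T)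
  have h7 : K * (3 * vol B (2 * T)) ≤ (3 * C + 1) * Real.exp ((3 * C + 1) * n) * vol B (2 * T) := by
    rw [hK]
    have h8 : Real.exp (C * n) ≤ Real.exp ((3 * C + 1) * n) := by
      apply Real.exp_le_exp.2
      apply mul_le_mul_of_nonneg_right _ hn0'
      linarith
    calc C * Real.exp (C * n) * (3 * vol B (2 * T)) = (3 * C) * Real.exp (C * n) * vol B (2 * T) := by ring
      _ ≤ (3 * C + 1) * Real.exp ((3 * C + 1) * n) * vol B (2 * T) := by
          gcongr
          linarith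
  have h8 : T * Real.exp (-(c * n)) + C * Real.exp (-(c * n)) * T ≤ (3 * C + 1) * T * Real.exp (-(c * n)) := by
    have : 0 ≤ C * T * Real.exp (-(c * n)) := by positivity
    linarith
  linarith

end Pool.Agent.Zk5.HR
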