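import Pool.Agent.Zk4.Nj

set_option autoImplicit false

/-! # The definitions shared by the parts of the equivalence -/

namespace Pool.Agent.Zk5.HR

open Complex Filter Topology MeasureTheory Set
open H370 (Zf mult)
open Pool.Agent.Zk4

/-- `B` has measure `o(T)` up to height `T` -/
def SmallM (B : Set ℝ) : Prop := ∀ κ : ℝ, 0 < κ → ∃ T0 : ℝ, ∀ T : ℝ, T0 ≤ T →
  volume (B ∩ Icc 0 T) ≤ ENNReal.ofReal (κ * T)

/-- all but `o(T log T)` of the zeros up to height `T` are within `ε/log T` of the critical line -/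
def Near : Prop := ∀ ε κ : ℝ, 0 < ε → 0 < κ → ∃ T0 : ℝ, ∀ T : ℝ, T0 ≤ T →
  ∑ s ∈ (Zf riemannZeta 1 T).filter (fun s => ε / Real.log T ≤ |s.re - 1 / 2|), (mult riemannZeta s : ℝ)
    ≤ κ * T * Real.log T

/-- the sum of the distances of the zeros to the right of the critical line is `o(T)` -/
def SmallD : Prop := ∀ κ : ℝ, 0 < κ → ∃ T0 : ℝ, ∀ T : ℝ, T0 ≤ T → DD 1 T ≤ κ * T

end Pool.Agent.Zk5.HR
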