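import Pool.Agent.Zk5.HR.Low
import Pool.Agent.Zk5.HR.Def
import Pool.Agent.H24R2.JP.Stir
import Pool.Agent.H24R2.JP.Zeta
import Pool.Agent.H24R2.JP.B1

set_option autoImplicit false

/-! # The bad heights for zeta are detected -/

namespace Pool.Agent.Zk5.HR

open Complex Filter Topology MeasureTheory Set
open Pool.Agent.H24R2.JP (XX HH Om)
open Pool.Agent.Zk4

theorem hh_grow : ∃ T0 : ℝ, 8 ≤ T0 ∧ ∀ t : ℝ, T0 ≤ t → ∀ u1 u2 : ℝ, 0 ≤ u2 → u2 ≤ u1 → u1 ≤ 1 →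
    ‖HH (I * t - u2)‖ ≤ ‖HH (I * t - u1)‖ * Real.exp (Real.log t * (u1 - u2)) := by
  obtain ⟨K, hK, h⟩ := Pool.Agent.H24R2.JP.StirAux.bound1
  refine ⟨max 400 (Real.exp (2 * K)), le_trans (by norm_num) (le_max_left _ _), ?_⟩
  intro t ht u1 u2 h2 h12 h1
  have ht4 : 400 ≤ t := (le_max_left _ _).trans ht
  have hlog : 2 * K ≤ Real.log t := by
    rw [Real.le_log_iff_exp_le (by linarith)]
    exact (le_max_right _ _).trans ht
  have hsub : ∀ z ∈ Metric.closedBall (I * (t : ℂ)) (t / 4), ‖z - I * t‖ ≤ t / 4 := by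
    intro z hz
    rwa [Metric.mem_closedBall, dist_eq_norm] at hz
  have hg := path_grow (g := HH) (Q := Real.log t) (convex_closedBall (I * (t : ℂ)) (t / 4))
    (fun z hz => Pool.Agent.H24R2.JP.StirAux.HH_diff (h t z ht4 (hsub z hz)).1)
    (fun z hz => Pool.Agent.H24R2.JP.StirAux.HH_ne (h t z ht4 (hsub z hz)).1)
    (fun z hz => by
      have h3 := (h t z ht4 (hsub z hz)).2
      have h4 := norm_le_norm_add_norm_sub' (logDeriv HH z) (Om t : ℂ)
      have h5 : ‖(Om t : ℂ)‖ = Real.log t / 2 := by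
        rw [Complex.norm_real, Real.norm_eq_abs, abs_of_nonneg]
        · rfl
        · unfold Om
          linarith
      rw [h5] at h4
      linarith)
    (z := I * t - u1) (w := I * t - u2)
    (by
      rw [Metric.mem_closedBall, dist_eq_norm]
      have : (I * (t : ℂ) - u1 - I * t) = ((-u1 : ℝ) : ℂ) := by push_cast; ring
      rw [this, Complex.norm_real, Real.norm_eq_abs, abs_neg, abs_of_nonneg (by linarith)]
      linarith)
    (by
      rw [Metric.mem_closedBall, dist_eq_norm]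
      have : (I * (t : ℂ) - u2 - I * t) = ((-u2 : ℝ) : ℂ) := by push_cast; ring
      rw [this, Complex.norm_real, Real.norm_eq_abs, abs_neg, abs_of_nonneg h2]
      linarith)
  have e : ‖(I * (t : ℂ) - u2) - (I * t - u1)‖ = u1 - u2 := by
    have : ((I * (t : ℂ) - u2) - (I * t - u1)) = ((u1 - u2 : ℝ) : ℂ) := by push_cast; ring
    rw [this, Complex.norm_real, Real.norm_eq_abs, abs_of_nonneg (by linarith)]
  rw [e] at hg
  exact hg

theorem norm_XX_left (t u : ℝ) : ‖XX (I * t - u)‖ = ‖XX (I * t + u)‖ := by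
  have e : (I * (t : ℂ) - u) = -((starRingEnd ℂ) (I * t + u)) := by
    apply Complex.ext <;> simp
  rw [e, Pool.Agent.H24R2.JP.B1h.XX_neg, Pool.Agent.H24R2.JP.B1h.XX_conj, RCLike.norm_conj]

theorem det_badz : Det BadZ := by
  obtain ⟨T0, hT0, h⟩ := hh_grow
  refine ⟨T0, ?_⟩
  intro t ht u1 u2 q h2 h12 h1 hq hlq hlt
  have ht0 : 0 < t := by linarith
  have hnz : ∀ u : ℝ, ‖riemannZeta (((1 / 2 - u : ℝ) : ℂ) + t * I)‖ * ‖HH (I * t - u)‖ = ‖XX (I * t + u)‖ := by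
    intro u
    have h3 := Pool.Agent.H24R2.JP.ZetaTask.part1 (I * t - u) (by simpa using ht0)
    have e : (1 / 2 + (I * (t : ℂ) - u)) = ((1 / 2 - u : ℝ) : ℂ) + t * I := by push_cast; ring
    rw [e] at h3
    rw [← norm_XX_left, h3, norm_mul, mul_comm]
  show ¬ Anti t
  intro hA
  have h4 := hA (show (1 / 2 - u1 : ℝ) ∈ Iic (1 / 2 : ℝ) by simp only [mem_Iic]; linarith)
    (show (1 / 2 - u2 : ℝ) ∈ Iic (1 / 2 : ℝ) by simp only [mem_Iic]; linarith)
    (show (1 / 2 - u1 : ℝ) < 1 / 2 - u2 by linarith)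
  simp only at h4
  have h5 := h t ht u1 u2 h2 h12.le h1
  have h6 : 0 < ‖HH (I * t - u2)‖ := by
    rw [norm_pos_iff]
    exact Pool.Agent.H24R2.JP.StirAux.HH_ne (by simpa using ht0)
  have h7 : Real.exp (Real.log t * (u1 - u2)) ≤ Real.exp q := Real.exp_le_exp.2 hlq
  have h8 : ‖riemannZeta (((1 / 2 - u2 : ℝ) : ℂ) + t * I)‖ * ‖HH (I * t - u2)‖ <
      ‖riemannZeta (((1 / 2 - u1 : ℝ) : ℂ) + t * I)‖ * ‖HH (I * t - u2)‖ :=
    mul_lt_mul_of_pos_right h4 h6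
  rw [hnz u2] at h8
  have h9 : ‖riemannZeta (((1 / 2 - u1 : ℝ) : ℂ) + t * I)‖ * ‖HH (I * t - u2)‖ ≤ ‖XX (I * t + u1)‖ * Real.exp q := by
    rw [← hnz u1]
    calc ‖riemannZeta (((1 / 2 - u1 : ℝ) : ℂ) + t * I)‖ * ‖HH (I * t - u2)‖ ≤
        ‖riemannZeta (((1 / 2 - u1 : ℝ) : ℂ) + t * I)‖ * (‖HH (I * t - u1)‖ * Real.exp (Real.log t * (u1 - u2))) :=
          mul_le_mul_of_nonneg_left h5 (norm_nonneg _)
      _ ≤ ‖riemannZeta (((1 / 2 - u1 : ℝ) : ℂ) + t * I)‖ * (‖HH (I * t - u1)‖ * Real.exp q) := by gcongr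
      _ = _ := by ring
  linarith

end Pool.Agent.Zk5.HR
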