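import Pool.Agent.H370R2.Local

set_option autoImplicit false

/-! # A point of a segment where a monic polynomial is not small -/

namespace Pool.Agent.Zk5.HR

open Complex Filter Topology Set Metric Polynomial
open H370 H370.Loc

theorem cheb (s : Multiset ℂ) (u y ℓ : ℝ) (hℓ : 0 < ℓ) :
    ∃ x : ℝ, u ≤ x ∧ x ≤ u + ℓ ∧ (ℓ / 6) ^ (Multiset.card s) ≤ ‖Pf s (x + y * I)‖ := by
  classical
  obtain ⟨n, hn⟩ : ∃ n : ℕ, n = Multiset.card s := ⟨_, rfl⟩
  rw [← hn]
  rcases Nat.eq_zero_or_pos n with h0 | hpos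
  · refine ⟨u, le_rfl, by linarith, ?_⟩
    have hs : s = 0 := Multiset.card_eq_zero.1 (by omega)
    rw [h0, hs, Pf_zero]
    simp
  have hn0 : (0 : ℝ) < n := by exact_mod_cast hpos
  obtain ⟨h, hh⟩ : ∃ h : ℝ, h = ℓ / n := ⟨_, rfl⟩
  have hh0 : 0 < h := by rw [hh]; positivity
  have hhc : (h : ℂ) ≠ 0 := by exact_mod_cast hh0.ne'
  obtain ⟨P, hP⟩ : ∃ P : ℂ[X], P = ((s.map fun ρ : ℂ => (ρ - u - y * I) / h).map fun a => X - C a).prod := ⟨_, rfl⟩
  have hPm : P.Monic := by
    rw [hP]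
    exact monic_multisetProd_X_sub_C _
  have hPd : P.natDegree = n := by
    rw [hP, natDegree_multiset_prod_X_sub_C_eq_card, Multiset.card_map, hn]
  have hPe : ∀ k : ℕ, (h : ℂ) ^ n * P.eval (k : ℂ) = Pf s (((u + k * h : ℝ) : ℂ) + y * I) := by
    intro k
    rw [hP, eval_multiset_prod, Multiset.map_map, Multiset.map_map, hn]
    unfold Pf
    have e1 : (h : ℂ) ^ (Multiset.card s) = (s.map fun _ => (h : ℂ)).prod := by
      rw [Multiset.map_const', Multiset.prod_replicate]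
    rw [e1, ← Multiset.prod_map_mul]
    congr 1
    apply Multiset.map_congr rfl
    intro ρ _
    simp only [Function.comp_apply, eval_sub, eval_X, eval_C]
    push_cast
    field_simp
    ring
  have hfac : ∃ k : ℕ, k ≤ n ∧ (n.factorial : ℝ) / 2 ^ n ≤ ‖P.eval (k : ℂ)‖ := by
    by_contra hcon
    push Not at hcon
    have h1 := congrFun (Polynomial.fwdDiff_iter_degree_eq_factorial P) 0
    rw [hPm.leadingCoeff, hPd, fwdDiff_iter_eq_sum_shift] at h1
    have h2 : ‖∑ k ∈ Finset.range (n + 1), (((-1 : ℤ)) ^ (n - k) * ((n.choose k : ℕ) : ℤ)) • P.eval (0 + k • (1 : ℂ))‖ ≤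
        ∑ k ∈ Finset.range (n + 1), (n.choose k : ℝ) * ‖P.eval (k : ℂ)‖ := by
      refine (norm_sum_le _ _).trans (Finset.sum_le_sum fun k _ => ?_)
      rw [zsmul_eq_mul, norm_mul]
      push_cast
      rw [norm_mul, norm_pow, norm_neg, norm_one, one_pow, one_mul, Complex.norm_natCast]
      simp
    rw [h1] at h2
    have h3 : ∑ k ∈ Finset.range (n + 1), (n.choose k : ℝ) * ‖P.eval (k : ℂ)‖ <
        ∑ k ∈ Finset.range (n + 1), (n.choose k : ℝ) * ((n.factorial : ℝ) / 2 ^ n) := by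
      apply Finset.sum_lt_sum_of_nonempty ⟨0, Finset.mem_range.2 (by omega)⟩
      intro k hk
      have hk' : k ≤ n := by
        have := Finset.mem_range.1 hk
        omega
      have h4 : (0 : ℝ) < n.choose k := by exact_mod_cast Nat.choose_pos hk'
      exact mul_lt_mul_of_pos_left (hcon k hk') h4
    rw [← Finset.sum_mul] at h3
    have h5 : ∑ k ∈ Finset.range (n + 1), (n.choose k : ℝ) = 2 ^ n := by
      exact_mod_cast Nat.sum_range_choose n
    rw [h5, mul_div_cancel₀ _ (by positivity : (2 : ℝ) ^ n ≠ 0)] at h3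
    have h6 : ‖((1 : ℂ) • ((n.factorial : ℕ) : ℂ → ℂ)) 0‖ = (n.factorial : ℝ) := by
      simp
    rw [h6] at h2
    linarith
  obtain ⟨k, hk, hk2⟩ := hfac
  have hkn : (k : ℝ) ≤ n := by exact_mod_cast hk
  have hk0 : (0 : ℝ) ≤ k := Nat.cast_nonneg _
  refine ⟨u + k * h, by nlinarith, ?_, ?_⟩
  · have : (k : ℝ) * h ≤ ℓ := by
      rw [hh, ← mul_div_assoc, div_le_iff₀ hn0]
      nlinarith
    linarith
  · rw [← hPe k, norm_mul, norm_pow, Complex.norm_real, Real.norm_eq_abs, abs_of_pos hh0]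
    have h1 := Real.pow_div_factorial_le_exp (n : ℝ) hn0.le n
    have hf0 : (0 : ℝ) < n.factorial := by exact_mod_cast Nat.factorial_pos n
    rw [div_le_iff₀ hf0] at h1
    have h2 : Real.exp n ≤ 3 ^ n := by
      have : Real.exp n = Real.exp 1 ^ n := by rw [← Real.exp_nat_mul, mul_one]
      rw [this]
      exact pow_le_pow_left₀ (Real.exp_pos 1).le (by have := Real.exp_one_lt_d9; linarith) n
    calc (ℓ / 6) ^ n = h ^ n * ((n : ℝ) ^ n / 6 ^ n) := by
          rw [hh, div_pow, div_pow]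
          field_simp
      _ ≤ h ^ n * ((n.factorial : ℝ) / 2 ^ n) := by
          apply mul_le_mul_of_nonneg_left _ (by positivity)
          rw [div_le_div_iff₀ (by positivity) (by positivity)]
          have e : (6 : ℝ) ^ n = 3 ^ n * 2 ^ n := by rw [← mul_pow]; norm_num
          rw [e]
          calc (n : ℝ) ^ n * 2 ^ n ≤ (Real.exp n * n.factorial) * 2 ^ n := by gcongr
            _ ≤ (3 ^ n * n.factorial) * 2 ^ n := by gcongr
            _ = n.factorial * (3 ^ n * 2 ^ n) := by ring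
      _ ≤ h ^ n * ‖P.eval (k : ℂ)‖ := by gcongr

end Pool.Agent.Zk5.HR
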