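import Pool.Agent.Zk5.HR.Lagu
import Pool.Agent.Zk5.Msq
import Pool.Agent.Zk5.HR.Dec

/-!
# Horizontal monotonicity of `ζ` and `ξ`, and the zeros off the critical line

The Riemann hypothesis holds if and only if for every `t ≥ 8` the modulus `|ζ(σ + it)|` is strictly decreasing
for `σ ≤ 1/2`, and if and only if for every `t` the modulus `|ξ(σ + it)|` is strictly increasing for `σ ≥ 1/2`
(Spira 1966; Sondow and Dumitrescu 2010; Matiyasevich, Saidak and Zvengrowski 2014), and if and only if the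
Laguerre inequalities `L_n(t) ≥ 0` hold for all `n` and all `t` (Patrick; Csordas and Varga). Call a height
`t` bad if the corresponding property fails at this height.

We show that the measure of the bad heights up to `T` and the sum `D(T)` of the distances `β - 1/2` of the zeros
to the right of the critical line bound each other polynomially, for all three properties: the measure is at
most `2 D(T + 1) + 2`, and `D(T) ≤ C T ((bad(2T)/T)^c + T^(-c))`. So the bad heights have density zero if and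
only if all but `o(T log T)` of the zeros up to height `T` lie within `ε / log T` of the critical line, for every
`ε > 0`; and they have measure `O(T^(1-η))` for some `η > 0` if and only if all but `O(T^(1-η))` of the zeros
lie within `T^(-η)` of the critical line, for some `η > 0`. Unconditionally the bad heights have upper density at
most `0.056` (for `ζ`) and `0.1151` (for `ξ` and for all the Laguerre inequalities together).

Idea of the proof of the lower bound for the measure of the bad heights. Work at the scale `n / log T`. By the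
exponential moments of Selberg's density method, all but a proportion `e^(-cn)` of the zeros up to `T` lie in
windows of size `n / log T` in which `ξ`, rescaled, has at most `C n` zeros, none of them far from the line, and
is controlled from both sides. If such a window contains a zero at distance `δ` from the line, then a
Chebyshev type lower bound for polynomials on a segment and Schwarz's lemma show that `|ξ|` is larger by a factor
`e^n` at a point nearer to the line, at all heights within `δ e^(-Cn)` of the zero; since the modulus of the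
gamma factor changes by a factor less than `e^n` only, these heights are bad for `ζ` as well.
-/

set_option autoImplicit false

open MeasureTheory Set Complex Filter Asymptotics

namespace Pool.Agent.Zk5.HR.Draft

/-- Riemann's `ξ(s) = s (s - 1) π^(-s/2) Γ(s/2) ζ(s) / 2`, an entire function: `completedRiemannZeta₀ s` is
`π^(-s/2) Γ(s/2) ζ(s) + 1/s + 1/(1 - s)`. -/
noncomputable def xi (s : ℂ) : ℂ := s * (s - 1) / 2 * completedRiemannZeta₀ s + 1 / 2

/-- `σ ↦ |ξ(σ + it)|` is strictly increasing on `[θ, ∞)` -/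
def Increasing (θ t : ℝ) : Prop := StrictMonoOn (fun σ : ℝ => ‖xi (σ + t * I)‖) (Ici θ)

/-- `σ ↦ |ζ(σ + it)|` is strictly decreasing on `(-∞, 1 - θ]` -/
def Decreasing (θ t : ℝ) : Prop := StrictAntiOn (fun σ : ℝ => ‖riemannZeta (σ + t * I)‖) (Iic (1 - θ))

/-- `Ξ(x) = ξ(1/2 + ix)` for real `x` (where it is real) -/
noncomputable def Xi (x : ℝ) : ℝ := (xi (1 / 2 + I * x)).re

/-- the Laguerre expressions `L_n(x) = ∑_{j ≤ 2n} (-1)^(n+j) C(2n, j) / (2n)! Ξ^(j)(x) Ξ^(2n-j)(x)`; one has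
`|Ξ(x + iy)|² = ∑ L_n(x) y^(2n)` -/
noncomputable def L (n : ℕ) (x : ℝ) : ℝ :=
  ∑ j ∈ Finset.range (2 * n + 1), (-1) ^ (n + j) * ((2 * n).choose j : ℝ) / ((2 * n).factorial : ℝ) *
    iteratedDeriv j Xi x * iteratedDeriv (2 * n - j) Xi x

/-- all the Laguerre inequalities hold, strictly, at `t` -/
def Laguerre (t : ℝ) : Prop := ∀ n : ℕ, 0 < L n t

/-- the measure of the heights in `[0, T]` at which some Laguerre inequality fails -/
noncomputable def badLag (T : ℝ) : ℝ := (volume ({t : ℝ | ¬ Laguerre t} ∩ Icc 0 T)).toReal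

/-- the measure of the heights in `[0, T]` at which `|ξ|` is not strictly increasing on `[1/2, ∞)` -/
noncomputable def badXi (T : ℝ) : ℝ := (volume ({t : ℝ | ¬ Increasing (1 / 2) t} ∩ Icc 0 T)).toReal

/-- the measure of the heights in `[0, T]` at which `|ζ|` is not strictly decreasing on `(-∞, 1/2]` -/
noncomputable def badZeta (T : ℝ) : ℝ := (volume ({t : ℝ | ¬ Decreasing (1 / 2) t} ∩ Icc 0 T)).toReal

/-- `N(σ, T)`, the number of zeros `ρ` of `ζ` with `Re ρ ≥ σ` and `0 < Im ρ ≤ T`, with multiplicity -/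
noncomputable def zeroCount (σ T : ℝ) : ℝ :=
  ∑ᶠ ρ ∈ {ρ : ℂ | riemannZeta ρ = 0 ∧ σ ≤ ρ.re ∧ 0 < ρ.im ∧ ρ.im ≤ T}, (analyticOrderNatAt riemannZeta ρ : ℝ)

/-- `D(T) = Σ (β - 1/2)` over the zeros `β + iγ` of `ζ` with `β > 1/2` and `0 < γ ≤ T`, with multiplicity -/
noncomputable def distSum (T : ℝ) : ℝ :=
  ∑ᶠ ρ ∈ {ρ : ℂ | riemannZeta ρ = 0 ∧ 1 / 2 < ρ.re ∧ 0 < ρ.im ∧ ρ.im ≤ T},
    (analyticOrderNatAt riemannZeta ρ : ℝ) * (ρ.re - 1 / 2)

/-- `∫_0^T log |ζ(1/2 + it)| dt` -/
noncomputable def logMean (T : ℝ) : ℝ := ∫ t in (0 : ℝ)..T, Real.log ‖riemannZeta (1 / 2 + t * I)‖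

/-- a power saving: `f(T) = O(T^(1-η))` for some `η > 0` -/
def Saves (f : ℝ → ℝ) : Prop := ∃ η : ℝ, 0 < η ∧ f =O[atTop] fun T : ℝ => T ^ (1 - η)

/-- the measure of the heights in `[0, T]` at which `|ξ|` is not strictly increasing on
`[1/2 + A/log t, ∞)`, or `|ζ|` is not strictly decreasing on `(-∞, 1/2 - A/log t]` -/
noncomputable def badAway (A T : ℝ) : ℝ :=
  (volume ({t : ℝ | ¬ (Increasing (1 / 2 + A / Real.log t) t ∧ Decreasing (1 / 2 + A / Real.log t) t)} ∩ Icc 0 T)).toReal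

theorem zero_right {ρ : ℂ} (h : riemannZeta ρ = 0) (h1 : 1 / 2 < ρ.re) (h2 : 0 < ρ.im) : ρ.re < 1 ∧ 8 < ρ.im := by
  have h3 : ρ.re < 1 := by
    by_contra hcon
    exact riemannZeta_ne_zero_of_one_le_re (not_lt.1 hcon) h
  refine ⟨h3, ?_⟩
  have hX := (Pool.Agent.Y23.isZ_iff ρ).1 ⟨h, by linarith, h3⟩
  have hre : (ρ - 1 / 2).re = ρ.re - 1 / 2 := by simp
  have him : (ρ - 1 / 2).im = ρ.im := by simp
  have h8 := Pool.Agent.Zk4.low_zero hX (by rw [hre]; linarith)
  rwa [him, abs_of_pos h2] at h8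

theorem count_eq {δ T : ℝ} (hδ : 0 < δ) : zeroCount (1 / 2 + δ) T = Pool.Agent.Zk5.HR.NF δ T := by
  classical
  unfold zeroCount Pool.Agent.Zk5.HR.NF
  rw [← finsum_mem_coe_finset]
  have e : {ρ : ℂ | riemannZeta ρ = 0 ∧ 1 / 2 + δ ≤ ρ.re ∧ 0 < ρ.im ∧ ρ.im ≤ T} =
      (((H370.Zf riemannZeta 1 T).filter (fun s => 1 / 2 + δ ≤ s.re) : Finset ℂ) : Set ℂ) := by
    ext ρ
    rw [Finset.coe_filter]
    simp only [mem_setOf_eq]
    rw [H370.mem_Zf H370.good_zeta le_rfl]
    constructor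
    · rintro ⟨h1, h2, h3, h4⟩
      obtain ⟨h5, h6⟩ := zero_right h1 (by linarith) h3
      exact ⟨⟨by linarith, h5, by linarith, h4, h1⟩, h2⟩
    · rintro ⟨⟨h1, h2, h3, h4, h5⟩, h6⟩
      exact ⟨h5, h6, by linarith, h4⟩
  rw [e]
  rfl

theorem dist_eq (T : ℝ) : distSum T = Pool.Agent.Zk4.DD 1 T := by
  classical
  unfold distSum Pool.Agent.Zk4.DD
  have h1 : ∑ s ∈ H370.Zf riemannZeta 1 T, (H370.mult riemannZeta s : ℝ) * max (s.re - 1 / 2) 0 =
      ∑ s ∈ (H370.Zf riemannZeta 1 T).filter (fun s => 1 / 2 < s.re), (H370.mult riemannZeta s : ℝ) * (s.re - 1 / 2) := by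
    rw [Finset.sum_filter]
    refine Finset.sum_congr rfl fun s _ => ?_
    split_ifs with h
    · rw [max_eq_left (by linarith)]
    · rw [max_eq_right (by linarith), mul_zero]
  rw [h1, ← finsum_mem_coe_finset]
  have e : {ρ : ℂ | riemannZeta ρ = 0 ∧ 1 / 2 < ρ.re ∧ 0 < ρ.im ∧ ρ.im ≤ T} =
      (((H370.Zf riemannZeta 1 T).filter (fun s => 1 / 2 < s.re) : Finset ℂ) : Set ℂ) := by
    ext ρ
    rw [Finset.coe_filter]
    simp only [mem_setOf_eq]
    rw [H370.mem_Zf H370.good_zeta le_rfl]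
    constructor
    · rintro ⟨h1, h2, h3, h4⟩
      obtain ⟨h5, h6⟩ := zero_right h1 h2 h3
      exact ⟨⟨by linarith, h5, by linarith, h4, h1⟩, h2⟩
    · rintro ⟨⟨h1, h2, h3, h4, h5⟩, h6⟩
      exact ⟨h5, h6, by linarith, h4⟩
  rw [e]
  rfl

theorem log_eq (T : ℝ) : logMean T = Pool.Agent.Zk5.HR.LI T := by
  unfold logMean Pool.Agent.Zk5.HR.LI
  congr 1
  funext y
  congr 3
  apply Complex.ext <;> simp

theorem dec_half (t : ℝ) : Decreasing (1 / 2) t ↔ Pool.Agent.Zk4.Anti t := by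
  unfold Decreasing Pool.Agent.Zk4.Anti
  norm_num

theorem badZ_eq (T : ℝ) : badZeta T = Pool.Agent.Zk5.HR.vol Pool.Agent.Zk4.BadZ T := by
  unfold badZeta Pool.Agent.Zk5.HR.vol Pool.Agent.Zk4.BadZ
  simp only [dec_half]

theorem badL_eq (T : ℝ) : badLag T = Pool.Agent.Zk5.HR.vol Pool.Agent.Zk4.Bad T := rfl

theorem badX_eq (T : ℝ) : badXi T = Pool.Agent.Zk5.HR.vol Pool.Agent.Zk69.Hx.BadX T := rfl

theorem away (κ : ℝ) (hκ : 0 < κ) : ∃ A : ℝ, ∀ᶠ T : ℝ in atTop, badAway A T ≤ κ * T := by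
  obtain ⟨A, T0, hA, h⟩ := Pool.Agent.Zk69.Hx.almost_all (κ / 2) (by positivity)
  refine ⟨A, ?_⟩
  filter_upwards [eventually_ge_atTop T0, eventually_ge_atTop (16 / κ), eventually_ge_atTop 1] with T h1 h2 h3
  rw [div_le_iff₀ hκ] at h2
  have hsub : {t : ℝ | ¬ (Increasing (1 / 2 + A / Real.log t) t ∧ Decreasing (1 / 2 + A / Real.log t) t)} ∩ Icc 0 T ⊆
      Icc 0 8 ∪ ({t : ℝ | ¬ Pool.Agent.Zk69.Hx.IncF (1 / 2 + A / Real.log t) t} ∩ Icc 0 T) := by
    rintro t ⟨h4, h5⟩
    rcases le_or_gt t 8 with h6 | h6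
    · exact Or.inl ⟨h5.1, h6⟩
    · refine Or.inr ⟨fun h7 => h4 ⟨h7, Pool.Agent.Zk69.Hx.decF_of_incF ?_ h6.le h7⟩, h5⟩
      have : 0 < Real.log t := Real.log_pos (by linarith)
      have : 0 ≤ A / Real.log t := by positivity
      linarith
  have h4 : volume ({t : ℝ | ¬ (Increasing (1 / 2 + A / Real.log t) t ∧ Decreasing (1 / 2 + A / Real.log t) t)} ∩ Icc 0 T) ≤
      ENNReal.ofReal (8 + κ / 2 * T) := by
    refine (measure_mono hsub).trans ((measure_union_le _ _).trans ?_)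
    rw [Real.volume_Icc, ENNReal.ofReal_add (by norm_num) (by positivity), sub_zero]
    exact add_le_add le_rfl (h T h1)
  have h5 := ENNReal.toReal_mono ENNReal.ofReal_ne_top h4
  rw [ENNReal.toReal_ofReal (by positivity)] at h5
  unfold badAway
  linarith

theorem result :
    -- (1) the criteria, at every abscissa `θ ≥ 1/2`; for `θ = 1/2` also with the Laguerre inequalities
    (∀ θ : ℝ, 1 / 2 ≤ θ → List.TFAE [
      ∀ s : ℂ, θ < s.re → riemannZeta s ≠ 0,
      ∀ t : ℝ, Increasing θ t,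
      ∀ᵐ t : ℝ, Increasing θ t,
      ∀ t : ℝ, 8 ≤ t → Decreasing θ t,
      ∀ᵐ t : ℝ, 8 ≤ t → Decreasing θ t]) ∧
    ((∀ s : ℂ, 1 / 2 < s.re → riemannZeta s ≠ 0) ↔ ∀ᵐ t : ℝ, Laguerre t) ∧
    -- (2) the proportions
    ((∀ᶠ T : ℝ in atTop, badZeta T ≤ 0.056 * T ∧ badXi T ≤ 0.1151 * T ∧ badLag T ≤ 0.1151 * T) ∧
      ∀ κ : ℝ, 0 < κ → ∃ A : ℝ, ∀ᶠ T : ℝ in atTop, badAway A T ≤ κ * T) ∧
    -- (3) the polynomial equivalence with the sum of the distances
    (∃ c C : ℝ, 0 < c ∧ ∀ᶠ T : ℝ in atTop,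
      badZeta T ≤ badXi T + 8 ∧ badXi T ≤ badLag T ∧ badLag T ≤ 2 * distSum (T + 1) + 2 ∧
      distSum T ≤ C * T * ((badZeta (2 * T) / T) ^ c + T ^ (-c)) ∧
      |logMean T - 2 * Real.pi * distSum T| ≤ C * Real.log T ^ 4) ∧
    -- (4) the equivalences at the level of densities
    List.TFAE [
      badZeta =o[atTop] fun T => T,
      badXi =o[atTop] fun T => T,
      badLag =o[atTop] fun T => T,
      ∀ ε : ℝ, 0 < ε → (fun T => zeroCount (1 / 2 + ε / Real.log T) T) =o[atTop] fun T => T * Real.log T,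
      distSum =o[atTop] fun T => T,
      logMean =o[atTop] fun T => T] ∧
    -- (5) the equivalences at the level of powers
    List.TFAE [
      Saves badZeta,
      Saves badXi,
      Saves badLag,
      ∃ η : ℝ, 0 < η ∧ (fun T => zeroCount (1 / 2 + T ^ (-η)) T) =O[atTop] fun T : ℝ => T ^ (1 - η),
      Saves distSum,
      Saves logMean] := by
  have hms : Pool.Agent.Zk4.MSQ := fun a th eps h1 h2 h3 h4 => Pool.Agent.Zk5.msq a th eps h1 h2 h3 h4
  have eZ : badZeta = fun T => Pool.Agent.Zk5.HR.vol Pool.Agent.Zk4.BadZ T := funext badZ_eq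
  have eX : badXi = fun T => Pool.Agent.Zk5.HR.vol Pool.Agent.Zk69.Hx.BadX T := funext badX_eq
  have eG : badLag = fun T => Pool.Agent.Zk5.HR.vol Pool.Agent.Zk4.Bad T := funext badL_eq
  have eD : distSum = fun T => Pool.Agent.Zk4.DD 1 T := funext dist_eq
  have eL : logMean = fun T => Pool.Agent.Zk5.HR.LI T := funext log_eq
  refine ⟨?_, ⟨fun h => Pool.Agent.Zk5.HR.lag_of_free h, fun h => Pool.Agent.Zk5.HR.free_of_lag h⟩, ?_, ?_, ?_, ?_⟩
  · intro θ hθ
    tfae_have 1 → 2 := fun h t => Pool.Agent.Zk69.Hx.incF_of_free hθ h t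
    tfae_have 2 → 3 := fun h => Eventually.of_forall h
    tfae_have 3 → 1 := fun h => Pool.Agent.Zk69.Hx.free_of_incF hθ (ae_iff.1 h)
    tfae_have 2 → 4 := fun h t ht => Pool.Agent.Zk69.Hx.decF_of_incF hθ ht (h t)
    tfae_have 4 → 5 := fun h => Eventually.of_forall h
    tfae_have 5 → 1 := fun h => by
      refine Pool.Agent.Zk5.HR.free_of_decF hθ ?_
      have h1 := ae_iff.1 h
      refine measure_mono_null ?_ h1
      rintro t ⟨h2, h3⟩
      exact fun h4 => h3 (h4 h2)
    tfae_finish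
  · obtain ⟨T1, h1⟩ := Pool.Agent.Zk4.badz_total hms
    obtain ⟨T2, h2⟩ := Pool.Agent.Zk4.bad_total hms
    refine ⟨?_, away⟩
    filter_upwards [eventually_ge_atTop T1, eventually_ge_atTop T2, eventually_ge_atTop 0] with T g1 g2 g3
    have h3 : badLag T ≤ 0.1151 * T := by
      rw [badL_eq]
      have := ENNReal.toReal_mono ENNReal.ofReal_ne_top (h2 T g2)
      rwa [ENNReal.toReal_ofReal (by positivity)] at this
    refine ⟨?_, ?_, h3⟩
    · rw [badZ_eq]
      have := ENNReal.toReal_mono ENNReal.ofReal_ne_top (h1 T g1)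
      rwa [ENNReal.toReal_ofReal (by positivity)] at this
    · rw [badX_eq]
      exact (Pool.Agent.Zk5.HR.volx_lag T).trans h3
  · obtain ⟨c, C, T0, hc, -, hC, hT0, h⟩ := Pool.Agent.Zk5.HR.powz
    obtain ⟨C2, T2, hC2, h2⟩ := Pool.Agent.Zk69.Hx.litt_full
    refine ⟨c, max C C2, hc, ?_⟩
    filter_upwards [eventually_ge_atTop T0, eventually_ge_atTop T2, eventually_ge_atTop 1] with T g1 g2 g3
    rw [badZ_eq, badZ_eq, badX_eq, badL_eq, dist_eq, dist_eq, log_eq]
    refine ⟨Pool.Agent.Zk5.HR.volz_le T, Pool.Agent.Zk5.HR.volx_lag T, ?_, ?_, ?_⟩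
    · have := Pool.Agent.Zk5.HR.voll_le g3
      linarith
    · refine (h T g1).trans ?_
      have h3 : 0 ≤ (Pool.Agent.Zk5.HR.vol Pool.Agent.Zk4.BadZ (2 * T) / T) ^ c + T ^ (-c) := by
        have h4 : 0 ≤ Pool.Agent.Zk5.HR.vol Pool.Agent.Zk4.BadZ (2 * T) / T :=
          div_nonneg (Pool.Agent.Zk5.HR.vol_nonneg _ _) (by linarith)
        positivity
      have h4 : C ≤ max C C2 := le_max_left _ _
      gcongr
    · refine (h2 T g2).trans ?_
      have h3 := Real.log_nonneg g3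
      have h4 : C2 ≤ max C C2 := le_max_right _ _
      gcongr
  · rw [eZ, eX, eG, eD, eL]
    have h : (∀ ε : ℝ, 0 < ε → (fun T : ℝ => zeroCount (1 / 2 + ε / Real.log T) T) =o[atTop] fun T => T * Real.log T) ↔
        ∀ ε : ℝ, 0 < ε → (fun T : ℝ => Pool.Agent.Zk5.HR.NF (ε / Real.log T) T) =o[atTop] fun T : ℝ => T * Real.log T := by
      refine forall_congr' fun ε => forall_congr' fun hε => ?_
      refine isLittleO_congr ?_ EventuallyEq.rfl
      filter_upwards [eventually_gt_atTop 1] with T hT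
      exact count_eq (div_pos hε (Real.log_pos hT))
    rw [h]
    exact Pool.Agent.Zk5.HR.tfae_small2
  · rw [eZ, eX, eG, eD, eL]
    have h : (∃ η : ℝ, 0 < η ∧ (fun T : ℝ => zeroCount (1 / 2 + T ^ (-η)) T) =O[atTop] fun T : ℝ => T ^ (1 - η)) ↔
        Pool.Agent.Zk5.HR.PowN := by
      refine exists_congr fun η => and_congr_right fun hη => ?_
      refine isBigO_congr ?_ EventuallyEq.rfl
      filter_upwards [eventually_gt_atTop 0] with T hT
      exact count_eq (Real.rpow_pos_of_pos hT _)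
    rw [h]
    exact Pool.Agent.Zk5.HR.tfae_pow2

end Pool.Agent.Zk5.HR.Draft
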