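import Pool.Agent.Zk5.HR.Qp
import Pool.Agent.Zk69.Hx.Eqv

set_option autoImplicit false

/-! # The equivalences, in asymptotic notation -/

namespace Pool.Agent.Zk5.HR

open Complex Filter Topology MeasureTheory Set Asymptotics
open H370 (Zf mult good_zeta)
open Pool.Agent.Zk4
open Pool.Agent.Zk69.Hx (BadX badx_sub badz_sub litt_full SmallI)

/-- the zeros at distance at least `δ` to the right of the line -/
noncomputable def NF (δ T : ℝ) : ℝ := ∑ s ∈ (Zf riemannZeta 1 T).filter (fun s => 1 / 2 + δ ≤ s.re), (mult riemannZeta s : ℝ)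

/-- Littlewood's integral -/
noncomputable def LI (T : ℝ) : ℝ := ∫ y in (0:ℝ)..T, Real.log ‖riemannZeta ⟨1 / 2, y⟩‖

theorem NF_nonneg (δ T : ℝ) : 0 ≤ NF δ T := Finset.sum_nonneg fun _ _ => Nat.cast_nonneg _

theorem far_two {δ T : ℝ} (hδ : 0 < δ) :
    ∑ s ∈ (Zf riemannZeta 1 T).filter (fun s => δ ≤ |s.re - 1 / 2|), (mult riemannZeta s : ℝ) = 2 * NF δ T := by
  classical
  have h1 : ∑ s ∈ Zf riemannZeta 1 T, (if s.re ≤ 1 / 2 - δ then (mult riemannZeta s : ℝ) else 0) = NF δ T := by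
    unfold NF
    rw [Finset.sum_filter, ← H370.sum_refl good_zeta le_rfl (fun s => if 1 / 2 + δ ≤ s.re then (mult riemannZeta s : ℝ) else 0)]
    refine Finset.sum_congr rfl fun s hs => ?_
    have hs' := (H370.mem_Zf good_zeta le_rfl).mp hs
    have e1 : (1 - (starRingEnd ℂ) s).re = 1 - s.re := by simp
    rw [e1, H370.mult_refl good_zeta hs'.1 hs'.2.1 (by linarith [hs'.2.2.1])]
    have e2 : (s.re ≤ 1 / 2 - δ) ↔ (1 / 2 + δ ≤ 1 - s.re) := by constructor <;> intro h <;> linarith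
    simp only [e2]
  rw [two_mul]
  nth_rewrite 1 [← h1]
  unfold NF
  rw [Finset.sum_filter, Finset.sum_filter, ← Finset.sum_add_distrib]
  refine Finset.sum_congr rfl fun s _ => ?_
  by_cases h2 : s.re ≤ 1 / 2 - δ
  · have h3 : ¬ (1 / 2 + δ ≤ s.re) := by intro h; linarith
    have h4 : δ ≤ |s.re - 1 / 2| := by rw [abs_of_nonpos (by linarith)]; linarith
    rw [if_pos h2, if_neg h3, if_pos h4, add_zero]
  · by_cases h3 : 1 / 2 + δ ≤ s.re
    · have h4 : δ ≤ |s.re - 1 / 2| := by rw [abs_of_nonneg (by linarith)]; linarith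
      rw [if_neg h2, if_pos h3, if_pos h4, zero_add]
    · have h4 : ¬ (δ ≤ |s.re - 1 / 2|) := by
        rw [not_le, abs_lt]
        push Not at h2 h3
        constructor <;> linarith
      rw [if_neg h2, if_neg h3, if_neg h4, add_zero]

/-! ### the small-o forms -/

theorem smallM_iff (B : Set ℝ) : SmallM B ↔ (fun T : ℝ => vol B T) =o[atTop] (fun T : ℝ => T) := by
  rw [isLittleO_iff]
  constructor
  · intro h κ hκ
    obtain ⟨T0, hT0⟩ := h κ hκ
    filter_upwards [eventually_ge_atTop T0, eventually_gt_atTop 0] with T h1 h2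
    have h3 := ENNReal.toReal_mono ENNReal.ofReal_ne_top (hT0 T h1)
    rw [ENNReal.toReal_ofReal (by positivity)] at h3
    rw [Real.norm_eq_abs, abs_of_nonneg (vol_nonneg B T), Real.norm_eq_abs, abs_of_pos h2]
    exact h3
  · intro h κ hκ
    obtain ⟨T0, hT0⟩ := eventually_atTop.1 ((h hκ).and (eventually_gt_atTop 0))
    refine ⟨T0, fun T hT => ?_⟩
    obtain ⟨h1, h2⟩ := hT0 T hT
    rw [Real.norm_eq_abs, abs_of_nonneg (vol_nonneg B T), Real.norm_eq_abs, abs_of_pos h2] at h1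
    rw [← ENNReal.ofReal_toReal (vol_fin B T)]
    exact ENNReal.ofReal_le_ofReal h1

theorem smallD_iff : SmallD ↔ (fun T : ℝ => DD 1 T) =o[atTop] (fun T : ℝ => T) := by
  rw [isLittleO_iff]
  constructor
  · intro h κ hκ
    obtain ⟨T0, hT0⟩ := h κ hκ
    filter_upwards [eventually_ge_atTop T0, eventually_gt_atTop 0] with T h1 h2
    rw [Real.norm_eq_abs, abs_of_nonneg (DD_nonneg 1 T), Real.norm_eq_abs, abs_of_pos h2]
    exact hT0 T h1
  · intro h κ hκ
    obtain ⟨T0, hT0⟩ := eventually_atTop.1 ((h hκ).and (eventually_gt_atTop 0))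
    refine ⟨T0, fun T hT => ?_⟩
    obtain ⟨h1, h2⟩ := hT0 T hT
    rwa [Real.norm_eq_abs, abs_of_nonneg (DD_nonneg 1 T), Real.norm_eq_abs, abs_of_pos h2] at h1

theorem smallI_iff' : SmallI ↔ (fun T : ℝ => LI T) =o[atTop] (fun T : ℝ => T) := by
  rw [isLittleO_iff]
  constructor
  · intro h κ hκ
    obtain ⟨T0, hT0⟩ := h κ hκ
    filter_upwards [eventually_ge_atTop T0, eventually_gt_atTop 0] with T h1 h2
    rw [Real.norm_eq_abs, Real.norm_eq_abs, abs_of_pos h2]
    exact hT0 T h1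
  · intro h κ hκ
    obtain ⟨T0, hT0⟩ := eventually_atTop.1 ((h hκ).and (eventually_gt_atTop 0))
    refine ⟨T0, fun T hT => ?_⟩
    obtain ⟨h1, h2⟩ := hT0 T hT
    rwa [Real.norm_eq_abs, Real.norm_eq_abs, abs_of_pos h2] at h1

theorem near_iff : Near ↔ ∀ ε : ℝ, 0 < ε → (fun T : ℝ => NF (ε / Real.log T) T) =o[atTop] (fun T : ℝ => T * Real.log T) := by
  constructor
  · intro h ε hε
    rw [isLittleO_iff]
    intro κ hκ
    obtain ⟨T0, hT0⟩ := h ε κ hε hκ
    filter_upwards [eventually_ge_atTop T0, eventually_gt_atTop 1] with T h1 h2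
    have hlog : 0 < Real.log T := Real.log_pos h2
    have h3 := hT0 T h1
    rw [far_two (by positivity)] at h3
    have h4 := NF_nonneg (ε / Real.log T) T
    rw [Real.norm_eq_abs, abs_of_nonneg h4, Real.norm_eq_abs, abs_of_pos (by positivity)]
    linarith
  · intro h ε κ hε hκ
    obtain ⟨T0, hT0⟩ := eventually_atTop.1 ((isLittleO_iff.1 (h ε hε) (show 0 < κ / 2 by positivity)).and (eventually_gt_atTop 1))
    refine ⟨T0, fun T hT => ?_⟩
    obtain ⟨h1, h2⟩ := hT0 T hT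
    have hlog : 0 < Real.log T := Real.log_pos h2
    have h4 := NF_nonneg (ε / Real.log T) T
    rw [Real.norm_eq_abs, abs_of_nonneg h4, Real.norm_eq_abs, abs_of_pos (by positivity)] at h1
    rw [far_two (by positivity)]
    linarith

theorem tfae_small : List.TFAE [
    (fun T : ℝ => vol BadZ T) =o[atTop] (fun T : ℝ => T),
    (fun T : ℝ => vol BadX T) =o[atTop] (fun T : ℝ => T),
    ∀ ε : ℝ, 0 < ε → (fun T : ℝ => NF (ε / Real.log T) T) =o[atTop] (fun T : ℝ => T * Real.log T),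
    (fun T : ℝ => DD 1 T) =o[atTop] (fun T : ℝ => T),
    (fun T : ℝ => LI T) =o[atTop] (fun T : ℝ => T)] := by
  rw [← smallM_iff, ← smallM_iff, ← near_iff, ← smallD_iff, ← smallI_iff']
  tfae_have 1 → 3 := near_of_badz
  tfae_have 3 → 4 := Pool.Agent.Zk69.Hx.smallD_of_near
  tfae_have 4 → 2 := Pool.Agent.Zk69.Hx.smallM_x
  tfae_have 2 → 1 := Pool.Agent.Zk69.Hx.smallM_z
  tfae_have 4 ↔ 5 := Pool.Agent.Zk69.Hx.smallI_iff
  tfae_finish

/-! ### the inequalities -/

theorem volz_le (T : ℝ) : vol BadZ T ≤ vol BadX T + 8 := by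
  have hsub : BadZ ∩ Icc 0 T ⊆ Icc 0 8 ∪ (BadX ∩ Icc 0 T) := by
    rintro t ⟨h1, h2⟩
    rcases le_or_gt t 8 with h3 | h3
    · exact Or.inl ⟨h2.1, h3⟩
    · exact Or.inr ⟨badz_sub ⟨h1, h3.le⟩, h2⟩
  have h1 : volume (BadZ ∩ Icc 0 T) ≤ ENNReal.ofReal 8 + volume (BadX ∩ Icc 0 T) := by
    refine (measure_mono hsub).trans ((measure_union_le _ _).trans ?_)
    rw [Real.volume_Icc, sub_zero]
  have h2 := ENNReal.toReal_mono (ENNReal.add_ne_top.2 ⟨ENNReal.ofReal_ne_top, vol_fin BadX T⟩) h1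
  rw [ENNReal.toReal_add ENNReal.ofReal_ne_top (vol_fin BadX T), ENNReal.toReal_ofReal (by norm_num)] at h2
  unfold vol
  linarith

theorem DD_mono {a b : ℝ} (ha : 1 ≤ a) (hab : a ≤ b) : DD 1 a ≤ DD 1 b := by
  have h1 := DD_add le_rfl ha hab
  have h2 := DD_nonneg a b
  linarith

theorem volx_le {T : ℝ} (hT : 1 ≤ T) : vol BadX T ≤ 2 * DD 1 (T + 1) + 3 / 2 := by
  have hsub : BadX ∩ Icc 0 T ⊆ Icc 0 (3 / 2) ∪ (Bad ∩ Icc (3 / 2) T) := by
    rintro t ⟨h1, h2⟩
    rcases le_or_gt t (3 / 2) with h3 | h3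
    · exact Or.inl ⟨h2.1, h3⟩
    · exact Or.inr ⟨badx_sub h1, h3.le, h2.2⟩
  have h4 := bad_measure (A := 3 / 2) (X := T) le_rfl
  rw [show (3 / 2 - 1 / 2 : ℝ) = 1 by norm_num] at h4
  have h0 := DD_nonneg 1 (T + 1 / 2)
  have h1 : volume (BadX ∩ Icc 0 T) ≤ ENNReal.ofReal (3 / 2 + 2 * DD 1 (T + 1 / 2)) := by
    refine (measure_mono hsub).trans ((measure_union_le _ _).trans ?_)
    rw [Real.volume_Icc, ENNReal.ofReal_add (by norm_num) (by linarith), sub_zero]
    exact add_le_add le_rfl h4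
  have h2 := ENNReal.toReal_mono ENNReal.ofReal_ne_top h1
  rw [ENNReal.toReal_ofReal (by linarith)] at h2
  have h3 := DD_mono (show 1 ≤ T + 1 / 2 by linarith) (show T + 1 / 2 ≤ T + 1 by linarith)
  unfold vol
  linarith

/-! ### the power saving forms -/

/-- a power saving -/
def Pow (f : ℝ → ℝ) : Prop := ∃ η : ℝ, 0 < η ∧ f =O[atTop] (fun T : ℝ => T ^ (1 - η))

theorem rpow_mono_O {a b : ℝ} (h : a ≤ b) : (fun T : ℝ => T ^ a) =O[atTop] (fun T : ℝ => T ^ b) := by
  refine IsBigO.of_bound 1 ?_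
  filter_upwards [eventually_ge_atTop (1 : ℝ)] with T hT
  rw [one_mul, Real.norm_eq_abs, Real.norm_eq_abs, abs_of_nonneg (by positivity), abs_of_nonneg (by positivity)]
  exact Real.rpow_le_rpow_of_exponent_le hT h

theorem pow_small {f : ℝ → ℝ} (h : Pow f) {θ : ℝ} (hθ : 0 < θ) : ∃ η : ℝ, 0 < η ∧ η ≤ θ ∧ f =O[atTop] (fun T : ℝ => T ^ (1 - η)) := by
  obtain ⟨η, hη, h⟩ := h
  exact ⟨min η θ, lt_min hη hθ, min_le_right _ _, h.trans (rpow_mono_O (by linarith [min_le_left η θ]))⟩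

theorem const_O {a : ℝ} (ha : 0 ≤ a) (c : ℝ) : (fun _ : ℝ => c) =O[atTop] (fun T : ℝ => T ^ a) := by
  refine IsBigO.of_bound |c| ?_
  filter_upwards [eventually_ge_atTop (1 : ℝ)] with T hT
  rw [Real.norm_eq_abs, Real.norm_eq_abs, abs_of_nonneg (show 0 ≤ T ^ a by positivity)]
  have := Real.one_le_rpow hT ha
  have h2 := abs_nonneg c
  nlinarith

theorem logpow_O {a : ℝ} (ha : 0 < a) (k : ℕ) : (fun T : ℝ => Real.log T ^ k) =O[atTop] (fun T : ℝ => T ^ a) := by
  have h1 : (fun T : ℝ => Real.log T ^ k) =o[atTop] (fun T : ℝ => T ^ a) := by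
    have := isLittleO_log_rpow_rpow_atTop (k : ℝ) ha
    simpa using this
  exact h1.isBigO

theorem pow_zx (h : Pow (fun T => vol BadX T)) : Pow (fun T => vol BadZ T) := by
  obtain ⟨η, hη, hη1, h⟩ := pow_small h one_pos
  refine ⟨η, hη, ?_⟩
  have h1 : (fun T => vol BadZ T) =O[atTop] (fun T => vol BadX T + 8) := by
    refine IsBigO.of_bound 1 (Eventually.of_forall fun T => ?_)
    have h2 := volz_le T
    have h3 := vol_nonneg BadX T
    rw [one_mul, Real.norm_eq_abs, Real.norm_eq_abs, abs_of_nonneg (vol_nonneg _ _), abs_of_nonneg (by linarith)]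
    exact h2
  exact h1.trans (h.add (const_O (by linarith) 8))

/-- comparison of the arguments `T` and `2T` -/
theorem comp_two {f : ℝ → ℝ} {a : ℝ} (h : f =O[atTop] (fun T : ℝ => T ^ a)) :
    (fun T => f (2 * T)) =O[atTop] (fun T : ℝ => T ^ a) := by
  have h1 : Tendsto (fun T : ℝ => 2 * T) atTop atTop := tendsto_id.const_mul_atTop (by norm_num)
  have h2 := h.comp_tendsto h1
  refine h2.trans ?_
  refine IsBigO.of_bound ((2 : ℝ) ^ a) ?_
  filter_upwards [eventually_ge_atTop (1 : ℝ)] with T hT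
  simp only [Function.comp_apply]
  rw [Real.norm_eq_abs, Real.norm_eq_abs, abs_of_nonneg (by positivity), abs_of_nonneg (by positivity),
    Real.mul_rpow (by norm_num) (by linarith)]

theorem pow_dz (h : Pow (fun T => vol BadZ T)) : Pow (fun T => DD 1 T) := by
  obtain ⟨η, hη, h⟩ := h
  obtain ⟨c, C, T0, hc, hc1, hC, hT0, hq⟩ := powz
  obtain ⟨M, hM⟩ := (comp_two h).bound
  refine ⟨min (η * c) c, lt_min (by positivity) hc, ?_⟩
  have e1 : min (η * c) c ≤ η * c := min_le_left _ _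
  have e2 : min (η * c) c ≤ c := min_le_right _ _
  have hM0 : 0 ≤ |M| := abs_nonneg M
  refine IsBigO.of_bound (C * (|M| ^ c + 1)) ?_
  filter_upwards [hM, eventually_ge_atTop T0] with T h1 h2
  have hT1 : 1 ≤ T := by linarith
  have hTp : 0 < T := by linarith
  rw [Real.norm_eq_abs, abs_of_nonneg (vol_nonneg _ _), Real.norm_eq_abs, abs_of_nonneg (by positivity)] at h1
  rw [Real.norm_of_nonneg (DD_nonneg _ _), Real.norm_of_nonneg (show 0 ≤ T ^ (1 - min (η * c) c) by positivity)]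
  refine (hq T h2).trans ?_
  have h3 : vol BadZ (2 * T) / T ≤ |M| * T ^ (-η) := by
    rw [div_le_iff₀ hTp]
    have e3 : |M| * T ^ (-η) * T = |M| * T ^ (1 - η) := by
      rw [mul_assoc, ← Real.rpow_add_one hTp.ne']
      congr 2
      ring
    rw [e3]
    exact h1.trans (mul_le_mul_of_nonneg_right (le_abs_self M) (by positivity))
  have h4 : (vol BadZ (2 * T) / T) ^ c ≤ |M| ^ c * T ^ (-(η * c)) := by
    calc (vol BadZ (2 * T) / T) ^ c ≤ (|M| * T ^ (-η)) ^ c :=
          Real.rpow_le_rpow (div_nonneg (vol_nonneg _ _) hTp.le) h3 hc.le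
      _ = |M| ^ c * T ^ (-(η * c)) := by
          rw [Real.mul_rpow hM0 (by positivity), ← Real.rpow_mul hTp.le]
          congr 2
          ring
  obtain ⟨m, hm⟩ : ∃ m : ℝ, m = min (η * c) c := ⟨_, rfl⟩
  rw [← hm] at e1 e2 ⊢
  have h5 : T * T ^ (-(η * c)) ≤ T ^ (1 - m) := by
    have : T * T ^ (-(η * c)) = T ^ (1 - η * c) := by
      rw [mul_comm, ← Real.rpow_add_one hTp.ne']
      congr 1
      ring
    rw [this]
    exact Real.rpow_le_rpow_of_exponent_le hT1 (by linarith)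
  have h6 : T * T ^ (-c) ≤ T ^ (1 - m) := by
    have : T * T ^ (-c) = T ^ (1 - c) := by
      rw [mul_comm, ← Real.rpow_add_one hTp.ne']
      congr 1
      ring
    rw [this]
    exact Real.rpow_le_rpow_of_exponent_le hT1 (by linarith)
  calc C * T * ((vol BadZ (2 * T) / T) ^ c + T ^ (-c)) ≤ C * T * (|M| ^ c * T ^ (-(η * c)) + T ^ (-c)) := by
        gcongr
    _ = C * (|M| ^ c * (T * T ^ (-(η * c))) + T * T ^ (-c)) := by ring
    _ ≤ C * (|M| ^ c * T ^ (1 - m) + T ^ (1 - m)) := by gcongr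
    _ = C * (|M| ^ c + 1) * T ^ (1 - m) := by ring

theorem pow_xd (h : Pow (fun T => DD 1 T)) : Pow (fun T => vol BadX T) := by
  obtain ⟨η, hη, hη1, h⟩ := pow_small h one_pos
  refine ⟨η, hη, ?_⟩
  have h1 : (fun T => vol BadX T) =O[atTop] (fun T => 2 * DD 1 (2 * T) + 3 / 2) := by
    refine IsBigO.of_bound 1 ?_
    filter_upwards [eventually_ge_atTop (1 : ℝ)] with T hT
    have h2 := volx_le hT
    have h3 := DD_mono (show 1 ≤ T + 1 by linarith) (show T + 1 ≤ 2 * T by linarith)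
    have h4 := DD_nonneg 1 (2 * T)
    rw [one_mul, Real.norm_eq_abs, Real.norm_eq_abs, abs_of_nonneg (vol_nonneg _ _), abs_of_nonneg (by linarith)]
    linarith
  exact h1.trans (((comp_two h).const_mul_left 2).add (const_O (by linarith) _))

theorem litt_O : (fun T => LI T - 2 * Real.pi * DD 1 T) =O[atTop] (fun T => Real.log T ^ 4) := by
  obtain ⟨C, T0, hC, h⟩ := litt_full
  refine IsBigO.of_bound C ?_
  filter_upwards [eventually_ge_atTop T0, eventually_ge_atTop (1 : ℝ)] with T hT hT1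
  have := Real.log_nonneg hT1
  rw [Real.norm_eq_abs, Real.norm_eq_abs, abs_of_nonneg (show 0 ≤ Real.log T ^ 4 by positivity)]
  exact h T hT

theorem pow_id (h : Pow (fun T => DD 1 T)) : Pow (fun T => LI T) := by
  obtain ⟨η, hη, hη1, h⟩ := pow_small h (show (0 : ℝ) < 1 / 2 by norm_num)
  refine ⟨η, hη, ?_⟩
  have h1 := (litt_O.trans (logpow_O (show 0 < 1 - η by linarith) 4)).add (h.const_mul_left (2 * Real.pi))
  simpa using h1

theorem pow_di (h : Pow (fun T => LI T)) : Pow (fun T => DD 1 T) := by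
  obtain ⟨η, hη, hη1, h⟩ := pow_small h (show (0 : ℝ) < 1 / 2 by norm_num)
  refine ⟨η, hη, ?_⟩
  have h1 := h.sub (litt_O.trans (logpow_O (show 0 < 1 - η by linarith) 4))
  have h2 : (fun T => DD 1 T) = fun T => (1 / (2 * Real.pi)) * (LI T - (LI T - 2 * Real.pi * DD 1 T)) := by
    funext T
    have := Real.pi_pos
    field_simp
    ring
  rw [h2]
  exact h1.const_mul_left _

/-- all but `O(T^(1-η))` of the zeros are within `T^(-η)` of the line -/
def PowN : Prop := ∃ η : ℝ, 0 < η ∧ (fun T : ℝ => NF (T ^ (-η)) T) =O[atTop] (fun T : ℝ => T ^ (1 - η))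

theorem pow_nd (h : Pow (fun T => DD 1 T)) : PowN := by
  obtain ⟨η, hη, h⟩ := h
  obtain ⟨M, hM⟩ := h.bound
  refine ⟨η / 2, by positivity, IsBigO.of_bound |M| ?_⟩
  filter_upwards [hM, eventually_ge_atTop (1 : ℝ)] with T h1 hT
  have hTp : 0 < T := by linarith
  rw [Real.norm_eq_abs, abs_of_nonneg (DD_nonneg _ _), Real.norm_eq_abs, abs_of_nonneg (by positivity)] at h1
  rw [Real.norm_of_nonneg (NF_nonneg _ _), Real.norm_of_nonneg (show 0 ≤ T ^ (1 - η / 2) by positivity)]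
  have h2 : T ^ (-(η / 2)) * NF (T ^ (-(η / 2))) T ≤ DD 1 T := by
    unfold NF DD
    rw [Finset.mul_sum]
    refine le_trans ?_ (Finset.sum_le_sum_of_subset_of_nonneg (Finset.filter_subset
      (fun s : ℂ => 1 / 2 + T ^ (-(η / 2)) ≤ s.re) _) fun s _ _ => mul_nonneg (Nat.cast_nonneg _) (le_max_right _ _))
    refine Finset.sum_le_sum fun s hs => ?_
    have h4 := (Finset.mem_filter.1 hs).2
    rw [mul_comm]
    refine mul_le_mul_of_nonneg_left (le_trans ?_ (le_max_left _ _)) (Nat.cast_nonneg _)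
    linarith
  have h3 : T ^ (-(η / 2)) * NF (T ^ (-(η / 2))) T ≤ T ^ (-(η / 2)) * (|M| * T ^ (1 - η / 2)) := by
    refine h2.trans (h1.trans ?_)
    have e : T ^ (-(η / 2)) * (|M| * T ^ (1 - η / 2)) = |M| * T ^ (1 - η) := by
      rw [mul_left_comm, ← Real.rpow_add hTp]
      congr 2
      ring
    rw [e]
    exact mul_le_mul_of_nonneg_right (le_abs_self M) (by positivity)
  exact le_of_mul_le_mul_left h3 (Real.rpow_pos_of_pos hTp _)

theorem pow_dn (h : PowN) : Pow (fun T => DD 1 T) := by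
  classical
  obtain ⟨η, hη, h⟩ := h
  obtain ⟨M, hM⟩ := h.bound
  obtain ⟨C, T0, hC, hT0, hcr⟩ := crude
  obtain ⟨M2, hM2⟩ := (logpow_O (show 0 < η / 2 by positivity) 1).bound
  refine ⟨η / 2, by positivity, IsBigO.of_bound (C * |M2| + |M|) ?_⟩
  filter_upwards [hM, hM2, eventually_ge_atTop T0] with T h1 h2 hT
  have hT1 : 1 ≤ T := by linarith
  have hTp : 0 < T := by linarith
  have hlog : 0 ≤ Real.log T := Real.log_nonneg hT1
  rw [Real.norm_eq_abs, abs_of_nonneg (NF_nonneg _ _), Real.norm_eq_abs, abs_of_nonneg (by positivity)] at h1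
  rw [pow_one, Real.norm_eq_abs, abs_of_nonneg hlog, Real.norm_eq_abs, abs_of_nonneg (by positivity)] at h2
  rw [Real.norm_of_nonneg (DD_nonneg _ _), Real.norm_of_nonneg (show 0 ≤ T ^ (1 - η / 2) by positivity)]
  have h3 : DD 1 T ≤ T ^ (-η) * (∑ s ∈ Zf riemannZeta 1 T, (mult riemannZeta s : ℝ)) + NF (T ^ (-η)) T := by
    unfold DD NF
    rw [Finset.sum_filter, Finset.mul_sum, ← Finset.sum_add_distrib]
    refine Finset.sum_le_sum fun s hs => ?_
    rw [H370.mem_Zf good_zeta le_rfl] at hs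
    have hm : (0 : ℝ) ≤ mult riemannZeta s := Nat.cast_nonneg _
    have hδ : 0 < T ^ (-η) := Real.rpow_pos_of_pos hTp _
    split_ifs with h4
    · have h5 : max (s.re - 1 / 2) 0 ≤ 1 := max_le (by linarith [hs.2.1]) (by norm_num)
      have h6 : (mult riemannZeta s : ℝ) * max (s.re - 1 / 2) 0 ≤ (mult riemannZeta s : ℝ) * 1 :=
        mul_le_mul_of_nonneg_left h5 hm
      have h7 : 0 ≤ T ^ (-η) * (mult riemannZeta s : ℝ) := by positivity
      linarith
    · push Not at h4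
      have h5 : max (s.re - 1 / 2) 0 ≤ T ^ (-η) := max_le (by linarith) hδ.le
      rw [add_zero, mul_comm (T ^ (-η))]
      exact mul_le_mul_of_nonneg_left h5 hm
  have h4 := hcr T hT
  have hδ : 0 < T ^ (-η) := Real.rpow_pos_of_pos hTp _
  calc DD 1 T ≤ T ^ (-η) * (C * T * Real.log T) + M * T ^ (1 - η) := by
        refine h3.trans (add_le_add (mul_le_mul_of_nonneg_left h4 hδ.le) h1)
    _ ≤ T ^ (-η) * (C * T * (|M2| * T ^ (η / 2))) + |M| * T ^ (1 - η / 2) := by
        have e3 : T ^ (1 - η) ≤ T ^ (1 - η / 2) := Real.rpow_le_rpow_of_exponent_le hT1 (by linarith)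
        have e4 : M * T ^ (1 - η) ≤ |M| * T ^ (1 - η / 2) :=
          (mul_le_mul_of_nonneg_right (le_abs_self M) (by positivity)).trans
            (mul_le_mul_of_nonneg_left e3 (abs_nonneg M))
        have e5 : Real.log T ≤ |M2| * T ^ (η / 2) :=
          h2.trans (mul_le_mul_of_nonneg_right (le_abs_self M2) (by positivity))
        have e6 : T ^ (-η) * (C * T * Real.log T) ≤ T ^ (-η) * (C * T * (|M2| * T ^ (η / 2))) := by gcongr
        linarith
    _ = C * |M2| * (T ^ (-η) * T ^ (1 : ℝ) * T ^ (η / 2)) + |M| * T ^ (1 - η / 2) := by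
        rw [Real.rpow_one]
        ring
    _ = C * |M2| * T ^ (1 - η / 2) + |M| * T ^ (1 - η / 2) := by
        rw [← Real.rpow_add hTp, ← Real.rpow_add hTp]
        congr 3
        ring
    _ = (C * |M2| + |M|) * T ^ (1 - η / 2) := by ring

theorem tfae_pow : List.TFAE [
    Pow (fun T => vol BadZ T), Pow (fun T => vol BadX T), PowN, Pow (fun T => DD 1 T), Pow (fun T => LI T)] := by
  tfae_have 1 → 4 := pow_dz
  tfae_have 4 → 2 := pow_xd
  tfae_have 2 → 1 := pow_zx
  tfae_have 4 → 3 := pow_nd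
  tfae_have 3 → 4 := pow_dn
  tfae_have 4 → 5 := pow_id
  tfae_have 5 → 4 := pow_di
  tfae_finish

end Pool.Agent.Zk5.HR
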