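import Pool.Agent.Zk5.HR.Eq
import Pool.Agent.Zk69.Hx.Theta

set_option autoImplicit false

/-! # The Laguerre inequalities -/

namespace Pool.Agent.Zk5.HR

open Complex Filter Topology MeasureTheory Set Asymptotics
open H370 (Zf mult good_zeta)
open Pool.Agent.Zk4
open Pool.Agent.Zk69.Hx (BadX badx_sub Free)
open Pool.Agent.TH803.LG (Lag)

theorem volx_lag (T : ℝ) : vol BadX T ≤ vol Bad T :=
  ENNReal.toReal_mono (vol_fin Bad T) (measure_mono (inter_subset_inter_left _ badx_sub))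

theorem voll_le {T : ℝ} (_hT : 1 ≤ T) : vol Bad T ≤ 2 * DD 1 (T + 1) + 3 / 2 := by
  have hsub : Bad ∩ Icc 0 T ⊆ Icc 0 (3 / 2) ∪ (Bad ∩ Icc (3 / 2) T) := by
    rintro t ⟨h1, h2⟩
    rcases le_or_gt t (3 / 2) with h3 | h3
    · exact Or.inl ⟨h2.1, h3⟩
    · exact Or.inr ⟨h1, h3.le, h2.2⟩
  have h4 := bad_measure (A := 3 / 2) (X := T) le_rfl
  rw [show (3 / 2 - 1 / 2 : ℝ) = 1 by norm_num] at h4
  have h0 := DD_nonneg 1 (T + 1 / 2)
  have h1 : volume (Bad ∩ Icc 0 T) ≤ ENNReal.ofReal (3 / 2 + 2 * DD 1 (T + 1 / 2)) := by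
    refine (measure_mono hsub).trans ((measure_union_le _ _).trans ?_)
    rw [Real.volume_Icc, ENNReal.ofReal_add (by norm_num) (by linarith), sub_zero]
    exact add_le_add le_rfl h4
  have h2 := ENNReal.toReal_mono ENNReal.ofReal_ne_top h1
  rw [ENNReal.toReal_ofReal (by linarith)] at h2
  have h3 := DD_mono (show 1 ≤ T + 1 / 2 by linarith) (show T + 1 / 2 ≤ T + 1 by linarith)
  unfold vol
  linarith

/-- under the Riemann hypothesis all the Laguerre expressions are positive at all heights that are not ordinates -/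
theorem lag_of_free (h : Free (1 / 2)) : ∀ᵐ t : ℝ, ∀ n, 0 < Lag n t := by
  have hc : {t : ℝ | ¬ ∀ n, 0 < Lag n t} ⊆ ⋃ k : ℕ, (fun s : ℂ => s.im) '' {s : ℂ | Pool.Agent.Y23.IsZ s ∧ |s.im| ≤ k} := by
    intro t ht
    have h1 : ¬ ∀ s : ℂ, riemannZeta s = 0 → 1 / 2 ≤ s.re → s.re < 1 → s.re - 1 / 2 < |s.im - t| :=
      fun h => ht (fun n => good_of_zeros h n)
    push Not at h1
    obtain ⟨s, hs, hs1, hs2, hs3⟩ := h1
    have h2 : s.re = 1 / 2 := by
      by_contra hcon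
      exact h s (lt_of_le_of_ne hs1 (Ne.symm hcon)) hs
    have h3 : s.im = t := by
      have h4 : |s.im - t| ≤ 0 := by linarith
      have := abs_nonpos_iff.1 h4
      linarith
    obtain ⟨k, hk⟩ := exists_nat_ge |s.im|
    rw [mem_iUnion]
    exact ⟨k, s, ⟨⟨hs, by linarith, hs2⟩, hk⟩, h3⟩
  rw [ae_iff]
  refine measure_mono_null hc ?_
  apply Set.Countable.measure_zero
  refine countable_iUnion fun k => ?_
  exact ((Pool.Agent.Y23.isZ_finite (k : ℝ)).image _).countable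

theorem free_of_lag (h : ∀ᵐ t : ℝ, ∀ n, 0 < Lag n t) : Free (1 / 2) := by
  refine Pool.Agent.Zk69.Hx.free_of_incF le_rfl ?_
  refine measure_mono_null ?_ (ae_iff.1 h)
  exact badx_sub

theorem pow_ld (h : Pow (fun T => DD 1 T)) : Pow (fun T => vol Bad T) := by
  obtain ⟨η, hη, hη1, h⟩ := pow_small h one_pos
  refine ⟨η, hη, ?_⟩
  have h1 : (fun T => vol Bad T) =O[atTop] (fun T => 2 * DD 1 (2 * T) + 3 / 2) := by
    refine IsBigO.of_bound 1 ?_
    filter_upwards [eventually_ge_atTop (1 : ℝ)] with T hT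
    have h2 := voll_le hT
    have h3 := DD_mono (show 1 ≤ T + 1 by linarith) (show T + 1 ≤ 2 * T by linarith)
    have h4 := DD_nonneg 1 (2 * T)
    rw [one_mul, Real.norm_eq_abs, Real.norm_eq_abs, abs_of_nonneg (vol_nonneg _ _), abs_of_nonneg (by linarith)]
    linarith
  exact h1.trans (((comp_two h).const_mul_left 2).add (const_O (by linarith) _))

theorem pow_lx (h : Pow (fun T => vol Bad T)) : Pow (fun T => vol BadX T) := by
  obtain ⟨η, hη, h⟩ := h
  refine ⟨η, hη, IsBigO.trans (IsBigO.of_bound 1 (Eventually.of_forall fun T => ?_)) h⟩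
  rw [one_mul, Real.norm_eq_abs, Real.norm_eq_abs, abs_of_nonneg (vol_nonneg _ _), abs_of_nonneg (vol_nonneg _ _)]
  exact volx_lag T

theorem small_ld (h : (fun T : ℝ => DD 1 T) =o[atTop] (fun T : ℝ => T)) : (fun T : ℝ => vol Bad T) =o[atTop] (fun T : ℝ => T) := by
  have h1 : (fun T => vol Bad T) =O[atTop] (fun T => 2 * DD 1 (2 * T) + 3 / 2) := by
    refine IsBigO.of_bound 1 ?_
    filter_upwards [eventually_ge_atTop (1 : ℝ)] with T hT
    have h2 := voll_le hT
    have h3 := DD_mono (show 1 ≤ T + 1 by linarith) (show T + 1 ≤ 2 * T by linarith)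
    have h4 := DD_nonneg 1 (2 * T)
    rw [one_mul, Real.norm_eq_abs, Real.norm_eq_abs, abs_of_nonneg (vol_nonneg _ _), abs_of_nonneg (by linarith)]
    linarith
  refine h1.trans_isLittleO (IsLittleO.add ?_ ?_)
  · have h2 : Tendsto (fun T : ℝ => 2 * T) atTop atTop := tendsto_id.const_mul_atTop (by norm_num)
    have h3 := h.comp_tendsto h2
    have h4 : (fun T : ℝ => DD 1 (2 * T)) =o[atTop] fun T : ℝ => T := by
      refine h3.trans_isBigO ?_
      refine IsBigO.of_bound 2 (Eventually.of_forall fun T => ?_)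
      simp
    exact h4.const_mul_left 2
  · exact (isLittleO_const_id_atTop (3 / 2 : ℝ))

theorem small_lx (h : (fun T : ℝ => vol Bad T) =o[atTop] (fun T : ℝ => T)) :
    (fun T : ℝ => vol BadX T) =o[atTop] (fun T : ℝ => T) := by
  refine IsBigO.trans_isLittleO (IsBigO.of_bound 1 (Eventually.of_forall fun T => ?_)) h
  rw [one_mul, Real.norm_eq_abs, Real.norm_eq_abs, abs_of_nonneg (vol_nonneg _ _), abs_of_nonneg (vol_nonneg _ _)]
  exact volx_lag T

theorem tfae_small2 : List.TFAE [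
    (fun T : ℝ => vol BadZ T) =o[atTop] (fun T : ℝ => T),
    (fun T : ℝ => vol BadX T) =o[atTop] (fun T : ℝ => T),
    (fun T : ℝ => vol Bad T) =o[atTop] (fun T : ℝ => T),
    ∀ ε : ℝ, 0 < ε → (fun T : ℝ => NF (ε / Real.log T) T) =o[atTop] (fun T : ℝ => T * Real.log T),
    (fun T : ℝ => DD 1 T) =o[atTop] (fun T : ℝ => T),
    (fun T : ℝ => LI T) =o[atTop] (fun T : ℝ => T)] := by
  have h := tfae_small
  tfae_have 1 ↔ 5 := h.out 0 3
  tfae_have 2 ↔ 5 := h.out 1 3
  tfae_have 4 ↔ 5 := h.out 2 3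
  tfae_have 6 ↔ 5 := h.out 4 3
  tfae_have 5 → 3 := small_ld
  tfae_have 3 → 2 := small_lx
  tfae_finish

theorem tfae_pow2 : List.TFAE [
    Pow (fun T => vol BadZ T), Pow (fun T => vol BadX T), Pow (fun T => vol Bad T), PowN,
    Pow (fun T => DD 1 T), Pow (fun T => LI T)] := by
  have h := tfae_pow
  tfae_have 1 ↔ 5 := h.out 0 3
  tfae_have 2 ↔ 5 := h.out 1 3
  tfae_have 4 ↔ 5 := h.out 2 3
  tfae_have 6 ↔ 5 := h.out 4 3
  tfae_have 5 → 3 := pow_ld
  tfae_have 3 → 2 := pow_lx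
  tfae_finish

end Pool.Agent.Zk5.HR
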