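import Pool.Agent.H370R2.Local
import Pool.Agent.W32.SD.SCount

set_option autoImplicit false

/-! # A zero off the line destroys the monotonicity on an interval of heights -/

namespace Pool.Agent.Zk5.HR

open Complex Metric Set H370 H370.Loc
open Pool.Agent.H24R2.DZ

/-- growth along segments -/
theorem path_grow {g : ℂ → ℂ} {S : Set ℂ} {Q : ℝ} (hS : Convex ℝ S) (hd : ∀ z ∈ S, DifferentiableAt ℂ g z)
    (h0 : ∀ z ∈ S, g z ≠ 0) (hQ : ∀ z ∈ S, ‖logDeriv g z‖ ≤ Q) {z w : ℂ} (hz : z ∈ S) (hw : w ∈ S) :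
    ‖g w‖ ≤ ‖g z‖ * Real.exp (Q * ‖w - z‖) := by
  have hseg : ∀ t : ℝ, 0 ≤ t → t ≤ 1 → z + (t : ℂ) * (w - z) ∈ S := by
    intro t ht ht1
    have h1 := hS hz hw (by linarith : 0 ≤ 1 - t) ht (by ring)
    have e : z + (t : ℂ) * (w - z) = (1 - t) • z + t • w := by
      simp only [Complex.real_smul]
      push_cast
      ring
    rw [e]
    exact h1
  have hd' : ∀ t : ℝ, 0 ≤ t → t ≤ 1 → HasDerivAt (fun t : ℝ => g (z + (t : ℂ) * (w - z)))
      (deriv g (z + (t : ℂ) * (w - z)) * (w - z)) t := by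
    intro t ht ht1
    have h1 : HasDerivAt (fun t : ℝ => z + (t : ℂ) * (w - z)) (w - z) t := by
      have := ((Complex.ofRealCLM.hasDerivAt (x := t)).mul_const (w - z)).const_add z
      refine this.congr_deriv ?_
      simp
    exact (hd _ (hseg t ht ht1)).hasDerivAt.comp t h1
  have key := norm_le_gronwallBound_of_norm_deriv_right_le
    (f := fun t : ℝ => g (z + (t : ℂ) * (w - z)))
    (f' := fun t : ℝ => deriv g (z + (t : ℂ) * (w - z)) * (w - z)) (δ := ‖g z‖)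
    (K := Q * ‖w - z‖) (ε := 0) (a := 0) (b := 1)
    (fun t ht => (hd' t ht.1 ht.2).continuousAt.continuousWithinAt)
    (fun t ht => (hd' t ht.1 ht.2.le).hasDerivWithinAt)
    (by simp) ?_ 1 ⟨zero_le_one, le_refl _⟩
  · rw [gronwallBound_ε0] at key
    simpa using key
  · intro t ht
    have h1 := hseg t ht.1 ht.2.le
    have e : deriv g (z + (t : ℂ) * (w - z)) =
        logDeriv g (z + (t : ℂ) * (w - z)) * g (z + (t : ℂ) * (w - z)) := by
      rw [logDeriv_apply, div_mul_cancel₀ _ (h0 _ h1)]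
    rw [add_zero, e, norm_mul, norm_mul]
    have h6 : 0 ≤ ‖g (z + (t : ℂ) * (w - z))‖ := norm_nonneg _
    have h7 : 0 ≤ ‖w - z‖ := norm_nonneg _
    calc ‖logDeriv g (z + (t : ℂ) * (w - z))‖ * ‖g (z + (t : ℂ) * (w - z))‖ * ‖w - z‖
        ≤ Q * ‖g (z + (t : ℂ) * (w - z))‖ * ‖w - z‖ :=
          mul_le_mul_of_nonneg_right (mul_le_mul_of_nonneg_right (hQ _ h1) h6) h7
      _ = _ := by ring

/-- a point of a segment far from finitely many points -/
theorem far_point (s : Multiset ℂ) (u ℓ : ℝ) (hℓ : 0 < ℓ) :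
    ∃ x : ℝ, u ≤ x ∧ x ≤ u + ℓ ∧ ∀ ρ ∈ s, ℓ / (2 * (Multiset.card s + 1)) ≤ |x - ρ.re| := by
  classical
  obtain ⟨n, hn⟩ : ∃ n : ℕ, n = Multiset.card s := ⟨_, rfl⟩
  rw [← hn]
  have hn1 : (0 : ℝ) < n + 1 := by positivity
  obtain ⟨X, hX⟩ : ∃ X : ℕ → ℝ, X = fun k : ℕ => u + (2 * (k : ℝ) + 1) * ℓ / (2 * ((n : ℝ) + 1)) := ⟨_, rfl⟩
  by_contra hcon
  push Not at hcon
  have h1 : ∀ k : Fin (n + 1), ∃ ρ ∈ s, |X k - ρ.re| < ℓ / (2 * (n + 1)) := by
    intro k
    have hk : (k : ℝ) ≤ n := by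
      have := k.2
      exact_mod_cast Nat.lt_succ_iff.1 this
    have hk0 : (0 : ℝ) ≤ (k : ℕ) := Nat.cast_nonneg _
    apply hcon
    · rw [hX]
      simp only
      have : 0 ≤ (2 * ((k : ℕ) : ℝ) + 1) * ℓ / (2 * (n + 1)) := by positivity
      linarith
    · rw [hX]
      simp only
      have : (2 * ((k : ℕ) : ℝ) + 1) * ℓ / (2 * (n + 1)) ≤ ℓ := by
        rw [div_le_iff₀ (by positivity)]
        nlinarith
      linarith
  choose ρ hρ hρ2 using h1
  have hinj : Function.Injective ρ := by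
    intro k l hkl
    have h2 := hρ2 k
    have h3 := hρ2 l
    rw [← hkl] at h3
    have h4 : |X k - X l| < ℓ / (n + 1) := by
      have h5 : |X k - X l| ≤ |X k - (ρ k).re| + |(ρ k).re - X l| := abs_sub_le _ _ _
      rw [abs_sub_comm (ρ k).re] at h5
      have h6 : ℓ / (2 * ((n : ℝ) + 1)) + ℓ / (2 * (n + 1)) = ℓ / (n + 1) := by field_simp; ring
      linarith
    have h7 : X k - X l = (((k : ℕ) : ℝ) - ((l : ℕ) : ℝ)) * (ℓ / (n + 1)) := by
      rw [hX]
      simp only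
      field_simp
      ring
    rw [h7, abs_mul, abs_of_pos (by positivity : 0 < ℓ / ((n : ℝ) + 1))] at h4
    have h8 : |((k : ℕ) : ℝ) - ((l : ℕ) : ℝ)| < 1 := by
      by_contra h9
      push Not at h9
      have := mul_le_mul_of_nonneg_right h9 (by positivity : 0 ≤ ℓ / ((n : ℝ) + 1))
      linarith
    have h9 : ((k : ℕ) : ℤ) = ((l : ℕ) : ℤ) := by
      have h10 : |((k : ℕ) : ℤ) - ((l : ℕ) : ℤ)| < 1 := by
        have : ((|((k : ℕ) : ℤ) - ((l : ℕ) : ℤ)| : ℤ) : ℝ) < 1 := by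
          push_cast
          exact h8
        exact_mod_cast this
      have := Int.abs_lt_one_iff.1 h10
      omega
    exact Fin.ext (by exact_mod_cast h9)
  have hcard : Fintype.card (Fin (n + 1)) ≤ s.toFinset.card := by
    rw [← Finset.card_univ, ← Finset.card_image_of_injective Finset.univ hinj]
    apply Finset.card_le_card
    intro x hx
    rw [Finset.mem_image] at hx
    obtain ⟨k, -, rfl⟩ := hx
    exact Multiset.mem_toFinset.2 (hρ k)
  have h11 := Multiset.toFinset_card_le s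
  rw [Fintype.card_fin, hn] at hcard
  omega

/-- lower bound on a segment -/
theorem seg_low (K ℓ : ℝ) (hK : 0 ≤ K) (hℓ : 0 < ℓ) (hℓ1 : ℓ ≤ 1) : ∃ c : ℝ, 0 < c ∧
    ∀ f : ℂ → ℂ, Differentiable ℂ f → f 3 = 1 → (∀ z : ℂ, ‖z‖ ≤ 14 → ‖f z‖ ≤ Real.exp K) →
    ∀ u y : ℝ, 0 ≤ u → u ≤ 1 → |y| ≤ 1 → ∃ x : ℝ, u ≤ x ∧ x ≤ u + ℓ ∧ c ≤ ‖f (x + y * I)‖ := by
  obtain ⟨N, hN⟩ : ∃ N : ℕ, N = ⌈2 * K⌉₊ := ⟨_, rfl⟩
  obtain ⟨B, hB⟩ : ∃ B : ℝ, B = K + N * Real.log 6 := ⟨_, rfl⟩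
  have hlog6 : 0 < Real.log 6 := Real.log_pos (by norm_num)
  have hB0 : 0 ≤ B := by rw [hB]; positivity
  refine ⟨(ℓ / (2 * (N + 1))) ^ N * ((1 / 6) ^ N * Real.exp (-(10 * (B + 1) * 4))), by positivity, ?_⟩
  intro f hf h3 hb u y hu hu1 hy
  have hcb : ∀ z ∈ closedBall (3 : ℂ) 11, ‖z‖ ≤ 14 := by
    intro z hz
    rw [mem_closedBall, dist_eq_norm] at hz
    have h1 : ‖z‖ ≤ ‖z - 3‖ + ‖(3 : ℂ)‖ := by
      calc ‖z‖ = ‖(z - 3) + 3‖ := by congr 1; ring
        _ ≤ _ := norm_add_le _ _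
    have h2 : ‖(3 : ℂ)‖ = 3 := by simp
    linarith
  have hM : (1 : ℝ) ≤ Real.exp K := Real.one_le_exp hK
  have hfa : AnalyticOnNhd ℂ f (closedBall 3 11) := fun z _ => hf.analyticAt z
  obtain ⟨s, g, hs, hg, hfg, hg0, hcard⟩ := extract (r := 6) (R := 11) (by norm_num) (by norm_num) hM hfa
    (by rw [h3]; exact one_ne_zero) (fun z hz => hb z (hcb z hz))
  obtain ⟨n, hn⟩ : ∃ n : ℕ, n = Multiset.card s := ⟨_, rfl⟩
  rw [h3, norm_one, div_one, Real.log_exp, ← hn] at hcard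
  have hlog : (1 : ℝ) / 2 ≤ Real.log (11 / 6) := by
    rw [Real.le_log_iff_exp_le (by norm_num)]
    have h1 := Real.exp_one_lt_d9
    have h2 : Real.exp (1 / 2) ^ 2 = Real.exp 1 := by rw [← Real.exp_nat_mul]; norm_num
    nlinarith [Real.exp_pos (1 / 2)]
  have hnN : n ≤ N := by
    rw [hN]
    have h1 : (n : ℝ) ≤ 2 * K := by
      refine hcard.trans ?_
      rw [div_le_iff₀ (by linarith)]
      nlinarith
    have h2 : (n : ℝ) ≤ (⌈2 * K⌉₊ : ℝ) := h1.trans (Nat.le_ceil _)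
    exact_mod_cast h2
  -- bounds for g
  have hgsphere : ∀ w ∈ sphere (3 : ℂ) 11, ‖g w‖ ≤ Real.exp K := by
    intro w hw
    have hwR := sphere_subset_closedBall hw
    have h1 : (1 : ℝ) ^ n ≤ ‖Pf s w‖ := by
      rw [hn]
      refine Pf_norm_ge zero_le_one fun ρ hρ => ?_
      have h2 := (hs ρ hρ).1
      rw [mem_closedBall, dist_eq_norm] at h2
      rw [mem_sphere, dist_eq_norm] at hw
      have h3 : ‖w - 3‖ ≤ ‖w - ρ‖ + ‖ρ - 3‖ := by
        calc ‖w - 3‖ = ‖(w - ρ) + (ρ - 3)‖ := by congr 1; ring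
          _ ≤ _ := norm_add_le _ _
      linarith
    rw [one_pow] at h1
    calc ‖g w‖ = ‖g w‖ * 1 := (mul_one _).symm
      _ ≤ ‖g w‖ * ‖Pf s w‖ := mul_le_mul_of_nonneg_left h1 (norm_nonneg _)
      _ = ‖f w‖ := by rw [hfg w, norm_mul, mul_comm]
      _ ≤ _ := hb w (hcb w hwR)
  have hgball : ∀ w ∈ closedBall (3 : ℂ) 11, ‖g w‖ ≤ Real.exp K := by
    intro w hw
    refine Complex.norm_le_of_forall_mem_frontier_norm_le (U := ball (3 : ℂ) 11) isBounded_ball ?_ ?_ ?_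
    · apply DifferentiableOn.diffContOnCl
      rw [closure_ball (3 : ℂ) (by norm_num)]
      exact fun x hx => (hg x hx).differentiableAt.differentiableWithinAt
    · intro x hx
      rw [frontier_ball (3 : ℂ) (by norm_num)] at hx
      exact hgsphere x hx
    · rwa [closure_ball (3 : ℂ) (by norm_num)]
  have hgc : (1 / 6) ^ n ≤ ‖g 3‖ := by
    have h1 : ‖Pf s 3‖ ≤ 6 ^ n := by
      rw [hn]
      exact Pf_norm_le fun ρ hρ => by
        have h2 := (hs ρ hρ).1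
        rw [mem_closedBall, dist_eq_norm, norm_sub_rev] at h2
        exact h2
    have h2 : 1 ≤ ‖g 3‖ * 6 ^ n := by
      calc (1 : ℝ) = ‖f 3‖ := by rw [h3, norm_one]
        _ = ‖g 3‖ * ‖Pf s 3‖ := by rw [hfg 3, norm_mul, mul_comm]
        _ ≤ ‖g 3‖ * 6 ^ n := mul_le_mul_of_nonneg_left h1 (norm_nonneg _)
    rw [one_div, inv_pow]
    rw [inv_le_iff_one_le_mul₀ (by positivity)]
    exact h2
  have hgb : ∀ w ∈ closedBall (3 : ℂ) 6, ‖g w‖ ≤ Real.exp B * ‖g 3‖ := by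
    intro w hw
    refine (hgball w (closedBall_subset_closedBall (by norm_num) hw)).trans ?_
    have h1 : Real.exp K = Real.exp K * (6 ^ n * (1 / 6) ^ n) := by
      rw [← mul_pow]; norm_num
    have h2 : Real.exp B = Real.exp K * 6 ^ N := by
      rw [hB, Real.exp_add, Real.exp_nat_mul, Real.exp_log (by norm_num)]
    rw [h1, h2]
    calc Real.exp K * (6 ^ n * (1 / 6) ^ n) = Real.exp K * 6 ^ n * (1 / 6) ^ n := by ring
      _ ≤ Real.exp K * 6 ^ N * ‖g 3‖ := by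
        apply mul_le_mul _ hgc (by positivity) (by positivity)
        apply mul_le_mul_of_nonneg_left _ (Real.exp_pos K).le
        exact pow_le_pow_right₀ (by norm_num) hnN
  have hld : ∀ z ∈ closedBall (3 : ℂ) 4, ‖logDeriv g z‖ ≤ 10 * (B + 1) := by
    intro z hz
    have h1 := logDeriv_zero_free (r2 := 4) (r1 := 5) (r := 6) (by norm_num) (by norm_num) (by norm_num) hB0
      (hg.mono (closedBall_subset_closedBall (by norm_num))) hg0 hgb hz
    refine h1.trans (le_of_eq ?_)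
    norm_num
    ring
  obtain ⟨x, hx1, hx2, hx3⟩ := far_point s u ℓ hℓ
  refine ⟨x, hx1, hx2, ?_⟩
  rw [← hn] at hx3
  have hzin : (x + y * I : ℂ) ∈ closedBall (3 : ℂ) 4 := by
    rw [mem_closedBall, dist_eq_norm]
    have h1 := Complex.norm_le_abs_re_add_abs_im (x + y * I - 3 : ℂ)
    have h2 : (x + y * I - 3 : ℂ).re = x - 3 := by simp
    have h3 : (x + y * I - 3 : ℂ).im = y := by simp
    rw [h2, h3] at h1
    have h4 : |x - 3| ≤ 3 := by rw [abs_le]; constructor <;> linarith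
    linarith
  have h3in : (3 : ℂ) ∈ closedBall (3 : ℂ) 4 := mem_closedBall_self (by norm_num)
  have hgrow := path_grow (g := g) (Q := 10 * (B + 1)) (convex_closedBall (3 : ℂ) 4)
    (fun z hz => (hg z (closedBall_subset_closedBall (by norm_num) hz)).differentiableAt)
    (fun z hz => hg0 z (closedBall_subset_closedBall (by norm_num) hz)) hld hzin h3in
  have hgz : (1 / 6) ^ N * Real.exp (-(10 * (B + 1) * 4)) ≤ ‖g (x + y * I)‖ := by
    have h1 : ‖(3 : ℂ) - (x + y * I)‖ ≤ 4 := by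
      rw [mem_closedBall, dist_eq_norm, norm_sub_rev] at hzin
      exact hzin
    have h2 : Real.exp (10 * (B + 1) * ‖(3 : ℂ) - (x + y * I)‖) ≤ Real.exp (10 * (B + 1) * 4) :=
      Real.exp_le_exp.2 (mul_le_mul_of_nonneg_left h1 (by positivity))
    have h3 : ‖g 3‖ ≤ ‖g (x + y * I)‖ * Real.exp (10 * (B + 1) * 4) :=
      hgrow.trans (mul_le_mul_of_nonneg_left h2 (norm_nonneg _))
    rw [Real.exp_neg, ← div_eq_mul_inv, div_le_iff₀ (Real.exp_pos _)]
    refine le_trans ?_ (hgc.trans h3)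
    exact pow_le_pow_of_le_one (by norm_num) (by norm_num) hnN
  have hPz : (ℓ / (2 * (N + 1))) ^ N ≤ ‖Pf s (x + y * I)‖ := by
    have hnN' : (n : ℝ) ≤ N := by exact_mod_cast hnN
    have h1 : (ℓ / (2 * (n + 1))) ^ n ≤ ‖Pf s (x + y * I)‖ := by
      conv_lhs => rw [hn]
      refine Pf_norm_ge (by positivity) fun ρ hρ => ?_
      have h2 := hx3 ρ hρ
      have h3 : |(x + y * I - ρ : ℂ).re| ≤ ‖(x + y * I - ρ : ℂ)‖ := Complex.abs_re_le_norm _
      have h4 : (x + y * I - ρ : ℂ).re = x - ρ.re := by simp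
      rw [h4] at h3
      rw [← hn]
      exact h2.trans h3
    refine le_trans ?_ h1
    calc (ℓ / (2 * ((N : ℝ) + 1))) ^ N ≤ (ℓ / (2 * ((N : ℝ) + 1))) ^ n := by
          apply pow_le_pow_of_le_one (by positivity) _ hnN
          rw [div_le_one (by positivity)]
          have : (0 : ℝ) ≤ N := Nat.cast_nonneg _
          linarith
      _ ≤ (ℓ / (2 * ((n : ℝ) + 1))) ^ n := by gcongr
  rw [hfg, norm_mul]
  exact mul_le_mul hPz hgz (by positivity) (norm_nonneg _)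

/-- the local lemma -/
theorem loc (a η X0 : ℝ) (ha : 1 ≤ a) (hη : η ≤ 1) (hX0 : 0 < X0) (hX1 : X0 ≤ 1) : ∃ ρ0 : ℝ, 0 < ρ0 ∧ ρ0 ≤ 1 / 100 ∧
    ∀ F : ℂ → ℂ, NN a η F → ∀ z0 : ℂ, F z0 = 0 → X0 ≤ z0.re → z0.re ≤ 1 → |z0.im| ≤ 1 / 2 →
    ∀ y : ℝ, |y - z0.im| ≤ ρ0 → ∃ x : ℝ, z0.re / 4 ≤ x ∧ x ≤ 3 * z0.re / 4 ∧
      ‖F (z0.re + y * I)‖ * Real.exp a < ‖F (x + y * I)‖ := by
  obtain ⟨c, hc, hseg⟩ := seg_low (34 * a) (X0 / 2) (by linarith) (by linarith) (by linarith)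
  obtain ⟨ρ0, hρ0⟩ : ∃ ρ0 : ℝ, ρ0 = min (1 / 100) (c / (4 * Real.exp (35 * a))) := ⟨_, rfl⟩
  have hρ1 : 0 < ρ0 := by rw [hρ0]; positivity
  have hρ2 : ρ0 ≤ 1 / 100 := by rw [hρ0]; exact min_le_left _ _
  have hρ3 : ρ0 ≤ c / (4 * Real.exp (35 * a)) := by rw [hρ0]; exact min_le_right _ _
  refine ⟨ρ0, hρ1, hρ2, ?_⟩
  intro F hN z0 hz0 hre0 hre1 him y hy
  have ha0 : 0 ≤ a := by linarith
  have h30 : F 3 ≠ 0 := (hN.far 3 (by simp; norm_num) (by simp; norm_num)).1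
  have h3p : 0 < ‖F 3‖ := norm_pos_iff.2 h30
  have hbig := Pool.Agent.W32.SD.big ha0 hη hN
  have him' := abs_le.1 him
  have hy' := abs_le.1 hy
  obtain ⟨x, hx1, hx2, hx3⟩ := hseg (fun z => F z / F 3) (hN.diff.div_const _) (div_self h30) (by
    intro z hz
    rw [norm_div, div_le_iff₀ h3p, mul_comm]
    exact hbig z hz) (z0.re / 4) y (by linarith) (by linarith) (by rw [abs_le]; constructor <;> linarith)
  refine ⟨x, hx1, by linarith, ?_⟩
  -- upper bound near the zero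
  have hup : ‖F (z0.re + y * I)‖ ≤ 2 * (‖F 3‖ * Real.exp (34 * a)) * |y - z0.im| := by
    have hmaps : MapsTo F (ball z0 1) (closedBall (F z0) (2 * (‖F 3‖ * Real.exp (34 * a)))) := by
      intro w hw
      rw [mem_ball, dist_eq_norm] at hw
      rw [hz0, mem_closedBall, dist_zero_right]
      have h1 : ‖w‖ ≤ 14 := by
        have h2 : ‖w‖ ≤ ‖w - z0‖ + ‖z0‖ := by
          calc ‖w‖ = ‖(w - z0) + z0‖ := by congr 1; ring
            _ ≤ _ := norm_add_le _ _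
        have h3 := Complex.norm_le_abs_re_add_abs_im z0
        rw [abs_of_nonneg (by linarith : 0 ≤ z0.re)] at h3
        linarith
      have h4 := hbig w h1
      have h5 : 0 < ‖F 3‖ * Real.exp (34 * a) := by positivity
      linarith
    have hzz : (z0.re + y * I : ℂ) ∈ ball z0 1 := by
      rw [mem_ball, dist_eq_norm]
      have h1 : (z0.re + y * I - z0 : ℂ) = ((y - z0.im : ℝ) : ℂ) * I := by
        apply Complex.ext <;> simp
      rw [h1, norm_mul, Complex.norm_I, mul_one, Complex.norm_real, Real.norm_eq_abs]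
      linarith
    have h1 := Complex.dist_le_div_mul_dist_of_mapsTo_ball (hN.diff.differentiableOn) hmaps hzz
    rw [hz0, dist_zero_right, div_one, dist_eq_norm] at h1
    have h2 : (z0.re + y * I - z0 : ℂ) = ((y - z0.im : ℝ) : ℂ) * I := by
      apply Complex.ext <;> simp
    rw [h2, norm_mul, Complex.norm_I, mul_one, Complex.norm_real, Real.norm_eq_abs] at h1
    exact h1
  have hlow : c * ‖F 3‖ ≤ ‖F (x + y * I)‖ := by
    have h1 : c ≤ ‖F (x + y * I) / F 3‖ := hx3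
    rw [norm_div, le_div_iff₀ h3p] at h1
    exact h1
  refine lt_of_lt_of_le ?_ hlow
  calc ‖F (z0.re + y * I)‖ * Real.exp a
      ≤ 2 * (‖F 3‖ * Real.exp (34 * a)) * ρ0 * Real.exp a := by
        apply mul_le_mul_of_nonneg_right _ (Real.exp_pos a).le
        exact hup.trans (mul_le_mul_of_nonneg_left hy (by positivity))
    _ = 2 * ‖F 3‖ * ρ0 * Real.exp (35 * a) := by
        have : Real.exp (35 * a) = Real.exp (34 * a) * Real.exp a := by rw [← Real.exp_add]; congr 1; ring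
        rw [this]; ring
    _ ≤ 2 * ‖F 3‖ * (c / (4 * Real.exp (35 * a))) * Real.exp (35 * a) := by gcongr
    _ = c * ‖F 3‖ / 2 := by field_simp; ring
    _ < c * ‖F 3‖ := by
        have : 0 < c * ‖F 3‖ := by positivity
        linarith

end Pool.Agent.Zk5.HR
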