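import Pool.Agent.Zk5.HR.Loc
import Pool.Agent.Zk5.HR.Cheb

set_option autoImplicit false

/-! # The local lemma with an explicit dependence on the scale -/

namespace Pool.Agent.Zk5.HR

open Complex Metric Set H370 H370.Loc
open Pool.Agent.H24R2.DZ

theorem Pf_add (s t : Multiset ℂ) (z : ℂ) : Pf (s + t) z = Pf s z * Pf t z := by
  unfold Pf
  rw [Multiset.map_add, Multiset.prod_add]

theorem Pf_ratio {s : Multiset ℂ} {z w : ℂ} {c : ℝ} (hc : 0 ≤ c) (h : ∀ ρ ∈ s, ‖z - ρ‖ ≤ c * ‖w - ρ‖) :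
    ‖Pf s z‖ ≤ c ^ (Multiset.card s) * ‖Pf s w‖ := by
  induction s using Multiset.induction_on with
  | empty => simp [Pf_zero]
  | cons ρ s ih =>
    rw [Pf_cons, Pf_cons, Multiset.card_cons, norm_mul, norm_mul]
    have h1 := h ρ (Multiset.mem_cons_self ρ s)
    have h2 := ih fun ρ' h' => h ρ' (Multiset.mem_cons_of_mem h')
    calc ‖z - ρ‖ * ‖Pf s z‖ ≤ (c * ‖w - ρ‖) * (c ^ (Multiset.card s) * ‖Pf s w‖) := by
          apply mul_le_mul h1 h2 (norm_nonneg _) (by positivity)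
      _ = _ := by ring

/-- factorisation near the centre -/
theorem fact {K : ℝ} (hK : 0 ≤ K) {f : ℂ → ℂ} (hf : Differentiable ℂ f) (h3 : f 3 = 1)
    (hb : ∀ z : ℂ, ‖z‖ ≤ 14 → ‖f z‖ ≤ Real.exp K) :
    ∃ (s : Multiset ℂ) (g : ℂ → ℂ), (∀ z, f z = Pf s z * g z) ∧ (∀ z ∈ closedBall (3 : ℂ) 6, g z ≠ 0) ∧
      (∀ z ∈ closedBall (3 : ℂ) 6, DifferentiableAt ℂ g z) ∧ (Multiset.card s : ℝ) ≤ 2 * K ∧
      ∀ z ∈ closedBall (3 : ℂ) 4, ‖logDeriv g z‖ ≤ 10 * (5 * K + 1) := by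
  have hlog6 : 0 < Real.log 6 := Real.log_pos (by norm_num)
  have hlog6' : Real.log 6 ≤ 2 := by
    rw [Real.log_le_iff_le_exp (by norm_num)]
    have h1 := Real.exp_one_gt_d9
    have h2 : Real.exp 2 = Real.exp 1 ^ 2 := by rw [← Real.exp_nat_mul]; norm_num
    rw [h2]
    nlinarith
  have hcb : ∀ z ∈ closedBall (3 : ℂ) 11, ‖z‖ ≤ 14 := by
    intro z hz
    rw [mem_closedBall, dist_eq_norm] at hz
    have h1 : ‖z‖ ≤ ‖z - 3‖ + ‖(3 : ℂ)‖ := by
      calc ‖z‖ = ‖(z - 3) + 3‖ := by congr 1; ring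
        _ ≤ _ := norm_add_le _ _
    have h2 : ‖(3 : ℂ)‖ = 3 := by simp
    linarith
  have hM : (1 : ℝ) ≤ Real.exp K := Real.one_le_exp hK
  have hfa : AnalyticOnNhd ℂ f (closedBall 3 11) := fun z _ => hf.analyticAt z
  obtain ⟨s, g, hs, hg, hfg, hg0, hcard⟩ := extract (r := 6) (R := 11) (by norm_num) (by norm_num) hM hfa
    (by rw [h3]; exact one_ne_zero) (fun z hz => hb z (hcb z hz))
  obtain ⟨n, hn⟩ : ∃ n : ℕ, n = Multiset.card s := ⟨_, rfl⟩
  rw [h3, norm_one, div_one, Real.log_exp, ← hn] at hcard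
  have hlog : (1 : ℝ) / 2 ≤ Real.log (11 / 6) := by
    rw [Real.le_log_iff_exp_le (by norm_num)]
    have h1 := Real.exp_one_lt_d9
    have h2 : Real.exp (1 / 2) ^ 2 = Real.exp 1 := by rw [← Real.exp_nat_mul]; norm_num
    nlinarith [Real.exp_pos (1 / 2)]
  have hnK : (n : ℝ) ≤ 2 * K := by
    refine hcard.trans ?_
    rw [div_le_iff₀ (by linarith)]
    nlinarith
  obtain ⟨B, hB⟩ : ∃ B : ℝ, B = K + n * Real.log 6 := ⟨_, rfl⟩
  have hn0 : (0 : ℝ) ≤ n := Nat.cast_nonneg _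
  have hB0 : 0 ≤ B := by rw [hB]; positivity
  have hB5 : B ≤ 5 * K := by
    rw [hB]
    have : (n : ℝ) * Real.log 6 ≤ (2 * K) * 2 := mul_le_mul hnK hlog6' hlog6.le (by linarith)
    linarith
  -- bounds for g
  have hgsphere : ∀ w ∈ sphere (3 : ℂ) 11, ‖g w‖ ≤ Real.exp K := by
    intro w hw
    have hwR := sphere_subset_closedBall hw
    have h1 : (1 : ℝ) ^ n ≤ ‖Pf s w‖ := by
      rw [hn]
      refine Pf_norm_ge zero_le_one fun ρ hρ => ?_
      have h2 := (hs ρ hρ).1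
      rw [mem_closedBall, dist_eq_norm] at h2
      rw [mem_sphere, dist_eq_norm] at hw
      have h3 : ‖w - 3‖ ≤ ‖w - ρ‖ + ‖ρ - 3‖ := by
        calc ‖w - 3‖ = ‖(w - ρ) + (ρ - 3)‖ := by congr 1; ring
          _ ≤ _ := norm_add_le _ _
      linarith
    rw [one_pow] at h1
    calc ‖g w‖ = ‖g w‖ * 1 := (mul_one _).symm
      _ ≤ ‖g w‖ * ‖Pf s w‖ := mul_le_mul_of_nonneg_left h1 (norm_nonneg _)
      _ = ‖f w‖ := by rw [hfg w, norm_mul, mul_comm]
      _ ≤ _ := hb w (hcb w hwR)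
  have hgball : ∀ w ∈ closedBall (3 : ℂ) 11, ‖g w‖ ≤ Real.exp K := by
    intro w hw
    refine Complex.norm_le_of_forall_mem_frontier_norm_le (U := ball (3 : ℂ) 11) isBounded_ball ?_ ?_ ?_
    · apply DifferentiableOn.diffContOnCl
      rw [closure_ball (3 : ℂ) (by norm_num)]
      exact fun x hx => (hg x hx).differentiableAt.differentiableWithinAt
    · intro x hx
      rw [frontier_ball (3 : ℂ) (by norm_num)] at hx
      exact hgsphere x hx
    · rwa [closure_ball (3 : ℂ) (by norm_num)]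
  have hgc : (1 / 6) ^ n ≤ ‖g 3‖ := by
    have h1 : ‖Pf s 3‖ ≤ 6 ^ n := by
      rw [hn]
      exact Pf_norm_le fun ρ hρ => by
        have h2 := (hs ρ hρ).1
        rw [mem_closedBall, dist_eq_norm, norm_sub_rev] at h2
        exact h2
    have h2 : 1 ≤ ‖g 3‖ * 6 ^ n := by
      calc (1 : ℝ) = ‖f 3‖ := by rw [h3, norm_one]
        _ = ‖g 3‖ * ‖Pf s 3‖ := by rw [hfg 3, norm_mul, mul_comm]
        _ ≤ ‖g 3‖ * 6 ^ n := mul_le_mul_of_nonneg_left h1 (norm_nonneg _)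
    rw [one_div, inv_pow]
    rw [inv_le_iff_one_le_mul₀ (by positivity)]
    exact h2
  have hgb : ∀ w ∈ closedBall (3 : ℂ) 6, ‖g w‖ ≤ Real.exp B * ‖g 3‖ := by
    intro w hw
    refine (hgball w (closedBall_subset_closedBall (by norm_num) hw)).trans ?_
    have h1 : Real.exp K = Real.exp K * (6 ^ n * (1 / 6) ^ n) := by
      rw [← mul_pow]; norm_num
    have h2 : Real.exp B = Real.exp K * 6 ^ n := by
      rw [hB, Real.exp_add, Real.exp_nat_mul, Real.exp_log (by norm_num)]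
    rw [h1, h2]
    calc Real.exp K * (6 ^ n * (1 / 6) ^ n) = Real.exp K * 6 ^ n * (1 / 6) ^ n := by ring
      _ ≤ Real.exp K * 6 ^ n * ‖g 3‖ := by
        apply mul_le_mul le_rfl hgc (by positivity) (by positivity)
  refine ⟨s, g, hfg, hg0, fun z hz => (hg z (closedBall_subset_closedBall (by norm_num) hz)).differentiableAt, ?_, ?_⟩
  · rw [← hn]; exact hnK
  · intro z hz
    have h1 := logDeriv_zero_free (r2 := 4) (r1 := 5) (r := 6) (by norm_num) (by norm_num) (by norm_num) hB0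
      (hg.mono (closedBall_subset_closedBall (by norm_num))) hg0 hgb hz
    refine h1.trans ?_
    norm_num
    linarith

/-- the local lemma -/
theorem locq : ∀ a η : ℝ, 1 ≤ a → η ≤ 1 →
    ∀ F : ℂ → ℂ, NN a η F → ∀ z0 : ℂ, F z0 = 0 → 0 < z0.re → z0.re ≤ 1 → |z0.im| ≤ 1 / 2 →
    ∀ y : ℝ, |y - z0.im| ≤ z0.re * Real.exp (-(2000 * a)) → ∃ x : ℝ, z0.re / 4 ≤ x ∧ x ≤ 3 * z0.re / 4 ∧
      ‖F (z0.re + y * I)‖ * Real.exp a < ‖F (x + y * I)‖ := by
  classical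
  intro a η ha hη F hN z0 hz0 hre0 hre1 him y hy
  have ha0 : 0 ≤ a := by linarith
  have h30 : F 3 ≠ 0 := (hN.far 3 (by simp; norm_num) (by simp; norm_num)).1
  have h3p : 0 < ‖F 3‖ := norm_pos_iff.2 h30
  have hbig := Pool.Agent.W32.SD.big ha0 hη hN
  obtain ⟨X, hX⟩ : ∃ X : ℝ, X = z0.re := ⟨_, rfl⟩
  rw [← hX] at hre0 hre1 hy ⊢
  obtain ⟨f, hf⟩ : ∃ f : ℂ → ℂ, f = fun z => F z / F 3 := ⟨_, rfl⟩
  have hfd : Differentiable ℂ f := by rw [hf]; exact hN.diff.div_const _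
  have hf3 : f 3 = 1 := by rw [hf]; exact div_self h30
  obtain ⟨s, g, hfg, hg0, hgd, hcard, hld⟩ := fact (K := 34 * a) (by linarith) hfd hf3 (by
    intro z hz
    rw [hf]
    simp only
    rw [norm_div, div_le_iff₀ h3p, mul_comm]
    exact hbig z hz)
  have him' := abs_le.1 him
  have hexp1 : Real.exp (-(2000 * a)) ≤ 1 / 2 := by
    have h1 : Real.exp (-(2000 * a)) ≤ Real.exp (-1) := Real.exp_le_exp.2 (by linarith)
    have h2 : Real.exp (-1) ≤ 1 / 2 := by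
      rw [Real.exp_neg, inv_le_comm₀ (Real.exp_pos _) (by norm_num)]
      have := Real.exp_one_gt_d9
      norm_num
      linarith
    linarith
  have hyX : |y - z0.im| ≤ X / 2 := by
    refine hy.trans ?_
    nlinarith
  have hy' := abs_le.1 hyX
  have hy1 : |y| ≤ 1 := by rw [abs_le]; constructor <;> linarith
  obtain ⟨w1, hw1⟩ : ∃ w : ℂ, w = X + y * I := ⟨_, rfl⟩
  have hw1re : w1.re = X := by rw [hw1]; simp
  have hw1im : w1.im = y := by rw [hw1]; simp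
  -- z0 is one of the zeros
  have hz0in : z0 ∈ closedBall (3 : ℂ) 6 := by
    rw [mem_closedBall, dist_eq_norm]
    have h1 := Complex.norm_le_abs_re_add_abs_im (z0 - 3)
    have h2 : (z0 - 3 : ℂ).re = z0.re - 3 := by simp
    have h3 : (z0 - 3 : ℂ).im = z0.im := by simp
    rw [h2, h3] at h1
    have h4 : |z0.re - 3| ≤ 3 := by rw [abs_le]; constructor <;> linarith
    linarith
  have hz0s : z0 ∈ s := by
    have h1 : f z0 = 0 := by rw [hf]; simp only; rw [hz0, zero_div]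
    rw [hfg] at h1
    rcases mul_eq_zero.1 h1 with h2 | h2
    · unfold Pf at h2
      rw [Multiset.prod_eq_zero_iff, Multiset.mem_map] at h2
      obtain ⟨ρ, hρ, h3⟩ := h2
      rw [sub_eq_zero] at h3
      rwa [h3]
    · exact absurd h2 (hg0 z0 hz0in)
  have hw1z0 : ‖w1 - z0‖ = |y - z0.im| := by
    have h1 : (w1 - z0 : ℂ) = ((y - z0.im : ℝ) : ℂ) * I := by
      apply Complex.ext
      · simp [hw1re, hX]
      · simp [hw1im]
    rw [h1, norm_mul, Complex.norm_I, mul_one, Complex.norm_real, Real.norm_eq_abs]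
  obtain ⟨sn, hsn⟩ : ∃ t : Multiset ℂ, t = s.filter (fun ρ => ‖w1 - ρ‖ < 2 * X) := ⟨_, rfl⟩
  obtain ⟨sf, hsf⟩ : ∃ t : Multiset ℂ, t = s.filter (fun ρ => ¬ ‖w1 - ρ‖ < 2 * X) := ⟨_, rfl⟩
  have hsplit : sn + sf = s := by rw [hsn, hsf]; exact Multiset.filter_add_not _ _
  have hz0n : z0 ∈ sn := by
    rw [hsn, Multiset.mem_filter]
    exact ⟨hz0s, by rw [hw1z0]; linarith⟩
  obtain ⟨x, hx1, hx2, hx3⟩ := cheb sn (X / 4) y (X / 2) (by linarith)
  refine ⟨x, hx1, by linarith, ?_⟩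
  obtain ⟨w0, hw0⟩ : ∃ w : ℂ, w = x + y * I := ⟨_, rfl⟩
  have hw0re : w0.re = x := by rw [hw0]; simp
  have hw0im : w0.im = y := by rw [hw0]; simp
  have hw10 : ‖w1 - w0‖ ≤ 3 * X / 4 := by
    have h1 : (w1 - w0 : ℂ) = ((X - x : ℝ) : ℂ) := by
      apply Complex.ext
      · simp [hw1re, hw0re]
      · simp [hw1im, hw0im]
    rw [h1, Complex.norm_real, Real.norm_eq_abs, abs_le]
    constructor <;> linarith
  rw [← hw0] at hx3 ⊢
  rw [← hw1]
  obtain ⟨n, hn⟩ : ∃ n : ℕ, n = Multiset.card s := ⟨_, rfl⟩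
  obtain ⟨n1, hn1⟩ : ∃ n : ℕ, n = Multiset.card sn := ⟨_, rfl⟩
  obtain ⟨n2, hn2⟩ : ∃ n : ℕ, n = Multiset.card sf := ⟨_, rfl⟩
  have hnn : n1 + n2 = n := by rw [hn1, hn2, hn, ← Multiset.card_add, hsplit]
  -- near zeros
  have hnear : ‖Pf sn w1‖ * X ≤ |y - z0.im| * 24 ^ n1 * ‖Pf sn w0‖ := by
    obtain ⟨t, ht⟩ : ∃ t : Multiset ℂ, t = sn.erase z0 := ⟨_, rfl⟩
    have h1 : sn = z0 ::ₘ t := by rw [ht]; exact (Multiset.cons_erase hz0n).symm
    have h2 : Multiset.card t + 1 = n1 := by rw [hn1, h1, Multiset.card_cons]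
    have h3 : ‖Pf t w1‖ ≤ (2 * X) ^ (Multiset.card t) := by
      refine Pf_norm_le fun ρ hρ => ?_
      have h4 : ρ ∈ sn := by rw [h1]; exact Multiset.mem_cons_of_mem hρ
      rw [hsn, Multiset.mem_filter] at h4
      exact h4.2.le
    have h5 : ‖Pf sn w1‖ = |y - z0.im| * ‖Pf t w1‖ := by
      rw [h1, Pf_cons, norm_mul, hw1z0]
    have h6 : ‖Pf t w1‖ * X ≤ (2 * X) ^ n1 := by
      rw [← h2, pow_succ]
      apply mul_le_mul h3 (by linarith) hre0.le (by positivity)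
    rw [← hn1] at hx3
    have h7 : (2 * X) ^ n1 = 24 ^ n1 * (X / 2 / 6) ^ n1 := by
      rw [← mul_pow]
      congr 1
      ring
    rw [h5]
    calc |y - z0.im| * ‖Pf t w1‖ * X = |y - z0.im| * (‖Pf t w1‖ * X) := by ring
      _ ≤ |y - z0.im| * (24 ^ n1 * (X / 2 / 6) ^ n1) := by
          apply mul_le_mul_of_nonneg_left _ (abs_nonneg _)
          rw [← h7]; exact h6
      _ ≤ |y - z0.im| * (24 ^ n1 * ‖Pf sn w0‖) := by gcongr
      _ = _ := by ring
  -- far zeros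
  have hfar1 : ∀ ρ ∈ sf, 5 * X / 4 ≤ ‖w0 - ρ‖ := by
    intro ρ hρ
    rw [hsf, Multiset.mem_filter] at hρ
    have h1 := not_lt.1 hρ.2
    have h2 : ‖w1 - ρ‖ ≤ ‖w1 - w0‖ + ‖w0 - ρ‖ := by
      calc ‖w1 - ρ‖ = ‖(w1 - w0) + (w0 - ρ)‖ := by congr 1; ring
        _ ≤ _ := norm_add_le _ _
    linarith
  have hfar : ‖Pf sf w1‖ ≤ 2 ^ n2 * ‖Pf sf w0‖ := by
    rw [hn2]
    refine Pf_ratio (by norm_num) fun ρ hρ => ?_
    have h1 := hfar1 ρ hρ
    have h2 : ‖w1 - ρ‖ ≤ ‖w1 - w0‖ + ‖w0 - ρ‖ := by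
      calc ‖w1 - ρ‖ = ‖(w1 - w0) + (w0 - ρ)‖ := by congr 1; ring
        _ ≤ _ := norm_add_le _ _
    linarith
  -- the zero free factor
  have hin : ∀ w : ℂ, 0 ≤ w.re → w.re ≤ 1 → w.im = y → w ∈ closedBall (3 : ℂ) 4 := by
    intro w h1 h2 h3
    rw [mem_closedBall, dist_eq_norm]
    have h4 := Complex.norm_le_abs_re_add_abs_im (w - 3)
    have h5 : (w - 3 : ℂ).re = w.re - 3 := by simp
    have h6 : (w - 3 : ℂ).im = y := by simp [h3]
    rw [h5, h6] at h4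
    have h7 : |w.re - 3| ≤ 3 := by rw [abs_le]; constructor <;> linarith
    linarith
  have h0in := hin w0 (by rw [hw0re]; linarith) (by rw [hw0re]; linarith) hw0im
  have h1in := hin w1 (by rw [hw1re]; linarith) (by rw [hw1re]; linarith) hw1im
  have hsub : closedBall (3 : ℂ) 4 ⊆ closedBall (3 : ℂ) 6 := closedBall_subset_closedBall (by norm_num)
  have hgr := path_grow (g := g) (Q := 10 * (5 * (34 * a) + 1)) (convex_closedBall (3 : ℂ) 4)
    (fun z hz => hgd z (hsub hz)) (fun z hz => hg0 z (hsub hz)) hld h0in h1in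
  have hgr2 : ‖g w1‖ ≤ ‖g w0‖ * Real.exp (1710 * a) := by
    refine hgr.trans (mul_le_mul_of_nonneg_left (Real.exp_le_exp.2 ?_) (norm_nonneg _))
    calc 10 * (5 * (34 * a) + 1) * ‖w1 - w0‖ ≤ 10 * (5 * (34 * a) + 1) * 1 := by
          apply mul_le_mul_of_nonneg_left _ (by linarith)
          linarith
      _ ≤ 1710 * a := by linarith
  -- assemble
  have hpos : 0 < ‖f w0‖ := by
    rw [hfg, norm_mul]
    apply mul_pos _ (norm_pos_iff.2 (hg0 w0 (hsub h0in)))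
    rw [← hsplit, Pf_add, norm_mul]
    apply mul_pos
    · exact lt_of_lt_of_le (by positivity) hx3
    · exact lt_of_lt_of_le (by positivity) (Pf_norm_ge (by positivity) hfar1)
  have h48 : (24 : ℝ) ^ n1 * 2 ^ n2 ≤ Real.exp (272 * a) := by
    have h1 : (24 : ℝ) ^ n1 * 2 ^ n2 ≤ 24 ^ n1 * 24 ^ n2 := by gcongr; norm_num
    have h2 : (24 : ℝ) ^ n1 * 24 ^ n2 = 24 ^ n := by rw [← pow_add, hnn]
    have h3 : (24 : ℝ) ≤ Real.exp 4 := by
      have h4 := Real.exp_one_gt_d9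
      have h5 : Real.exp 4 = Real.exp 1 ^ 4 := by rw [← Real.exp_nat_mul]; norm_num
      rw [h5]
      calc (24 : ℝ) ≤ 2.7 ^ 4 := by norm_num
        _ ≤ Real.exp 1 ^ 4 := pow_le_pow_left₀ (by norm_num) (by linarith) 4
    have h4 : (24 : ℝ) ^ n ≤ Real.exp 4 ^ n := pow_le_pow_left₀ (by norm_num) h3 n
    have h5 : Real.exp 4 ^ n = Real.exp (n * 4) := by rw [← Real.exp_nat_mul]
    have h6 : Real.exp ((n : ℝ) * 4) ≤ Real.exp (272 * a) := by
      apply Real.exp_le_exp.2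
      rw [← hn] at hcard
      linarith
    linarith
  have hkey : ‖f w1‖ * X ≤ |y - z0.im| * Real.exp (1982 * a) * ‖f w0‖ := by
    rw [hfg w1, hfg w0, norm_mul, norm_mul, ← hsplit, Pf_add, Pf_add, norm_mul, norm_mul]
    calc ‖Pf sn w1‖ * ‖Pf sf w1‖ * ‖g w1‖ * X = (‖Pf sn w1‖ * X) * (‖Pf sf w1‖ * ‖g w1‖) := by ring
      _ ≤ (|y - z0.im| * 24 ^ n1 * ‖Pf sn w0‖) * ((2 ^ n2 * ‖Pf sf w0‖) * (‖g w0‖ * Real.exp (1710 * a))) := by
          apply mul_le_mul hnear _ (by positivity) (by positivity)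
          exact mul_le_mul hfar hgr2 (norm_nonneg _) (by positivity)
      _ = (|y - z0.im| * (‖Pf sn w0‖ * ‖Pf sf w0‖ * ‖g w0‖)) * ((24 ^ n1 * 2 ^ n2) * Real.exp (1710 * a)) := by ring
      _ ≤ (|y - z0.im| * (‖Pf sn w0‖ * ‖Pf sf w0‖ * ‖g w0‖)) * (Real.exp (272 * a) * Real.exp (1710 * a)) := by
          gcongr
      _ = _ := by
          rw [← Real.exp_add]
          have : 272 * a + 1710 * a = 1982 * a := by ring
          rw [this]
          ring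
  have hfin : ‖f w1‖ * Real.exp a < ‖f w0‖ := by
    have h1 : ‖f w1‖ * X * Real.exp a ≤ (X * Real.exp (-(2000 * a))) * Real.exp (1982 * a) * ‖f w0‖ * Real.exp a := by
      apply mul_le_mul_of_nonneg_right _ (Real.exp_pos a).le
      refine hkey.trans ?_
      gcongr
    have h2 : (X * Real.exp (-(2000 * a))) * Real.exp (1982 * a) * ‖f w0‖ * Real.exp a =
        X * (Real.exp (-(17 * a)) * ‖f w0‖) := by
      have h3 : Real.exp (-(2000 * a)) * Real.exp (1982 * a) * Real.exp a = Real.exp (-(17 * a)) := by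
        rw [← Real.exp_add, ← Real.exp_add]
        congr 1
        ring
      rw [← h3]
      ring
    rw [h2] at h1
    have h3 : ‖f w1‖ * Real.exp a ≤ Real.exp (-(17 * a)) * ‖f w0‖ := by
      have h4 : X * (‖f w1‖ * Real.exp a) ≤ X * (Real.exp (-(17 * a)) * ‖f w0‖) := by linarith
      exact le_of_mul_le_mul_left h4 hre0
    have h4 : Real.exp (-(17 * a)) < 1 := by rw [Real.exp_lt_one_iff]; linarith
    have h5 : Real.exp (-(17 * a)) * ‖f w0‖ < 1 * ‖f w0‖ := mul_lt_mul_of_pos_right h4 hpos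
    linarith
  have e1 : ∀ w, ‖f w‖ = ‖F w‖ / ‖F 3‖ := by
    intro w
    rw [hf]
    simp only
    rw [norm_div]
  rw [e1, e1, div_mul_eq_mul_div, div_lt_div_iff_of_pos_right h3p] at hfin
  exact hfin

end Pool.Agent.Zk5.HR
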