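import Pool.Agent.Zk5.HR.Locq
import Pool.Agent.Zk5.HR.Low

set_option autoImplicit false

/-! # The lower bound for the measure of the bad heights, uniformly in the scale -/

namespace Pool.Agent.Zk5.HR

open Complex Filter Topology MeasureTheory Set
open Pool.Agent.H24R2.JP (XX)
open Pool.Agent.H24R2.DZ
open Pool.Agent.W571.SD
open Pool.Agent.TH850.UR

/-- a zero near a good height -/
theorem nearq {η T ε T0 : ℝ} {n : ℕ} {B : Set ℝ} {s : ℂ} (hη : η ≤ 1) (hn : 1 ≤ n) (hT : 2 ≤ T)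
    (hL : (n : ℝ) ≤ Real.log T / 400) (hε : 0 < ε) (hε1 : ε ≤ 1)
    (hB : ∀ t : ℝ, T0 ≤ t → ∀ u1 u2 q : ℝ, 0 ≤ u2 → u2 < u1 → u1 ≤ 1 →
      0 ≤ q → Real.log t * (u1 - u2) ≤ q → ‖XX (I * t + u1)‖ * Real.exp q < ‖XX (I * t + u2)‖ → t ∈ B)
    (hT0 : 2 * T0 ≤ T)
    (hs : XX s = 0) (hre : ε / Real.log T ≤ |s.re|) (him1 : T < s.im) (him2 : s.im ≤ 2 * T)
    (hG : GJ η T n 0 s.im) (hre2 : |s.re| < ra T n / 1000) :
    Icc (s.im - ε / Real.log T * Real.exp (-(2000 * n))) (s.im + ε / Real.log T * Real.exp (-(2000 * n))) ⊆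
      B ∩ Icc (T / 2) (3 * T) := by
  intro t ht
  have hn1 : (1 : ℝ) ≤ n := by exact_mod_cast hn
  obtain ⟨L, hLd⟩ : ∃ L : ℝ, L = Real.log T := ⟨_, rfl⟩
  rw [← hLd] at hL hre ht
  have hL400 : 400 ≤ L := by linarith
  have hL0 : 0 < L := by linarith
  obtain ⟨r, hr⟩ : ∃ r : ℝ, r = ra T n := ⟨_, rfl⟩
  have hrn : r = 2 * n / L := by rw [hr, hLd]; exact ra_eq _ _
  have hr0 : 0 < r := by rw [hrn]; positivity
  have hr1 : r ≤ 1 / 200 := by rw [hrn, div_le_iff₀ hL0]; linarith
  obtain ⟨t', ht', hN⟩ := hG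
  rw [pow_zero, one_mul, ← hr] at ht' hN
  rw [← hr] at hre2
  obtain ⟨δ, hδ⟩ : ∃ δ : ℝ, δ = ε / L * Real.exp (-(2000 * n)) := ⟨_, rfl⟩
  rw [← hδ] at ht
  have hexp : Real.exp (-(2000 * (n : ℝ))) ≤ 1 / 100 := by
    have h1 : Real.exp (-(2000 * (n : ℝ))) ≤ Real.exp (-100) := Real.exp_le_exp.2 (by linarith)
    have h2 : Real.exp (-100) ≤ 1 / 100 := by
      rw [Real.exp_neg, inv_le_comm₀ (Real.exp_pos _) (by norm_num)]
      have := Real.add_one_le_exp (100 : ℝ)
      norm_num
      linarith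
    linarith
  have hεL : ε / L ≤ r := by
    rw [hrn]
    gcongr
    linarith
  have hεL0 : 0 < ε / L := by positivity
  have hδr : δ ≤ r / 100 := by
    rw [hδ]
    calc ε / L * Real.exp (-(2000 * n)) ≤ r * (1 / 100) := by
          apply mul_le_mul hεL hexp (Real.exp_pos _).le hr0.le
      _ = r / 100 := by ring
  have htL : Real.log t ≤ 2 * L := by
    have h1 : Real.log t ≤ Real.log (3 * T) := Real.log_le_log (by linarith [ht.1]) (by linarith [ht.2])
    rw [Real.log_mul (by norm_num) (by linarith), ← hLd] at h1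
    have h2 : Real.log 3 ≤ 2 := by
      have := Real.log_le_sub_one_of_pos (show (0 : ℝ) < 3 by norm_num)
      linarith
    linarith
  refine ⟨?_, by constructor <;> linarith [ht.1, ht.2]⟩
  obtain ⟨X, hX⟩ : ∃ X : ℝ, X = |s.re| / r := ⟨_, rfl⟩
  have hXr : r * X = |s.re| := by rw [hX]; field_simp
  have hX1 : X ≤ 1 / 1000 := by
    rw [hX, div_le_iff₀ hr0]; linarith
  have hXp : 0 < X := by
    rw [hX]
    exact div_pos (lt_of_lt_of_le hεL0 hre) hr0
  obtain ⟨y0, hy0⟩ : ∃ y0 : ℝ, y0 = (s.im - t') / r := ⟨_, rfl⟩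
  have hy0r : r * y0 = s.im - t' := by rw [hy0]; field_simp
  have hy01 : |y0| ≤ 1 / 100 := by
    rw [hy0, abs_div, abs_of_pos hr0, div_le_iff₀ hr0]; linarith
  obtain ⟨F, hF⟩ : ∃ F : ℂ → ℂ, F = fun z => XX (I * t' + r * z) := ⟨_, rfl⟩
  rw [← hF] at hN
  -- the zero
  have hz0 : F ⟨X, y0⟩ = 0 := by
    rcases le_or_gt 0 s.re with h0 | h0
    · have e : (I * (t' : ℂ) + (r : ℂ) * (⟨X, y0⟩ : ℂ)) = s := by
        apply Complex.ext
        · simp only [add_re, mul_re, I_re, ofReal_re, I_im, ofReal_im]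
          rw [abs_of_nonneg h0] at hXr
          linarith
        · simp only [add_im, mul_im, I_re, ofReal_re, I_im, ofReal_im]
          linarith
      rw [hF]
      simp only
      rw [e, hs]
    · have e : (I * (t' : ℂ) + (r : ℂ) * (-((starRingEnd ℂ) ⟨X, y0⟩))) = s := by
        apply Complex.ext
        · simp only [add_re, mul_re, I_re, ofReal_re, I_im, ofReal_im, neg_re, neg_im, conj_re, conj_im]
          rw [abs_of_neg h0] at hXr
          linarith
        · simp only [add_im, mul_im, I_re, ofReal_re, I_im, ofReal_im, neg_re, neg_im, conj_re, conj_im]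
          linarith
      have h1 := hN.symm ⟨X, y0⟩
      rw [hF] at h1
      simp only at h1
      rw [e, hs] at h1
      have h2 := congrArg (starRingEnd ℂ) h1
      rw [Complex.conj_conj, map_zero] at h2
      rw [hF]
      exact h2.symm
  obtain ⟨y, hy⟩ : ∃ y : ℝ, y = (t - t') / r := ⟨_, rfl⟩
  have hyr : r * y = t - t' := by rw [hy]; field_simp
  have hyy : |y - y0| ≤ X * Real.exp (-(2000 * n)) := by
    have h1 : y - y0 = (t - s.im) / r := by rw [hy, hy0]; field_simp; ring
    rw [h1, abs_div, abs_of_pos hr0, div_le_iff₀ hr0]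
    have h2 : |t - s.im| ≤ δ := by
      rw [abs_le]
      constructor <;> linarith [ht.1, ht.2]
    refine h2.trans ?_
    rw [hδ]
    calc ε / L * Real.exp (-(2000 * n)) ≤ |s.re| * Real.exp (-(2000 * n)) := by gcongr
      _ = X * Real.exp (-(2000 * n)) * r := by rw [← hXr]; ring
  obtain ⟨x, hx1, hx2, hx3⟩ := locq n η hn1 hη F hN ⟨X, y0⟩ hz0 (by show 0 < X; exact hXp) (by show X ≤ 1; linarith)
    (by show |y0| ≤ 1 / 2; linarith) y hyy
  simp only at hx1 hx2 hx3
  have hpt : ∀ v : ℝ, F (v + y * I) = XX (I * t + ((r * v : ℝ) : ℂ)) := by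
    intro v
    rw [hF]
    simp only
    congr 1
    apply Complex.ext
    · simp
    · simp
      linarith
  rw [hpt, hpt] at hx3
  refine hB t (by linarith [ht.1]) (r * X) (r * x) n (mul_nonneg hr0.le (by linarith)) ?_ ?_ (by positivity) ?_ hx3
  · apply mul_lt_mul_of_pos_left _ hr0
    linarith
  · nlinarith
  · have h1 : 0 ≤ r * X - r * x := by
      have : r * x ≤ r * X := mul_le_mul_of_nonneg_left (by linarith) hr0.le
      linarith
    have h2 : r * X - r * x ≤ r / 1000 := by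
      have h3 : 0 ≤ r * x := by
        apply mul_nonneg hr0.le
        linarith
      have h4 : r * X ≤ r * (1 / 1000) := mul_le_mul_of_nonneg_left hX1 hr0.le
      linarith
    calc Real.log t * (r * X - r * x) ≤ (2 * L) * (r / 1000) := by
          apply mul_le_mul htL h2 h1 (by linarith)
      _ = 4 * n / 1000 := by rw [hrn]; field_simp; ring
      _ ≤ n := by linarith

/-- the lower bound for the measure -/
theorem lowq {B : Set ℝ} (hB : Det B) :
    ∃ (c C T0 : ℝ) (n0 : ℕ), 0 < c ∧ c ≤ 1 ∧ 1 ≤ C ∧ 2 ≤ T0 ∧ 1 ≤ n0 ∧ ∀ (T V ε : ℝ) (n : ℕ), T0 ≤ T → 0 ≤ V →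
    0 < ε → ε ≤ 1 → n0 ≤ n → (n : ℝ) ≤ Real.log T / 400 →
    volume (B ∩ Icc (T / 2) (3 * T)) ≤ ENNReal.ofReal V → ∀ S : Finset ℂ,
    (∀ s ∈ S, XX s = 0 ∧ ε / Real.log T ≤ |s.re| ∧ T < s.im ∧ s.im ≤ 2 * T) →
    ∑ s ∈ S, wt 0 s ≤ C * T * Real.exp (-(c * n)) * Real.log T + C * Real.exp (C * n) / ε * Real.log T * V := by
  classical
  obtain ⟨TB, hB⟩ := hB
  obtain ⟨η, hη, hη2, ⟨C4, hC4, hcount⟩, c, C, T1, n0, hc, hC, hT1, hcnt⟩ := cnt0
  refine ⟨min c 1, max C (max C4 2001), max T1 (2 * TB), max n0 1, lt_min hc one_pos, min_le_right _ _,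
    le_trans (by norm_num) ((le_max_right _ _).trans (le_max_right _ _)), hT1.trans (le_max_left _ _), le_max_right _ _, ?_⟩
  intro T V ε n hT hV hε hε1 hn hLn hvol S hS
  have hn0 : n0 ≤ n := (le_max_left _ _).trans hn
  have hn1 : 1 ≤ n := (le_max_right _ _).trans hn
  have hn1' : (1 : ℝ) ≤ n := by exact_mod_cast hn1
  have hTT1 : T1 ≤ T := (le_max_left _ _).trans hT
  have hTTB : 2 * TB ≤ T := (le_max_right _ _).trans hT
  have hT2 : 2 ≤ T := hT1.trans hTT1
  have hL0 : 0 < Real.log T := by linarith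
  have hrn : ra T n = 2 * n / Real.log T := ra_eq _ _
  have hr0 : 0 < ra T n := by rw [hrn]; positivity
  obtain ⟨M, hM⟩ : ∃ M : ℝ, M = max C (max C4 2001) := ⟨_, rfl⟩
  have hM1 : C ≤ M := by rw [hM]; exact le_max_left _ _
  have hM2 : C4 ≤ M := by rw [hM]; exact (le_max_left _ _).trans (le_max_right _ _)
  have hM3 : 2001 ≤ M := by rw [hM]; exact (le_max_right _ _).trans (le_max_right _ _)
  rw [← hM]
  obtain ⟨p, hp⟩ : ∃ p : ℂ → Prop, p = fun s => GJ η T n 0 s.im ∧ |s.re| < ra T n / 1000 := ⟨_, rfl⟩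
  have h1 : ∑ s ∈ S.filter (fun s => ¬ p s), wt 0 s ≤ M * T * Real.exp (-(min c 1 * n)) * Real.log T := by
    refine (hcnt T n hTT1 hn0 hLn (S.filter (fun s => ¬ p s)) ?_).trans ?_
    · intro s hs
      rw [Finset.mem_filter, hp] at hs
      obtain ⟨h2, h3⟩ := hs
      obtain ⟨h4, -, h5, h6⟩ := hS s h2
      refine ⟨h4, fun h7 => ?_, h5, h6⟩
      by_contra h8
      push Not at h8
      exact h3 ⟨h7, h8⟩
    · have h5 : Real.exp (-(c * n)) ≤ Real.exp (-(min c 1 * n)) := by
        apply Real.exp_le_exp.2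
        have := min_le_left c 1
        nlinarith
      gcongr
  have h2 : ∑ s ∈ S.filter p, wt 0 s ≤ M * Real.exp (M * n) / ε * Real.log T * V := by
    obtain ⟨δ, hδd⟩ : ∃ δ : ℝ, δ = ε / Real.log T * Real.exp (-(2000 * n)) := ⟨_, rfl⟩
    have hδ : 0 < δ := by rw [hδd]; positivity
    have hδr : δ ≤ ra T n / 100 := by
      have hexp : Real.exp (-(2000 * (n : ℝ))) ≤ 1 / 100 := by
        have h1 : Real.exp (-(2000 * (n : ℝ))) ≤ Real.exp (-100) := Real.exp_le_exp.2 (by linarith)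
        have h2 : Real.exp (-100) ≤ 1 / 100 := by
          rw [Real.exp_neg, inv_le_comm₀ (Real.exp_pos _) (by norm_num)]
          have := Real.add_one_le_exp (100 : ℝ)
          norm_num
          linarith
        linarith
      rw [hδd]
      calc ε / Real.log T * Real.exp (-(2000 * n)) ≤ ra T n * (1 / 100) := by
            apply mul_le_mul _ hexp (Real.exp_pos _).le hr0.le
            rw [hrn]
            gcongr
            linarith
        _ = ra T n / 100 := by ring
    have h10 := cover (wt 0) (wt_nonneg 0) (fun s => s.im) δ (C4 * n) hδ (by positivity)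
      (S.filter p) (B ∩ Icc (T / 2) (3 * T)) V hV
      (by
        intro s hs
        rw [Finset.mem_filter, hp] at hs
        obtain ⟨h3, h4, h5⟩ := hs
        obtain ⟨h6, h7, h8, h9⟩ := hS s h3
        rw [hδd]
        exact nearq (by linarith) hn1 hT2 hLn hε hε1 hB hTTB h6 h7 h8 h9 h4 h5)
      hvol
      (by
        intro s0 hs0
        rw [Finset.mem_filter, hp] at hs0
        obtain ⟨hs0S, ⟨t', ht1, ht2⟩, -⟩ := hs0
        rw [pow_zero, one_mul] at ht1 ht2
        refine hcount n (ra T n) t' 0 XX hn1' (by push_cast; linarith) hr0 XX_diff ht2 _ ?_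
        intro s hs
        rw [Finset.mem_filter, Finset.mem_filter, hp] at hs
        obtain ⟨⟨hsS, -, hre⟩, him⟩ := hs
        refine ⟨?_, by rw [iteratedDeriv_zero]; exact (hS s hsS).1⟩
        have h12 : (s - I * t').re = s.re := by simp
        have h13 : (s - I * t').im = s.im - t' := by simp
        have h14 := Complex.norm_le_abs_re_add_abs_im (s - I * t')
        rw [h12, h13] at h14
        have h15 : |s.im - t'| ≤ |s.im - s0.im| + |s0.im - t'| := abs_sub_le _ _ _
        linarith)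
    refine h10.trans ?_
    have e1 : C4 * n / (2 * δ) * V = C4 / 2 * n * Real.exp (2000 * n) / ε * Real.log T * V := by
      rw [hδd, Real.exp_neg]
      field_simp
    have h16 : C4 / 2 * n * Real.exp (2000 * n) ≤ M * Real.exp (M * n) := by
      have h17 : (n : ℝ) ≤ Real.exp n := by
        have := Real.add_one_le_exp (n : ℝ)
        linarith
      calc C4 / 2 * n * Real.exp (2000 * n) ≤ M * Real.exp n * Real.exp (2000 * n) := by
            gcongr
            linarith
        _ = M * Real.exp (2001 * n) := by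
            rw [mul_assoc, ← Real.exp_add]
            congr 2
            ring
        _ ≤ M * Real.exp (M * n) := by gcongr
    calc C4 * n * V / (2 * δ) = C4 * n / (2 * δ) * V := by ring
      _ = C4 / 2 * n * Real.exp (2000 * n) / ε * Real.log T * V := e1
      _ ≤ M * Real.exp (M * n) / ε * Real.log T * V := by gcongr
  rw [← Finset.sum_filter_add_sum_filter_not S p]
  linarith

end Pool.Agent.Zk5.HR
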