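import Pool.Agent.Zk5.HR.DetZ
import Pool.Agent.TH850.UR.ExpMom

set_option autoImplicit false

/-! # If almost all heights are good then almost all zeros are near the line -/

namespace Pool.Agent.Zk5.HR

open Complex Filter Topology MeasureTheory Set
open Pool.Agent.H24R2.JP (XX)
open Pool.Agent.Zk4
open H370 (Zf mult good_zeta)
open Pool.Agent.W571.SD (wt wt_nonneg)

theorem zf_add (f : ℂ → ℝ) {a b c : ℝ} (h : 1 ≤ a) (hab : a ≤ b) (hbc : b ≤ c) :
    ∑ s ∈ Zf riemannZeta a c, f s = ∑ s ∈ Zf riemannZeta a b, f s + ∑ s ∈ Zf riemannZeta b c, f s := by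
  classical
  rw [← Finset.sum_union]
  · refine Finset.sum_congr ?_ fun _ _ => rfl
    ext s
    rw [Finset.mem_union, H370.mem_Zf good_zeta h, H370.mem_Zf good_zeta h, H370.mem_Zf good_zeta (h.trans hab)]
    constructor
    · rintro ⟨h1, h2, h3, h4, h5⟩
      by_cases h : s.im ≤ b
      · exact Or.inl ⟨h1, h2, h3, h, h5⟩
      · push Not at h
        exact Or.inr ⟨h1, h2, h, h4, h5⟩
    · rintro (⟨h1, h2, h3, h4, h5⟩ | ⟨h1, h2, h3, h4, h5⟩)
      · exact ⟨h1, h2, h3, h4.trans hbc, h5⟩
      · exact ⟨h1, h2, hab.trans_lt h3, h4, h5⟩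
  · rw [Finset.disjoint_left]
    intro s hs hs'
    rw [H370.mem_Zf good_zeta h] at hs
    rw [H370.mem_Zf good_zeta (h.trans hab)] at hs'
    exact absurd hs.2.2.2.1 (not_le.2 hs'.2.2.1)

/-- dyadic summation up to a bound -/
theorem dyadic2 {f : ℝ → ℝ} {κ T0 T C : ℝ} (hκ : 0 ≤ κ) (hT0 : 0 < T0) (hf : ∀ X, 0 ≤ f X) (hC : 0 ≤ C)
    (h1 : ∀ X, T0 ≤ X → X ≤ 2 * T0 → X ≤ T → f X ≤ C)
    (h2 : ∀ X, 2 * T0 ≤ X → X ≤ T → f X ≤ f (X / 2) + κ * (X / 2)) :
    ∀ X, T0 ≤ X → X ≤ T → f X ≤ C + κ * X := by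
  classical
  intro X hX hXT
  have h := dyadic_sum (f := fun X => if X ≤ T then f X else 0) (κ := κ) (T0 := T0) (C := C) hκ hT0
    (fun X h3 h4 => by
      try simp only
      split_ifs with h5
      · exact h1 X h3 h4 h5
      · exact hC)
    (fun X h3 => by
      have h4 : 0 < X := by linarith
      try simp only
      split_ifs with h5 h6 h6
      · exact h2 X h3 h5
      · exact absurd (by linarith : X / 2 ≤ T) h6
      · have := hf (X / 2)
        positivity
      · positivity) X hX
  try simp only at h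
  rwa [if_pos hXT] at h

/-- the crude bound for the number of zeros -/
theorem crude : ∃ C T0 : ℝ, 0 < C ∧ 2 ≤ T0 ∧ ∀ T : ℝ, T0 ≤ T →
    ∑ s ∈ Zf riemannZeta 1 T, (mult riemannZeta s : ℝ) ≤ C * T * Real.log T := by
  obtain ⟨κ, C, T0, hκ, hκ1, hC, hT0, h⟩ := Pool.Agent.TH850.UR.expmom
  obtain ⟨N0, hN0⟩ : ∃ N0 : ℝ, N0 = ∑ s ∈ Zf riemannZeta 1 (2 * T0), (mult riemannZeta s : ℝ) := ⟨_, rfl⟩
  have hN0n : 0 ≤ N0 := by
    rw [hN0]
    exact Finset.sum_nonneg fun s _ => Nat.cast_nonneg _
  refine ⟨C + N0, T0, by linarith, by linarith, ?_⟩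
  intro T hT
  have hlog : 1 ≤ Real.log T := by
    rw [Real.le_log_iff_exp_le (by linarith)]
    have := Real.exp_one_lt_d9
    linarith
  have h3 := dyadic2 (f := fun X => ∑ s ∈ Zf riemannZeta 1 X, (mult riemannZeta s : ℝ)) (κ := C * Real.log T)
    (T0 := T0) (T := T) (C := N0) (by positivity) (by linarith)
    (fun X => Finset.sum_nonneg fun s _ => Nat.cast_nonneg _) hN0n
    (fun X h1 h2 _ => by
      have h4 := zf_add (fun s => (mult riemannZeta s : ℝ)) (a := 1) (b := X) (c := 2 * T0) le_rfl (by linarith) h2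
      have h5 : 0 ≤ ∑ s ∈ Zf riemannZeta X (2 * T0), (mult riemannZeta s : ℝ) :=
        Finset.sum_nonneg fun s _ => Nat.cast_nonneg _
      try simp only at h4 ⊢
      rw [hN0]
      linarith)
    (fun X h1 h2 => by
      have h4 := zf_add (fun s => (mult riemannZeta s : ℝ)) (a := 1) (b := X / 2) (c := X) le_rfl (by linarith) (by linarith)
      have h5 := h (X / 2) (by linarith)
      have e : 2 * (X / 2) = X := by ring
      rw [e] at h5
      have h6 : ∑ s ∈ Zf riemannZeta (X / 2) X, (mult riemannZeta s : ℝ) ≤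
          ∑ s ∈ Zf riemannZeta (X / 2) X, (mult riemannZeta s : ℝ) * Pool.Agent.TH850.UR.ew κ (Real.log (X / 2)) s := by
        refine Finset.sum_le_sum fun s _ => ?_
        have h7 : 1 ≤ Pool.Agent.TH850.UR.ew κ (Real.log (X / 2)) s := by
          unfold Pool.Agent.TH850.UR.ew
          apply Real.one_le_exp
          have h8 : 0 ≤ Real.log (X / 2) := Real.log_nonneg (by linarith)
          positivity
        nlinarith [Nat.cast_nonneg (α := ℝ) (mult riemannZeta s)]
      have h8 : Real.log (X / 2) ≤ Real.log T := Real.log_le_log (by linarith) (by linarith)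
      have h9 : C * (X / 2) * Real.log (X / 2) ≤ C * (X / 2) * Real.log T := by
        apply mul_le_mul_of_nonneg_left h8
        apply mul_nonneg hC.le
        linarith
      try simp only at h4 ⊢
      rw [h4]
      linarith) T hT le_rfl
  try simp only at h3
  have h4 : N0 ≤ N0 * T * Real.log T := by
    have : 1 ≤ T * Real.log T := by nlinarith
    nlinarith
  linarith

/-- a block -/
theorem block {B : Set ℝ} (hB : Det B) (ε κ : ℝ) (hε : 0 < ε) (hκ : 0 < κ) (hS : SmallM B) :
    ∃ T0 : ℝ, 2 ≤ T0 ∧ ∀ T : ℝ, T0 ≤ T →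
    ∑ s ∈ (Zf riemannZeta T (2 * T)).filter (fun s => ε / Real.log T ≤ |s.re - 1 / 2|), (mult riemannZeta s : ℝ)
      ≤ κ * T * Real.log T := by
  classical
  obtain ⟨C, T0, hC, hT0, h⟩ := low hB ε (κ / 2) hε (by positivity)
  obtain ⟨T1, hT1⟩ := hS (κ / (6 * C)) (by positivity)
  refine ⟨max T0 (max T1 2), hT0.trans (le_max_left _ _), ?_⟩
  intro T hT
  have a0 : T0 ≤ T := (le_max_left _ _).trans hT
  have a1 : T1 ≤ T := ((le_max_left _ _).trans (le_max_right _ _)).trans hT
  have a2 : 2 ≤ T := ((le_max_right _ _).trans (le_max_right _ _)).trans hT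
  have hV := hT1 (3 * T) (by linarith)
  have hV2 : volume (B ∩ Icc (T / 2) (3 * T)) ≤ ENNReal.ofReal (κ / (6 * C) * (3 * T)) := by
    refine (measure_mono ?_).trans hV
    exact inter_subset_inter_right _ (Icc_subset_Icc_left (by linarith))
  have h1 := h T (κ / (6 * C) * (3 * T)) a0 (by positivity) hV2
    (((Zf riemannZeta T (2 * T)).filter (fun s => ε / Real.log T ≤ |s.re - 1 / 2|)).image (fun s => s - 1 / 2)) (by
      intro s hs
      rw [Finset.mem_image] at hs
      obtain ⟨w, hw, rfl⟩ := hs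
      rw [Finset.mem_filter, H370.mem_Zf good_zeta (by linarith)] at hw
      obtain ⟨⟨h2, h3, h4, h5, h6⟩, h7⟩ := hw
      have e1 : (w - 1 / 2 : ℂ).re = w.re - 1 / 2 := by simp
      have e2 : (w - 1 / 2 : ℂ).im = w.im := by simp
      rw [e1, e2]
      exact ⟨Pool.Agent.TH850.UR.XX_zero (by linarith) h2 h6, h7, h4, h5⟩)
  rw [Finset.sum_image (fun a _ b _ hab => by simpa using hab)] at h1
  have h2 : ∑ s ∈ (Zf riemannZeta T (2 * T)).filter (fun s => ε / Real.log T ≤ |s.re - 1 / 2|), (mult riemannZeta s : ℝ) =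
      ∑ s ∈ (Zf riemannZeta T (2 * T)).filter (fun s => ε / Real.log T ≤ |s.re - 1 / 2|), wt 0 (s - 1 / 2) := by
    refine Finset.sum_congr rfl fun s hs => ?_
    rw [Finset.mem_filter, H370.mem_Zf good_zeta (by linarith)] at hs
    obtain ⟨⟨h2, h3, h4, h5, h6⟩, h7⟩ := hs
    unfold mult wt
    rw [iteratedDeriv_zero, Pool.Agent.TH850.UR.order_eq (by linarith) h2]
  rw [h2]
  refine h1.trans (le_of_eq ?_)
  field_simp
  ring

/-- almost all heights good implies almost all zeros near the line -/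
theorem near_of_small {B : Set ℝ} (hB : Det B) (hS : SmallM B) : Near := by
  intro ε κ hε hκ
  obtain ⟨T0, hT0, h⟩ := block hB (ε / 2) (κ / 2) (by positivity) (by positivity) hS
  obtain ⟨C, T1, hC, hT1, h1⟩ := crude
  have hlim : ∀ᶠ T : ℝ in atTop, 2 * C * Real.log (2 * Real.sqrt T) / (Real.sqrt T * Real.log T) ≤ κ / 2 := by
    have a1 : Tendsto (fun T : ℝ => 4 * C / Real.sqrt T) atTop (𝓝 0) :=
      Tendsto.div_atTop tendsto_const_nhds Real.tendsto_sqrt_atTop
    filter_upwards [a1.eventually_le_const (show (0 : ℝ) < κ / 2 by positivity), eventually_ge_atTop (16 : ℝ)] with T hT hT16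
    refine le_trans ?_ hT
    have hs : 0 < Real.sqrt T := Real.sqrt_pos.2 (by linarith)
    have hlog : 0 < Real.log T := Real.log_pos (by linarith)
    have h5 : Real.log (2 * Real.sqrt T) ≤ 2 * Real.log T := by
      have h6 : 2 * Real.sqrt T ≤ T := by
        have h7 : 4 ≤ Real.sqrt T := by
          apply Real.le_sqrt_of_sq_le
          linarith
        nlinarith [Real.mul_self_sqrt (show (0 : ℝ) ≤ T by linarith)]
      have h8 : Real.log (2 * Real.sqrt T) ≤ Real.log T := Real.log_le_log (by positivity) h6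
      linarith
    rw [div_le_div_iff₀ (by positivity) hs]
    calc 2 * C * Real.log (2 * Real.sqrt T) * Real.sqrt T ≤ 2 * C * (2 * Real.log T) * Real.sqrt T := by gcongr
      _ = 4 * C * (Real.sqrt T * Real.log T) := by ring
  obtain ⟨T2, hT2⟩ := eventually_atTop.1 (hlim.and (eventually_ge_atTop (16 : ℝ)))
  refine ⟨max T2 (max (T0 ^ 2) (T1 ^ 2)), ?_⟩
  intro T hT
  have b2 : T2 ≤ T := (le_max_left _ _).trans hT
  have b0 : T0 ^ 2 ≤ T := ((le_max_left _ _).trans (le_max_right _ _)).trans hT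
  have b1 : T1 ^ 2 ≤ T := ((le_max_right _ _).trans (le_max_right _ _)).trans hT
  obtain ⟨c1, c2⟩ := hT2 T b2
  obtain ⟨R, hR⟩ : ∃ R : ℝ, R = Real.sqrt T := ⟨_, rfl⟩
  have hRT : R * R = T := by rw [hR]; exact Real.mul_self_sqrt (by linarith)
  have hR0 : T0 ≤ R := by rw [hR]; exact Real.le_sqrt_of_sq_le b0
  have hR1 : T1 ≤ R := by rw [hR]; exact Real.le_sqrt_of_sq_le b1
  have hR4 : 4 ≤ R := by rw [hR]; apply Real.le_sqrt_of_sq_le; linarith
  have hlogT : 0 < Real.log T := Real.log_pos (by linarith)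
  have hlogR : Real.log T = 2 * Real.log R := by
    rw [← hRT, Real.log_mul (by linarith) (by linarith)]
    ring
  rw [← hR] at c1
  have hcr := h1 (2 * R) (by linarith)
  have hcr2 : C * (2 * R) * Real.log (2 * R) ≤ κ / 2 * T * Real.log T := by
    rw [div_le_iff₀ (by positivity)] at c1
    calc C * (2 * R) * Real.log (2 * R) = R * (2 * C * Real.log (2 * R)) := by ring
      _ ≤ R * (κ / 2 * (R * Real.log T)) := by gcongr
      _ = κ / 2 * T * Real.log T := by rw [← hRT]; ring
  obtain ⟨g, hg⟩ : ∃ g : ℂ → ℝ, g = fun s => if ε / Real.log T ≤ |s.re - 1 / 2| then (mult riemannZeta s : ℝ) else 0 := ⟨_, rfl⟩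
  have hg0 : ∀ s, 0 ≤ g s := by
    intro s
    rw [hg]
    simp only
    split_ifs
    · exact Nat.cast_nonneg _
    · exact le_rfl
  have hgm : ∀ s, g s ≤ mult riemannZeta s := by
    intro s
    rw [hg]
    simp only
    split_ifs
    · exact le_rfl
    · exact Nat.cast_nonneg _
  have h3 := dyadic2 (f := fun X => ∑ s ∈ Zf riemannZeta 1 X, g s) (κ := κ / 2 * Real.log T)
    (T0 := R) (T := T) (C := κ / 2 * T * Real.log T) (by positivity) (by linarith)
    (fun X => Finset.sum_nonneg fun s _ => hg0 s) (by positivity)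
    (fun X h1 h2 _ => by
      have h4 := zf_add g (a := 1) (b := X) (c := 2 * R) le_rfl (by linarith) h2
      have h5 : 0 ≤ ∑ s ∈ Zf riemannZeta X (2 * R), g s := Finset.sum_nonneg fun s _ => hg0 s
      have h6 : ∑ s ∈ Zf riemannZeta 1 (2 * R), g s ≤ ∑ s ∈ Zf riemannZeta 1 (2 * R), (mult riemannZeta s : ℝ) :=
        Finset.sum_le_sum fun s _ => hgm s
      try simp only
      linarith)
    (fun X h1 h2 => by
      have h4 := zf_add g (a := 1) (b := X / 2) (c := X) le_rfl (by linarith) (by linarith)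
      have h5 := h (X / 2) (by linarith)
      have e : 2 * (X / 2) = X := by ring
      rw [e, Finset.sum_filter] at h5
      have hlX : Real.log R ≤ Real.log (X / 2) := Real.log_le_log (by linarith) (by linarith)
      have hlX0 : 0 < Real.log (X / 2) := Real.log_pos (by linarith)
      have h6 : ∑ s ∈ Zf riemannZeta (X / 2) X, g s ≤
          ∑ s ∈ Zf riemannZeta (X / 2) X, if ε / 2 / Real.log (X / 2) ≤ |s.re - 1 / 2| then (mult riemannZeta s : ℝ) else 0 := by
        refine Finset.sum_le_sum fun s _ => ?_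
        rw [hg]
        simp only
        split_ifs with h7 h8 h8
        · exact le_rfl
        · exfalso
          apply h8
          refine le_trans ?_ h7
          rw [div_div, div_le_div_iff₀ (by positivity) hlogT]
          rw [hlogR]
          have : ε * (2 * Real.log R) ≤ ε * (2 * Real.log (X / 2)) := by gcongr
          linarith
        · exact Nat.cast_nonneg _
        · exact le_rfl
      have h8 : Real.log (X / 2) ≤ Real.log T := Real.log_le_log (by linarith) (by linarith)
      have h9 : κ / 2 * (X / 2) * Real.log (X / 2) ≤ κ / 2 * (X / 2) * Real.log T := by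
        apply mul_le_mul_of_nonneg_left h8
        apply mul_nonneg (by positivity)
        linarith
      try simp only at h4 ⊢
      rw [h4]
      linarith) T (by nlinarith) le_rfl
  try simp only at h3
  rw [Finset.sum_filter]
  rw [hg] at h3
  linarith

theorem near_of_badz : SmallM BadZ → Near := near_of_small det_badz

end Pool.Agent.Zk5.HR
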