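import Pool.Agent.Zk5.HR.Lowq
import Pool.Agent.Zk5.HR.NearZ

set_option autoImplicit false

/-! # The sum of the distances over a block, in terms of the measure of the bad heights -/

namespace Pool.Agent.Zk5.HR

open Complex Filter Topology MeasureTheory Set
open Pool.Agent.H24R2.JP (XX)
open Pool.Agent.Zk4
open H370 (Zf mult good_zeta)
open Pool.Agent.W571.SD (wt wt_nonneg)
open Pool.Agent.TH850.UR (ew)

/-- pointwise bound -/
theorem pt {κ u : ℝ} {n : ℕ} (hκ : 0 < κ) :
    u ≤ Real.exp (-n) + (if Real.exp (-n) ≤ u then (n : ℝ) else 0) +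
      2 / κ * Real.exp (-(κ / 2 * n)) * Real.exp (κ * u) := by
  have h0 : 0 < 2 / κ * Real.exp (-(κ / 2 * n)) * Real.exp (κ * u) := by positivity
  split_ifs with h
  · rcases le_or_gt u n with h1 | h1
    · have := Real.exp_pos (-(n : ℝ))
      linarith
    · have h2 : κ / 2 * u ≤ Real.exp (κ / 2 * u) := by
        have := Real.add_one_le_exp (κ / 2 * u)
        linarith
      have h3 : Real.exp (κ / 2 * u) ≤ Real.exp (-(κ / 2 * n)) * Real.exp (κ * u) := by
        rw [← Real.exp_add]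
        apply Real.exp_le_exp.2
        nlinarith
      have h4 : u ≤ 2 / κ * Real.exp (κ / 2 * u) := by
        rw [div_mul_eq_mul_div, le_div_iff₀ hκ]
        linarith
      have h5 : 2 / κ * Real.exp (κ / 2 * u) ≤ 2 / κ * (Real.exp (-(κ / 2 * n)) * Real.exp (κ * u)) := by gcongr
      have h6 := Real.exp_pos (-(n : ℝ))
      have h7 : (0 : ℝ) ≤ n := Nat.cast_nonneg _
      linarith
  · push Not at h
    linarith

theorem blockq {B : Set ℝ} (hB : Det B) : ∃ (c C T0 : ℝ) (n0 : ℕ), 0 < c ∧ c ≤ 1 ∧ 1 ≤ C ∧ 2 ≤ T0 ∧ 1 ≤ n0 ∧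
    ∀ (T V : ℝ) (n : ℕ), T0 ≤ T → 0 ≤ V → n0 ≤ n → (n : ℝ) ≤ Real.log T / 400 →
    volume (B ∩ Icc (T / 2) (3 * T)) ≤ ENNReal.ofReal V →
    DD T (2 * T) ≤ C * T * Real.exp (-(c * n)) + C * Real.exp (C * n) * V := by
  classical
  obtain ⟨c, C, T0, n0, hc, hc1, hC, hT0, hn0, h⟩ := lowq hB
  obtain ⟨κ, C2, T2, hκ, hκ1, hC2, hT2, hexp⟩ := Pool.Agent.TH850.UR.expmom
  have hbig : 0 < 2 / κ * C2 + C * (2 / c) := by positivity
  refine ⟨min (c / 2) (κ / 2), C2 + 2 / κ * C2 + C * (2 / c) + (C + 2), max T0 T2, n0, by positivity,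
    (min_le_left _ _).trans (by linarith), by linarith, hT0.trans (le_max_left _ _), hn0, ?_⟩
  intro T V n hT hV hn hnL hvol
  have hTT0 : T0 ≤ T := (le_max_left _ _).trans hT
  have hTT2 : T2 ≤ T := (le_max_right _ _).trans hT
  have hT2' : 2 ≤ T := hT0.trans hTT0
  have hn1 : (1 : ℝ) ≤ n := by exact_mod_cast hn0.trans hn
  obtain ⟨L, hL⟩ : ∃ L : ℝ, L = Real.log T := ⟨_, rfl⟩
  have hL0 : 0 < L := by rw [hL]; linarith
  have hE := hexp T hTT2
  have hexpn : Real.exp (-(n : ℝ)) ≤ 1 := Real.exp_le_one_iff.2 (by linarith)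
  have h1 := h T V (Real.exp (-n)) n hTT0 hV (Real.exp_pos _) hexpn hn hnL hvol
    (((Zf riemannZeta T (2 * T)).filter (fun s => Real.exp (-n) / Real.log T ≤ |s.re - 1 / 2|)).image (fun s => s - 1 / 2)) (by
      intro s hs
      rw [Finset.mem_image] at hs
      obtain ⟨w, hw, rfl⟩ := hs
      rw [Finset.mem_filter, H370.mem_Zf good_zeta (by linarith)] at hw
      obtain ⟨⟨h2, h3, h4, h5, h6⟩, h7⟩ := hw
      have e1 : (w - 1 / 2 : ℂ).re = w.re - 1 / 2 := by simp
      have e2 : (w - 1 / 2 : ℂ).im = w.im := by simp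
      rw [e1, e2]
      exact ⟨Pool.Agent.TH850.UR.XX_zero (by linarith) h2 h6, h7, h4, h5⟩)
  rw [Finset.sum_image (fun a _ b _ hab => by simpa using hab)] at h1
  have h2 : ∑ s ∈ (Zf riemannZeta T (2 * T)).filter (fun s => Real.exp (-n) / Real.log T ≤ |s.re - 1 / 2|), (mult riemannZeta s : ℝ) =
      ∑ s ∈ (Zf riemannZeta T (2 * T)).filter (fun s => Real.exp (-n) / Real.log T ≤ |s.re - 1 / 2|), wt 0 (s - 1 / 2) := by
    refine Finset.sum_congr rfl fun s hs => ?_
    rw [Finset.mem_filter, H370.mem_Zf good_zeta (by linarith)] at hs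
    obtain ⟨⟨h2, h3, h4, h5, h6⟩, h7⟩ := hs
    unfold mult wt
    rw [iteratedDeriv_zero, Pool.Agent.TH850.UR.order_eq (by linarith) h2]
  rw [← h2, Finset.sum_filter, ← hL] at h1
  rw [← hL, ← mul_assoc] at hE
  -- the sum
  have h3 : L * DD T (2 * T) ≤ ∑ s ∈ Zf riemannZeta T (2 * T), ((Real.exp (-n) * ((mult riemannZeta s : ℝ) * ew κ L s)) +
      (n : ℝ) * (if Real.exp (-n) / L ≤ |s.re - 1 / 2| then (mult riemannZeta s : ℝ) else 0) +
      2 / κ * Real.exp (-(κ / 2 * n)) * ((mult riemannZeta s : ℝ) * ew κ L s)) := by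
    unfold DD
    rw [Finset.mul_sum]
    refine Finset.sum_le_sum fun s _ => ?_
    have hm : (0 : ℝ) ≤ mult riemannZeta s := Nat.cast_nonneg _
    obtain ⟨u, hu⟩ : ∃ u : ℝ, u = |s.re - 1 / 2| * L := ⟨_, rfl⟩
    have hu0 : 0 ≤ u := by rw [hu]; positivity
    have h4 := pt (κ := κ) (u := u) (n := n) hκ
    have h5 : ew κ L s = Real.exp (κ * u) := by rw [hu]; rfl
    have h6 : 1 ≤ ew κ L s := by rw [h5]; exact Real.one_le_exp (by positivity)
    have h7 : max (s.re - 1 / 2) 0 * L ≤ u := by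
      rw [hu]
      apply mul_le_mul_of_nonneg_right _ hL0.le
      exact max_le (le_abs_self _) (abs_nonneg _)
    rw [← h5] at h4
    have h8 : (if Real.exp (-n) / L ≤ |s.re - 1 / 2| then (mult riemannZeta s : ℝ) else 0) =
        if Real.exp (-n) ≤ u then (mult riemannZeta s : ℝ) else 0 := by
      have e : (Real.exp (-n) / L ≤ |s.re - 1 / 2|) ↔ Real.exp (-(n : ℝ)) ≤ u := by
        rw [hu, div_le_iff₀ hL0]
      simp only [e]
    rw [h8]
    have h9 : L * ((mult riemannZeta s : ℝ) * max (s.re - 1 / 2) 0) ≤ (mult riemannZeta s : ℝ) * u := by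
      calc L * ((mult riemannZeta s : ℝ) * max (s.re - 1 / 2) 0) =
          (mult riemannZeta s : ℝ) * (max (s.re - 1 / 2) 0 * L) := by ring
        _ ≤ _ := mul_le_mul_of_nonneg_left h7 hm
    refine h9.trans ((mul_le_mul_of_nonneg_left h4 hm).trans ?_)
    have h10 : (mult riemannZeta s : ℝ) * Real.exp (-n) ≤ Real.exp (-n) * ((mult riemannZeta s : ℝ) * ew κ L s) := by
      have h11 : (mult riemannZeta s : ℝ) * 1 ≤ (mult riemannZeta s : ℝ) * ew κ L s := by gcongr
      have h12 := mul_le_mul_of_nonneg_left h11 (Real.exp_pos (-(n : ℝ))).le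
      linarith
    split_ifs with h11
    · linarith
    · linarith
  rw [Finset.sum_add_distrib, Finset.sum_add_distrib, ← Finset.mul_sum, ← Finset.mul_sum, ← Finset.mul_sum] at h3
  have h4 : L * DD T (2 * T) ≤ Real.exp (-n) * (C2 * T * L) + n * (C * T * Real.exp (-(c * n)) * L +
      C * Real.exp (C * n) / Real.exp (-n) * L * V) + 2 / κ * Real.exp (-(κ / 2 * n)) * (C2 * T * L) := by
    refine h3.trans ?_
    gcongr
  have h5 : DD T (2 * T) ≤ Real.exp (-n) * (C2 * T) + n * (C * T * Real.exp (-(c * n)) +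
      C * Real.exp (C * n) / Real.exp (-n) * V) + 2 / κ * Real.exp (-(κ / 2 * n)) * (C2 * T) := by
    have : L * DD T (2 * T) ≤ L * (Real.exp (-n) * (C2 * T) + n * (C * T * Real.exp (-(c * n)) +
      C * Real.exp (C * n) / Real.exp (-n) * V) + 2 / κ * Real.exp (-(κ / 2 * n)) * (C2 * T)) := by
      linarith
    exact le_of_mul_le_mul_left this hL0
  refine h5.trans ?_
  obtain ⟨d, hd⟩ : ∃ d : ℝ, d = min (c / 2) (κ / 2) := ⟨_, rfl⟩
  have hd1 : d ≤ c / 2 := by rw [hd]; exact min_le_left _ _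
  have hd2 : d ≤ κ / 2 := by rw [hd]; exact min_le_right _ _
  rw [← hd]
  have hn0' : (0 : ℝ) ≤ n := by linarith
  have a1 : Real.exp (-(n : ℝ)) ≤ Real.exp (-(d * n)) := by
    apply Real.exp_le_exp.2
    have : d * n ≤ 1 * n := by apply mul_le_mul_of_nonneg_right _ hn0'; linarith
    linarith
  have a2 : Real.exp (-(κ / 2 * n)) ≤ Real.exp (-(d * n)) := by
    apply Real.exp_le_exp.2
    have : d * n ≤ κ / 2 * n := by apply mul_le_mul_of_nonneg_right hd2 hn0'
    linarith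
  have a3 : (n : ℝ) * Real.exp (-(c * n)) ≤ 2 / c * Real.exp (-(d * n)) := by
    have h6 : c / 2 * n ≤ Real.exp (c / 2 * n) := by
      have := Real.add_one_le_exp (c / 2 * n)
      linarith
    have h7 : (n : ℝ) ≤ 2 / c * Real.exp (c / 2 * n) := by
      rw [div_mul_eq_mul_div, le_div_iff₀ hc]
      linarith
    calc (n : ℝ) * Real.exp (-(c * n)) ≤ (2 / c * Real.exp (c / 2 * n)) * Real.exp (-(c * n)) := by gcongr
      _ = 2 / c * Real.exp (-(c / 2 * n)) := by
          rw [mul_assoc, ← Real.exp_add]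
          congr 2
          ring
      _ ≤ 2 / c * Real.exp (-(d * n)) := by gcongr
  have a4 : (n : ℝ) * (C * Real.exp (C * n) / Real.exp (-n)) ≤ C * Real.exp ((C + 2) * n) := by
    have h6 : (n : ℝ) ≤ Real.exp n := by
      have := Real.add_one_le_exp (n : ℝ)
      linarith
    calc (n : ℝ) * (C * Real.exp (C * n) / Real.exp (-n)) = C * (n * Real.exp (C * n) * Real.exp n) := by
          rw [Real.exp_neg]
          field_simp
      _ ≤ C * (Real.exp n * Real.exp (C * n) * Real.exp n) := by gcongr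
      _ = C * Real.exp ((C + 2) * n) := by
          rw [← Real.exp_add, ← Real.exp_add]
          congr 2
          ring
  obtain ⟨M, hM⟩ : ∃ M : ℝ, M = C2 + 2 / κ * C2 + C * (2 / c) + (C + 2) := ⟨_, rfl⟩
  have hMp : 0 < C2 + 2 / κ * C2 + C * (2 / c) := by positivity
  have hM1 : C + 2 ≤ M := by rw [hM]; linarith
  rw [← hM]
  have hCM : C ≤ M := by linarith
  have hM0 : 0 ≤ M := by linarith
  have a5 : C * Real.exp ((C + 2) * n) * V ≤ M * Real.exp (M * n) * V := by
    gcongr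
  calc Real.exp (-n) * (C2 * T) + n * (C * T * Real.exp (-(c * n)) + C * Real.exp (C * n) / Real.exp (-n) * V) +
        2 / κ * Real.exp (-(κ / 2 * n)) * (C2 * T)
      = Real.exp (-n) * (C2 * T) + (n * Real.exp (-(c * n))) * (C * T) +
        (n * (C * Real.exp (C * n) / Real.exp (-n))) * V + 2 / κ * Real.exp (-(κ / 2 * n)) * (C2 * T) := by ring
    _ ≤ Real.exp (-(d * n)) * (C2 * T) + (2 / c * Real.exp (-(d * n))) * (C * T) +
        (C * Real.exp ((C + 2) * n)) * V + 2 / κ * Real.exp (-(d * n)) * (C2 * T) := by gcongr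
    _ = (C2 + 2 / κ * C2 + C * (2 / c)) * T * Real.exp (-(d * n)) + C * Real.exp ((C + 2) * n) * V := by ring
    _ ≤ M * T * Real.exp (-(d * n)) + M * Real.exp (M * n) * V := by
        have : (C2 + 2 / κ * C2 + C * (2 / c)) ≤ M := by rw [hM]; linarith
        gcongr

end Pool.Agent.Zk5.HR
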