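import Pool.Agent.Zk5.HR.Qs

set_option autoImplicit false

/-! # The power relation -/

namespace Pool.Agent.Zk5.HR

open Complex Filter Topology MeasureTheory Set
open Pool.Agent.Zk4

theorem powq {B : Set ℝ} (hB : Det B) : ∃ c C T0 : ℝ, 0 < c ∧ c ≤ 1 ∧ 1 ≤ C ∧ 2 ≤ T0 ∧ ∀ T : ℝ, T0 ≤ T →
    DD 1 T ≤ C * T * ((vol B (2 * T) / T) ^ c + T ^ (-c)) := by
  obtain ⟨c, C, T0, n0, hc, hc1, hC, hT0, hn0, h⟩ := sumq hB
  obtain ⟨p, hp⟩ : ∃ p : ℝ, p = min (c / (2 * C)) (c / 800) := ⟨_, rfl⟩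
  have hp0 : 0 < p := by rw [hp]; positivity
  have hp1 : p ≤ c / (2 * C) := by rw [hp]; exact min_le_left _ _
  have hp2 : p ≤ c / 800 := by rw [hp]; exact min_le_right _ _
  have hp3 : p ≤ 1 / 2 := by linarith
  refine ⟨p, 4 * C * Real.exp (3 * C * n0), max T0 (Real.exp (800 * (n0 + 1))), hp0, by linarith, ?_,
    hT0.trans (le_max_left _ _), ?_⟩
  · have h1 : 1 ≤ Real.exp (3 * C * n0) := Real.one_le_exp (by positivity)
    nlinarith
  intro T hT
  have hTT0 : T0 ≤ T := (le_max_left _ _).trans hT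
  have hTp : 0 < T := by linarith
  have hlogT : 800 * ((n0 : ℝ) + 1) ≤ Real.log T := by
    rw [Real.le_log_iff_exp_le hTp]
    exact (le_max_right _ _).trans hT
  obtain ⟨L, hL⟩ : ∃ L : ℝ, L = Real.log T := ⟨_, rfl⟩
  rw [← hL] at hlogT
  have hn0' : (1 : ℝ) ≤ n0 := by exact_mod_cast hn0
  have hL0 : 0 < L := by linarith
  obtain ⟨k, hk⟩ : ∃ k : ℕ, k = ⌊L / 800⌋₊ := ⟨_, rfl⟩
  have hk1 : (k : ℝ) ≤ L / 800 := by rw [hk]; exact Nat.floor_le (by positivity)
  have hk2 : L / 800 - 1 ≤ k := by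
    rw [hk]
    have := Nat.lt_floor_add_one (L / 800)
    linarith
  have hk3 : n0 ≤ k := by
    have : (n0 : ℝ) ≤ k := by linarith
    exact_mod_cast this
  have he3 : Real.exp 1 ≤ 3 := by have := Real.exp_one_lt_d9; linarith
  have hTpow : T ^ (-p) = Real.exp (-(p * L)) := by
    rw [Real.rpow_def_of_pos hTp, ← hL]
    congr 1
    ring
  -- the case of the scale `k`
  have hek : Real.exp (-(c * k)) ≤ 3 * T ^ (-p) := by
    have h1 : -(c * k) ≤ 1 + -(p * L) := by
      have h2 : c * (L / 800 - 1) ≤ c * k := mul_le_mul_of_nonneg_left hk2 hc.le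
      have h3 : p * L ≤ c / 800 * L := mul_le_mul_of_nonneg_right hp2 hL0.le
      linarith
    calc Real.exp (-(c * k)) ≤ Real.exp (1 + -(p * L)) := Real.exp_le_exp.2 h1
      _ = Real.exp 1 * T ^ (-p) := by rw [Real.exp_add, hTpow]
      _ ≤ 3 * T ^ (-p) := by gcongr
  have hTn : 0 < T ^ (-p) := Real.rpow_pos_of_pos hTp _
  obtain ⟨b, hb⟩ : ∃ b : ℝ, b = vol B (2 * T) / T := ⟨_, rfl⟩
  have hv : vol B (2 * T) = b * T := by rw [hb]; field_simp
  have hb0 : 0 ≤ b := by rw [hb]; exact div_nonneg (vol_nonneg _ _) hTp.le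
  have hb2 : b ≤ 2 := by
    rw [hb, div_le_iff₀ hTp]
    exact vol_le B (by linarith)
  rw [← hb]
  have hbig : 1 ≤ Real.exp (3 * C * n0) := Real.one_le_exp (by positivity)
  have hbp : 0 ≤ b ^ p := Real.rpow_nonneg hb0 _
  rcases hb0.eq_or_lt with h0 | hbpos
  · -- no bad heights
    have h1 := h T k hTT0 hk3 (by rw [← hL]; exact hk1)
    rw [hv, ← h0] at h1
    have h2 : DD 1 T ≤ C * T * (3 * T ^ (-p)) := by
      have : C * T * Real.exp (-(c * k)) ≤ C * T * (3 * T ^ (-p)) := by gcongr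
      linarith
    rw [← h0] at hbp ⊢
    refine h2.trans ?_
    calc C * T * (3 * T ^ (-p)) = (3 * C) * 1 * T * (T ^ (-p)) := by ring
      _ ≤ (4 * C) * Real.exp (3 * C * n0) * T * ((0 : ℝ) ^ p + T ^ (-p)) := by
          gcongr
          · norm_num
          · linarith
  obtain ⟨β, hβ⟩ : ∃ β : ℝ, β = -Real.log b := ⟨_, rfl⟩
  have hbe : b = Real.exp (-β) := by rw [hβ, neg_neg, Real.exp_log hbpos]
  have hbpow : b ^ p = Real.exp (-(p * β)) := by
    rw [Real.rpow_def_of_pos hbpos, hβ]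
    congr 1
    ring
  obtain ⟨m, hm⟩ : ∃ m : ℕ, m = ⌊β / (2 * C)⌋₊ := ⟨_, rfl⟩
  rcases le_or_gt n0 m with hm0 | hm0
  · have hβp : 0 ≤ β / (2 * C) := by
      by_contra hcon
      push Not at hcon
      have : m = 0 := by rw [hm]; exact Nat.floor_of_nonpos hcon.le
      omega
    have hβ0 : 0 ≤ β := by
      rw [le_div_iff₀ (by positivity)] at hβp
      linarith
    have hm1 : (m : ℝ) ≤ β / (2 * C) := by rw [hm]; exact Nat.floor_le hβp
    have hm2 : β / (2 * C) - 1 ≤ m := by
      rw [hm]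
      have := Nat.lt_floor_add_one (β / (2 * C))
      linarith
    obtain ⟨n, hn⟩ : ∃ n : ℕ, n = min m k := ⟨_, rfl⟩
    have hnm : (n : ℝ) ≤ m := by rw [hn]; exact_mod_cast min_le_left _ _
    have hnk : (n : ℝ) ≤ k := by rw [hn]; exact_mod_cast min_le_right _ _
    have h1 := h T n hTT0 (by rw [hn]; exact le_min hm0 hk3) (by rw [← hL]; linarith)
    have h2 : Real.exp (-(c * n)) ≤ Real.exp (-(c * m)) + Real.exp (-(c * k)) := by
      have e1 := Real.exp_pos (-(c * m))
      have e2 := Real.exp_pos (-(c * k))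
      rcases min_choice m k with h3 | h3
      · rw [hn, h3]; linarith
      · rw [hn, h3]; linarith
    have h3 : Real.exp (-(c * m)) ≤ 3 * b ^ p := by
      have h4 : -(c * m) ≤ 1 + -(p * β) := by
        have h5 : c * (β / (2 * C) - 1) ≤ c * m := mul_le_mul_of_nonneg_left hm2 hc.le
        have h6 : p * β ≤ c / (2 * C) * β := mul_le_mul_of_nonneg_right hp1 hβ0
        have h7 : c * (β / (2 * C)) = c / (2 * C) * β := by ring
        linarith
      calc Real.exp (-(c * m)) ≤ Real.exp (1 + -(p * β)) := Real.exp_le_exp.2 h4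
        _ = Real.exp 1 * b ^ p := by rw [Real.exp_add, hbpow]
        _ ≤ 3 * b ^ p := by gcongr
    have h4 : Real.exp (C * n) * vol B (2 * T) ≤ b ^ p * T := by
      rw [hv]
      have h5 : Real.exp (C * n) * b ≤ b ^ p := by
        rw [hbpow]
        nth_rewrite 1 [hbe]
        rw [← Real.exp_add]
        apply Real.exp_le_exp.2
        have h6 : C * n ≤ C * (β / (2 * C)) := by
          apply mul_le_mul_of_nonneg_left _ (by linarith)
          linarith
        have h7 : C * (β / (2 * C)) = β / 2 := by field_simp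
        have h8 : p * β ≤ 1 / 2 * β := mul_le_mul_of_nonneg_right hp3 hβ0
        linarith
      calc Real.exp (C * n) * (b * T) = Real.exp (C * n) * b * T := by ring
        _ ≤ b ^ p * T := by gcongr
    have h5 : DD 1 T ≤ C * T * (3 * b ^ p + 3 * T ^ (-p)) + C * (b ^ p * T) := by
      have h6 : C * T * Real.exp (-(c * n)) ≤ C * T * (3 * b ^ p + 3 * T ^ (-p)) := by
        gcongr
        linarith
      have h7 : C * (Real.exp (C * n) * vol B (2 * T)) ≤ C * (b ^ p * T) := by gcongr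
      linarith
    refine h5.trans ?_
    calc C * T * (3 * b ^ p + 3 * T ^ (-p)) + C * (b ^ p * T) ≤ (4 * C) * 1 * T * (b ^ p + T ^ (-p)) := by
          have : 0 ≤ C * T * T ^ (-p) := by positivity
          linarith
      _ ≤ (4 * C) * Real.exp (3 * C * n0) * T * (b ^ p + T ^ (-p)) := by gcongr
  · -- many bad heights
    have hβn : β / (2 * C) < n0 := by
      have h1 := Nat.lt_floor_add_one (β / (2 * C))
      rw [← hm] at h1
      have h2 : (m : ℝ) + 1 ≤ n0 := by exact_mod_cast hm0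
      linarith
    rw [div_lt_iff₀ (by positivity)] at hβn
    have h1 := h T n0 hTT0 le_rfl (by rw [← hL]; linarith)
    have h2 : Real.exp (-(c * n0)) ≤ 1 := Real.exp_le_one_iff.2 (by
      have : 0 ≤ c * n0 := by positivity
      linarith)
    have h3 : vol B (2 * T) ≤ 2 * T := vol_le B (by linarith)
    have h4 : DD 1 T ≤ C * T * 1 + C * Real.exp (C * n0) * (2 * T) := by
      refine h1.trans ?_
      gcongr
    have h5 : 1 ≤ Real.exp (C * n0) := Real.one_le_exp (by positivity)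
    have h6 : 1 ≤ Real.exp (2 * C * n0) * b ^ p := by
      rw [hbpow, ← Real.exp_add]
      apply Real.one_le_exp
      rcases le_or_gt 0 β with h7 | h7
      · have h8 : p * β ≤ 1 * β := mul_le_mul_of_nonneg_right (by linarith) h7
        linarith
      · have h8 : p * β ≤ 0 := by nlinarith
        have h9 : 0 ≤ 2 * C * n0 := by positivity
        linarith
    have h7 : C * T * 1 + C * Real.exp (C * n0) * (2 * T) ≤ 3 * C * Real.exp (C * n0) * T := by
      have : C * T * 1 ≤ C * T * Real.exp (C * n0) := by gcongr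
      linarith
    refine (h4.trans h7).trans ?_
    calc 3 * C * Real.exp (C * n0) * T = 3 * C * Real.exp (C * n0) * T * 1 := (mul_one _).symm
      _ ≤ 3 * C * Real.exp (C * n0) * T * (Real.exp (2 * C * n0) * b ^ p) := by gcongr
      _ = 3 * C * Real.exp (3 * C * n0) * T * b ^ p := by
          have : Real.exp (3 * C * n0) = Real.exp (C * n0) * Real.exp (2 * C * n0) := by
            rw [← Real.exp_add]
            congr 1
            ring
          rw [this]
          ring
      _ ≤ 4 * C * Real.exp (3 * C * n0) * T * (b ^ p + T ^ (-p)) := by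
          gcongr
          · norm_num
          · linarith

theorem powz : ∃ c C T0 : ℝ, 0 < c ∧ c ≤ 1 ∧ 1 ≤ C ∧ 2 ≤ T0 ∧ ∀ T : ℝ, T0 ≤ T →
    DD 1 T ≤ C * T * ((vol BadZ (2 * T) / T) ^ c + T ^ (-c)) := powq det_badz

end Pool.Agent.Zk5.HR
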